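import Mathlib

/-!
# Squad EGF (MP_1090a0_co, helper84): log F(p, k) is at most k / (log k)^c for p at least 32

Complete proof: note of helper84 of Dec 4, 08:50.  `V` a type of vertices, `c : V → V → Fin k` a
symmetric colouring (diagonal values are ignored), `log` is `Real.log`, cardinalities are cast to `ℝ`.

Rows: file `Pool/Agent/HelperNN_EGF/XXX.lean`, namespace `Pool.Agent.EGF.HNN`,
theorem `xxx (hypotheses = the statements of the column uses) : XxxStmt`.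
-/

set_option autoImplicit false

open Finset

namespace Pool.Agent.EGF

section Defs

variable {V : Type} [DecidableEq V] {k : ℕ}

/-- the palette of `S`: the colours of the pairs of different elements of `S` -/
def pal (c : V → V → Fin k) (S : Finset V) : Finset (Fin k) :=
  ((S ×ˢ S).filter fun p => p.1 ≠ p.2).image fun p => c p.1 p.2

/-- the neighbours of `x` in `W` in the colour `a` -/
def nb (c : V → V → Fin k) (W : Finset V) (a : Fin k) (x : V) : Finset V :=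
  W.filter fun y => y ≠ x ∧ c x y = a

/-- the common neighbours of `x` and `x'` in `W` in the colour `a` -/
def nb2 (c : V → V → Fin k) (W : Finset V) (a : Fin k) (x x' : V) : Finset V :=
  W.filter fun z => z ≠ x ∧ z ≠ x' ∧ c x z = a ∧ c x' z = a

/-- no four vertices such that the four edges of a 4-cycle have one colour and the other two edges
have one colour -/
def No4 (c : V → V → Fin k) (U : Finset V) : Prop :=
  ∀ x ∈ U, ∀ x' ∈ U, ∀ y ∈ U, ∀ y' ∈ U, x ≠ x' → y ≠ y' → x ≠ y → x ≠ y' → x' ≠ y → x' ≠ y' →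
    c x x' = c y y' → c x y = c x y' → c x y = c x' y → c x y = c x' y' → False

/-- record set: `log |W| - θ |palette of W|` is maximal on `U` among the nonempty subsets -/
def Rec (c : V → V → Fin k) (U : Finset V) (θ : ℝ) : Prop :=
  U.Nonempty ∧ ∀ W ⊆ U, W.Nonempty →
    Real.log W.card - θ * (pal c W).card ≤ Real.log U.card - θ * (pal c U).card

/-- all sets of at most `s` vertices of `W` have at most `Λ` colours -/
def Flat (c : V → V → Fin k) (W : Finset V) (s : ℕ) (Λ : ℝ) : Prop :=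
  ∀ S ⊆ W, S.card ≤ s → ((pal c S).card : ℝ) ≤ Λ

open Classical in
/-- the ordered pairs of different vertices of `W` whose colour has degree less than `t |W|` in `W` at
both ends -/
noncomputable def mins (c : V → V → Fin k) (W : Finset V) (t : ℝ) : Finset (V × V) :=
  (W ×ˢ W).filter fun p => p.1 ≠ p.2 ∧ ((nb c W (c p.1 p.2) p.1).card : ℝ) < t * W.card ∧
    ((nb c W (c p.1 p.2) p.2).card : ℝ) < t * W.card

open Classical in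
/-- the vertices of `W` with a colour of degree at least `t |W|` inside `W` -/
noncomputable def maj (c : V → V → Fin k) (W : Finset V) (t : ℝ) : Finset V :=
  W.filter fun x => ∃ a, t * W.card ≤ ((nb c W a x).card : ℝ)

/-- the pairs of `A × B` whose colour is not in `C` -/
def ex (c : V → V → Fin k) (C : Finset (Fin k)) (A B : Finset V) : Finset (V × V) :=
  (A ×ˢ B).filter fun p => c p.1 p.2 ∉ C

/-- few exceptional pairs in all large sub-pairs -/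
def Reg (c : V → V → Fin k) (C : Finset (Fin k)) (A B : Finset V) (lam ρ : ℝ) : Prop :=
  ∀ A' ⊆ A, ∀ B' ⊆ B, ρ * A.card ≤ (A'.card : ℝ) → ρ * B.card ≤ (B'.card : ℝ) →
    ((ex c C A' B').card : ℝ) ≤ lam * (A'.card * B'.card)

/-- one round: the pairs `x x'` in `A` and `y y'` in `B` have the same colour, the four cross edges
have colours `f 0, .., f 3` in `C`; `x, x'` are joined to `A'` in the colour `a`, `y, y'` to `B'` in the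
colour `b`; `y, y'` to `A'` in the colours `f 4, f 5` in `C` and `x, x'` to `B'` in `f 6, f 7` in `C` -/
structure Rnd (c : V → V → Fin k) (C : Finset (Fin k)) (A B A' B' : Finset V) (x x' y y' : V)
    (a b : Fin k) (f : Fin 8 → Fin k) : Prop where
  hx : x ∈ A
  hx' : x' ∈ A
  hy : y ∈ B
  hy' : y' ∈ B
  nx : x ≠ x'
  ny : y ≠ y'
  eq : c x x' = c y y'
  f0 : c x y = f 0
  f1 : c x y' = f 1
  f2 : c x' y = f 2
  f3 : c x' y' = f 3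
  fC : ∀ i, f i ∈ C
  sA : A' ⊆ A
  sB : B' ⊆ B
  cA : ∀ z ∈ A', z ≠ x ∧ z ≠ x' ∧ c x z = a ∧ c x' z = a ∧ c y z = f 4 ∧ c y' z = f 5
  cB : ∀ z ∈ B', z ≠ y ∧ z ≠ y' ∧ c y z = b ∧ c y' z = b ∧ c x z = f 6 ∧ c x' z = f 7

end Defs

/-! ## 1. General lemmas -/

/-- REC.  A nonempty subset `W` of `U` with the largest `log |W| - θ |pal W|`
(`Finset.exists_max_image` on the nonempty elements of `U.powerset`). -/
def RecStmt : Prop := ∀ (V : Type) [DecidableEq V] (k : ℕ) (c : V → V → Fin k) (U : Finset V)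
  (θ : ℝ), U.Nonempty → ∃ W ⊆ U, Rec c W θ ∧
    Real.log U.card - θ * (pal c U).card ≤ Real.log W.card - θ * (pal c W).card

/-- PAL.  `pal S` and `pal T` are disjoint: `c x x' = c y y'` with `x ≠ x'` in `S`, `y ≠ y'` in `T`
contradicts `No4` (all cross edges have colour `a`).  Both are contained in `pal U`, so
`|pal S| ≤ |pal U| - |pal T|`, and `Rec` for `T`. -/
def PalStmt : Prop := ∀ (V : Type) [DecidableEq V] (k : ℕ) (c : V → V → Fin k) (U : Finset V)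
  (θ : ℝ), No4 c U → Rec c U θ → 0 ≤ θ → ∀ S ⊆ U, ∀ T ⊆ U, T.Nonempty → ∀ a : Fin k,
  (∀ x ∈ S, ∀ y ∈ T, x ≠ y ∧ c x y = a) →
  θ * (pal c S).card ≤ Real.log U.card - Real.log T.card

/-- DRC (dependent random choice).

Proof.  Sum over all `v : Fin τ → B`.  `A_v = {x ∈ A | ∀ l, v l ∈ N x}`:
`∑ v, |A_v| = ∑ x ∈ A, |N x ∩ B| ^ τ ≥ |A| (δ |B|) ^ τ`.  Call `w : Fin s → A` bad if the number of `y ∈ B` which
are in all `N (w i)` is `< η |B|`: `∑ v, #{w bad, all w i ∈ A_v} = ∑ w bad, |common| ^ τ ≤ |A| ^ s (η |B|) ^ τ`.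
So some `v` has `|A_v| - #bad ≥ δ ^ τ |A| - |A| ^ s η ^ τ`.  Remove `w 0` from `A_v` for every bad `w` in `A_v`; a
nonempty `S ⊆ A'` with `|S| ≤ s` is the image of some `w : Fin s → A'`, which is not bad. -/
def DrcStmt : Prop := ∀ (X Y : Type) [DecidableEq X] [DecidableEq Y] (A : Finset X)
  (B : Finset Y) (N : X → Finset Y) (δ η : ℝ) (s τ : ℕ), 0 ≤ δ → 0 ≤ η → 1 ≤ s → B.Nonempty →
  (∀ x ∈ A, δ * B.card ≤ ((N x ∩ B).card : ℝ)) →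
  ∃ A' ⊆ A, δ ^ τ * A.card - (A.card : ℝ) ^ s * η ^ τ ≤ (A'.card : ℝ) ∧
    ∀ S ⊆ A', S.Nonempty → S.card ≤ s →
      η * B.card ≤ ((B.filter fun y => ∀ x ∈ S, y ∈ N x).card : ℝ)

/-- DRE (uses DRC; `DRC` with the right parameters).

Proof.  `N x = nb c Y a x`.  `η = t ^ (1 + s / ε)` (real power), `τ = ⌈ε log (2 |X|) / log (1 / t)⌉`: so
`t ^ (-τ) ≥ (2 |X|) ^ ε`, `(t / η) ^ τ = t ^ (-τ s / ε) ≥ (2 |X|) ^ s`, so
`|X| ^ s η ^ τ ≤ 2 ^ (-s) t ^ τ ≤ t ^ τ |X| / 2`, and `t ^ τ ≥ t (2 |X|) ^ (-ε)`.  So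
`|X'| ≥ t (2 |X|) ^ (-ε) |X| / 2`; take logarithms (`(1 + ε) log 2 ≤ 2`). -/
def DreStmt : Prop := ∀ (V : Type) [DecidableEq V] (k : ℕ) (c : V → V → Fin k)
  (X Y : Finset V) (a : Fin k) (t ε : ℝ) (s : ℕ), X.Nonempty → Y.Nonempty → 0 < t → t ≤ 1 / 2 →
  0 < ε → ε ≤ 1 → 1 ≤ s → (∀ x ∈ X, t * Y.card ≤ ((nb c Y a x).card : ℝ)) →
  ∃ X' ⊆ X, X'.Nonempty ∧
    (1 - ε) * Real.log X.card - Real.log (1 / t) - 2 ≤ Real.log X'.card ∧
    ∀ S ⊆ X', S.Nonempty → S.card ≤ s →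
      t ^ (1 + (s : ℝ) / ε) * Y.card ≤ ((Y.filter fun y => ∀ x ∈ S, y ≠ x ∧ c x y = a).card : ℝ)

/-- MIN (few minor pairs).

Proof.  `N = |W|`, `m = |mins c W t|`, `Λ ≥ 0` (`S = ∅`).  For `v : Fin s → W` the image has at most `s` elements,
so at most `Λ` colours.  Call `e = (i, j)`, `i < j`, good for `v` if `(v i, v j) ∈ mins c W t`.  Number of colours
`≥ #{good e} - #{unordered pairs e ≠ e' good with the same colour}` (`n - n (n-1)/2 ≤ 1` for each colour).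
Sum over `v`: with `E = s (s - 1) / 2`: `∑ v #{good e} = E m N ^ (s - 2)`.  `e, e'` with a common index: for given `(x, y)`
in `mins` the number of `z` with `c x z = c x y` is `< t N`: at most `m t N ^ (s - 2)` functions `v`.  `e, e'` disjoint: for
given `(x, y)` and `z` the number of `w` with `(z, w) ∈ mins` and `c z w = c x y` is `< t N`: again at most
`m t N ^ (s - 2)`.  So `Λ N ^ s ≥ m N ^ (s - 2) (E - E ^ 2 t / 2) ≥ (3 / 4) E m N ^ (s - 2)`, as `E t ≤ s ^ 2 t / 2 ≤ 1 / 2`. -/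
def MinStmt : Prop := ∀ (V : Type) [DecidableEq V] (k : ℕ) (c : V → V → Fin k) (W : Finset V)
  (s : ℕ) (Λ t : ℝ), (∀ x y, c x y = c y x) → Flat c W s Λ → 2 ≤ s → 0 ≤ t →
  (s : ℝ) ^ 2 * t ≤ 1 →
  ((mins c W t).card : ℝ) * (s * (s - 1)) ≤ 4 * Λ * (W.card : ℝ) ^ 2

/-- MAJ (uses MIN).

Proof.  `t = 1 / s ^ 2`, `N = |W|`: `m (s - 1) ≤ 4 L N ^ 2`, `m ≤ N ^ 2 / 8`.  There are `N ^ 2 - N ≥ 7 N ^ 2 / 8` ordered
pairs `x ≠ y`, so `3 N ^ 2 / 4` which are not in `mins`: the colour has degree `≥ t N` at `x` or at `y`; by symmetry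
at `x` for at least `3 N ^ 2 / 8` of them.  Each such `x` is in `maj` and has at most `N` such `y`. -/
def MajStmt : Prop := ∀ (V : Type) [DecidableEq V] (k : ℕ) (c : V → V → Fin k) (W : Finset V)
  (s : ℕ) (L : ℝ), (∀ x y, c x y = c y x) → Flat c W s (L * s) → 1 ≤ L → 32 * L + 1 ≤ s →
  8 ≤ W.card → (W.card : ℝ) ≤ 4 * (maj c W (1 / (s : ℝ) ^ 2)).card

/-- FLT (uses DRE, PAL).

Proof.  DRE with `Y = U`; for `S ⊆ X'` nonempty with `|S| ≤ s` let `T` = the `y ∈ U` with `y ≠ x`, `c x y = a` for all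
`x ∈ S`: `|T| ≥ t ^ (1 + s / ε) |U| > 0`, and PAL: `θ |pal S| ≤ log |U| - log |T| ≤ (1 + s / ε) log (1 / t)`. -/
def FltStmt : Prop := ∀ (V : Type) [DecidableEq V] (k : ℕ) (c : V → V → Fin k)
  (U X : Finset V) (a : Fin k) (θ t ε : ℝ) (s : ℕ), No4 c U → Rec c U θ → 0 < θ → X ⊆ U →
  X.Nonempty → 0 < t → t ≤ 1 / 2 → 0 < ε → ε ≤ 1 → 1 ≤ s →
  (∀ x ∈ X, t * U.card ≤ ((nb c U a x).card : ℝ)) →
  ∃ X' ⊆ X, X'.Nonempty ∧ Flat c X' s ((1 + s / ε) * Real.log (1 / t) / θ) ∧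
    (1 - ε) * Real.log X.card - Real.log (1 / t) - 2 ≤ Real.log X'.card

/-! ## 2. Bootstrapping: palettes of small sets grow linearly with a small constant -/

/-- INI (uses REC, FLT): the first step.

Proof.  `θ = (1 - γ) β`, `U` by REC: `log |U| - θ |pal U| ≥ log |W| - θ |pal W| ≥ γ log |W|`, so
`log |U| ≥ γ log |W|` (in particular `|U| ≥ 2`) and `log |U| ≥ θ |pal U|`.  Every `x ∈ U` has a colour `a` with
`|nb c U a x| ≥ (|U| - 1) / k ≥ |U| / (2 k)`; some `a` works for a set `X` of at least `|U| / k` vertices.  FLT with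
`t = 1 / (2 k)`.  `log |X'| ≥ (1 - ε) (log |U| - log k) - log (2 k) - 2 ≥ (1 - 2 ε) log |U|`, as
`ε log |U| ≥ ε γ log |W| ≥ 2 log (2 k) + 2`.  So `log |X'| ≥ (1 - 2 ε) θ |pal U|`, and `≥ (1 - 2 ε) γ log |W|`. -/
def IniStmt : Prop := ∀ (V : Type) [DecidableEq V] (k : ℕ) (c : V → V → Fin k)
  (W : Finset V) (β γ ε : ℝ) (s' : ℕ), No4 c W → 0 < β → 0 < γ → γ ≤ 1 / 4 → 0 < ε → ε ≤ 1 / 4 →
  1 ≤ s' → W.Nonempty → β * (pal c W).card ≤ Real.log W.card →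
  3 * Real.log (2 * k) + 8 ≤ ε * γ * Real.log W.card →
  ∃ W' ⊆ W, W'.Nonempty ∧
    Flat c W' s' ((1 + s' / ε) * Real.log (2 * k) / ((1 - γ) * β)) ∧
    (1 - 2 * ε) * (1 - γ) * β * (pal c W').card ≤ Real.log W'.card ∧
    γ / 2 * Real.log W.card ≤ Real.log W'.card

/-- STP (uses REC, MAJ, FLT): one step.

Proof.  `θ`, `U` as in INI.  `|U| ≥ 8` because `log |U| ≥ γ log |W| ≥ 32`.  `Flat` is inherited by subsets.  MAJ: at least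
`|U| / 4` vertices of `U` have a colour of degree `≥ |U| / s ^ 2`; some colour `a` works for a set `X` of at least
`|U| / (4 k)` vertices.  FLT with `t = 1 / s ^ 2`, `log (1 / t) = 2 log s`.
`log |X'| ≥ (1 - ε) (log |U| - log (4 k)) - 2 log s - 2 ≥ (1 - 2 ε) log |U|`, as
`ε log |U| ≥ ε γ log |W| ≥ log k + 8 log s + 8`. -/
def StpStmt : Prop := ∀ (V : Type) [DecidableEq V] (k : ℕ) (c : V → V → Fin k)
  (W : Finset V) (β γ ε L : ℝ) (s s' : ℕ), (∀ x y, c x y = c y x) → No4 c W → 0 < β → 0 < γ →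
  γ ≤ 1 / 4 → 0 < ε → ε ≤ 1 / 4 → 1 ≤ L → 32 * L + 1 ≤ s → 1 ≤ s' → W.Nonempty →
  Flat c W s (L * s) → β * (pal c W).card ≤ Real.log W.card →
  Real.log k + 8 * Real.log s + 8 ≤ ε * γ * Real.log W.card →
  ∃ W' ⊆ W, W'.Nonempty ∧
    Flat c W' s' ((1 + s' / ε) * (2 * Real.log s) / ((1 - γ) * β)) ∧
    (1 - 2 * ε) * (1 - γ) * β * (pal c W').card ≤ Real.log W'.card ∧
    γ / 2 * Real.log W.card ≤ Real.log W'.card

/-- STA (uses INI, STP; numerical): from the beginning to flat sets with small constants.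

Proof.  `2 ≤ 2 k`, `0 < log (2 k)`.  INI with `β = θ`, `γ = ε = 1 / 16`, `ℓ = 35 log (2 k) / θ ≥ 1`, `s' = s0 = ⌈32 ℓ⌉ + 1`: `W1`, `Flat` with
`(1 + 16 s0) log (2 k) (16 / 15) / θ ≤ ℓ s0`, ratio `(7 / 8) (15 / 16) θ ≥ (4 / 5) θ`, `log |W1| ≥ log |W| / 32`.
STP with `L = ℓ`, `s = s0`, `s' = 32 Q ^ 4 + 1`, `β = (4 / 5) θ`, `γ = ε = 1 / 16`: `W2`, `Flat` with
`(1 + 16 s') (2 log s0) (16 / 15) (5 / 4) / θ ≤ 50 s' log s0 / θ ≤ Q ^ 4 s'`, because `s0 ≤ exp (2 Q)` (`log (2 k) ≤ exp Q`, `1 / θ ≤ Q`)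
and `1 / θ ≤ Q / 1024`; ratio `(4 / 5) (7 / 8) (15 / 16) θ ≥ θ / 2`; `log |W2| ≥ log |W1| / 32`.
STP with `L = Q ^ 4`, `s = 32 Q ^ 4 + 1`, `s' = s1`, `β = θ / 2`, `γ = ε = 1 / 4`: `W'`, `Flat` with
`(1 + 4 s1) (2 log s) (4 / 3) (2 / θ) ≤ 27 s1 log s / θ ≤ Q ^ 2 s1` (`log s ≤ log (33 Q ^ 4) ≤ Q`), ratio `(1 / 2) (3 / 4) θ / 2 ≥ θ / 8`,
`log |W'| ≥ log |W2| / 8`; and `Flat c W' s` is inherited from `W2`.  The three size conditions are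
`3 log (2 k) + 8 ≤ log |W| / 256`, `log k + 8 log s0 + 8 ≤ log |W1| / 256`, `log k + 8 log s + 8 ≤ log |W2| / 16`; they follow from
`log |W| ≥ exp (2 Q)` and `log k ≤ log (2 k) ≤ exp Q`, `exp Q ≥ 2 ^ 40 Q`. -/
def StaStmt : Prop := ∀ (V : Type) [DecidableEq V] (k : ℕ) (c : V → V → Fin k)
  (θ : ℝ) (Q s s1 : ℕ) (W : Finset V), (∀ x y, c x y = c y x) → No4 c W → 0 < θ → θ ≤ 1 →
  1024 / θ ≤ Q → s = 32 * Q ^ 4 + 1 → s1 = Q ^ 2575 → Real.log (2 * k) ≤ Real.exp Q →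
  W.Nonempty → θ * (pal c W).card ≤ Real.log W.card → Real.exp (2 * Q) ≤ Real.log W.card →
  ∃ W' ⊆ W, W'.Nonempty ∧ Flat c W' s ((Q : ℝ) ^ 4 * s) ∧ Flat c W' s1 ((Q : ℝ) ^ 2 * s1) ∧
    θ / 8 * (pal c W').card ≤ Real.log W'.card ∧
    Real.log W.card ≤ 8192 * Real.log W'.card

/-- RAT (uses REC): a record set with bounded ratio.

Proof.  Among the `W1 ⊆ W` with `pal W1` nonempty choose one with the largest `(log |W1|) ^ 3 / |pal W1|`;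
`R = log |W1| / |pal W1|`.  `(log |W1|) ^ 3 / |pal W1| ≥ (log |W|) ^ 3 / |pal W|` and `log |W1| ≤ log |W|` give `R ≥ β`
and (with `|pal W1| ≥ 1`) `(log |W1|) ^ 3 ≥ β (log |W|) ^ 2`.  `θ = R / 2`, `U ⊆ W1` by REC:
`log |U| ≥ log |W1| - θ |pal W1| = log |W1| / 2 > 0`, so `pal U` is nonempty, and by the choice of `W1`
`log |U| / |pal U| ≤ (log |W1| / log |U|) ^ 2 R ≤ 4 R = 8 θ`. -/
def RatStmt : Prop := ∀ (V : Type) [DecidableEq V] (k : ℕ) (c : V → V → Fin k) (W : Finset V)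
  (β : ℝ), 0 < β → 2 ≤ W.card → β * (pal c W).card ≤ Real.log W.card →
  ∃ (U : Finset V) (θ : ℝ), U ⊆ W ∧ Rec c U θ ∧ β / 2 ≤ θ ∧
    Real.log U.card ≤ 8 * θ * (pal c U).card ∧ 0 < (pal c U).card ∧
    β * (Real.log W.card) ^ 2 ≤ 8 * (Real.log U.card) ^ 3

/-! ## 3. Two classes and regularity -/

/-- OWN (uses MIN): two large classes whose cross edges have few colours, up to a few exceptions.

Proof.  `N = |U|`, `t = 1 / s ^ 2`, `m = |mins c U t| ≤ 4 L N ^ 2 / (s - 1) ≤ 8 L N ^ 2 / s`.  `U1 ⊆ U` with `⌊N / 2⌋`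
elements, `U2 = U \ U1`; `|U1| |U2| ≥ (7 / 32) N ^ 2`.  `M x = {a | t N ≤ |nb c U a x|}` has at most `s ^ 2` elements (the
`nb c U a x` are disjoint); there are at most `Q = (k + 1) ^ (s ^ 2)` sets with at most `s ^ 2` colours.
`A_M = {x ∈ U1 | M x = M}`, `B_M' = {y ∈ U2 | M y = M'}`.  For `x ∈ A_M`, `y ∈ B_M'` a colour outside `C = M ∪ M'` means
`(x, y) ∈ mins`.  The `A_M` with fewer than `|U1| / (4 Q)` elements contain together at most `|U1| / 4` vertices,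
the same for `B`; if all pairs of other classes had more than `(160 L / s) |A_M| |B_M'|` exceptional pairs then
`m ≥ (160 L / s) (9 / 16) |U1| |U2| ≥ (160 L / s) N ^ 2 / 9 > 8 L N ^ 2 / s`. -/
def OwnStmt : Prop := ∀ (V : Type) [DecidableEq V] (k : ℕ) (c : V → V → Fin k) (U : Finset V)
  (s : ℕ) (L : ℝ), (∀ x y, c x y = c y x) → Flat c U s (L * s) → 0 < L → 2 ≤ s → 16 ≤ U.card →
  ∃ (A B : Finset V) (C : Finset (Fin k)), A ⊆ U ∧ B ⊆ U ∧ Disjoint A B ∧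
    C.card ≤ 2 * s ^ 2 ∧ (U.card : ℝ) ≤ 16 * ((k : ℝ) + 1) ^ (s ^ 2) * A.card ∧
    (U.card : ℝ) ≤ 16 * ((k : ℝ) + 1) ^ (s ^ 2) * B.card ∧
    ((ex c C A B).card : ℝ) ≤ 160 * L / s * (A.card * B.card)

/-- REG (density decrement).

Proof.  For `i ≤ J` let `P i` say: there are `A1 ⊆ A`, `B1 ⊆ B`, `|A1| ≥ ρ ^ i |A|`, `|B1| ≥ ρ ^ i |B|`, with
`|ex A1 B1| ≤ κ (1 - 3 ρ ^ 2 i) |A1| |B1|`.  `P 0`.  Take the largest `i ≤ J` with `P i`.  If `i = J` then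
`ex A1 B1` is empty (`1 ≤ 3 ρ ^ 2 J`), done.  Let `i < J` and suppose `A', B'` violate `Reg` (`|ex A' B'| > 4 κ |A'| |B'|`).  Take
`A'' ⊆ A'` with exactly `⌈ρ |A1|⌉` elements and the largest `|ex A'' B'|`: the density of `A'', B'` is at least that
of `A', B'`; then `B'' ⊆ B'` with `⌈ρ |B1|⌉` elements: `|ex A'' B''| > 4 κ |A''| |B''|`.  As `|A1|, |B1| ≥ 2` and `ρ ≤ 1 / 4`,
`|A1 \ A''| ≥ ρ |A1|`, `|B1 \ B''| ≥ ρ |B1|`.  With `w = |A''| |B''| / (|A1| |B1|) ≥ ρ ^ 2` and `D = κ (1 - 3 ρ ^ 2 i) ≤ κ`: if the three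
other blocks `A'' × (B1 \ B'')`, .. all had density `> D - 3 κ ρ ^ 2`, the density of `A1 × B1` would be
`> 4 κ w + (1 - w) (D - 3 κ ρ ^ 2) ≥ D`.  So one of them gives `P (i + 1)`. -/
def RegStmt : Prop := ∀ (V : Type) [DecidableEq V] (k : ℕ) (c : V → V → Fin k)
  (C : Finset (Fin k)) (A B : Finset V) (κ ρ : ℝ) (J : ℕ), 0 < κ → 0 < ρ → ρ ≤ 1 / 4 →
  1 ≤ 3 * ρ ^ 2 * J → 2 ≤ ρ ^ J * A.card → 2 ≤ ρ ^ J * B.card →
  ((ex c C A B).card : ℝ) ≤ κ * (A.card * B.card) →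
  ∃ A1 ⊆ A, ∃ B1 ⊆ B, ρ ^ J * A.card ≤ (A1.card : ℝ) ∧ ρ ^ J * B.card ≤ (B1.card : ℝ) ∧
    Reg c C A1 B1 (4 * κ) ρ

/-- TYP (typical vertices).

Proof.  If the set `Z` of the `x ∈ A'` with more than `lam |B'|` exceptional `y ∈ B'` had more than `ρ |A|` elements, then
`Reg` for `Z, B'` gives `|ex Z B'| ≤ lam |Z| |B'|`, but by the definition of `Z` it is `> lam |Z| |B'|` (`Z` is nonempty).
The second part is the same with the roles exchanged. -/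
def TypStmt : Prop := ∀ (V : Type) [DecidableEq V] (k : ℕ) (c : V → V → Fin k)
  (C : Finset (Fin k)) (A B A' B' : Finset V) (lam ρ : ℝ), Reg c C A B lam ρ → 0 ≤ ρ →
  A' ⊆ A → B' ⊆ B →
  (ρ * B.card ≤ (B'.card : ℝ) → ∃ Z ⊆ A', (Z.card : ℝ) ≤ ρ * A.card ∧
    ∀ x ∈ A' \ Z, ((B'.filter fun y => c x y ∉ C).card : ℝ) ≤ lam * B'.card) ∧
  (ρ * A.card ≤ (A'.card : ℝ) → ∃ Z ⊆ B', (Z.card : ℝ) ≤ ρ * B.card ∧
    ∀ y ∈ B' \ Z, ((A'.filter fun x => c x y ∉ C).card : ℝ) ≤ lam * A'.card)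

/-! ## 4. One round -/

/-- ENT (intersection of nearly all sets of a large family).

Proof.  `miss y = {i ∈ Γ | y ∉ S i}` for `y ∈ B`; `∑ y, |miss y| ≤ κ |Γ| |B|`, so the set `B1` of the `y` with
`|miss y| ≤ 2 κ |Γ|` has at least `|B| / 2` elements.  With `λ = 1 / √κ` the number of the `Z ⊆ Γ` with
`|Z| ≤ 2 κ |Γ|` is at most `∑ Z ⊆ Γ, exp (λ (2 κ |Γ| - |Z|)) = exp (2 λ κ |Γ|) (1 + exp (-λ)) ^ |Γ| ≤
exp ((2 √κ + exp (-λ)) |Γ|) ≤ exp (3 √κ |Γ|)` (`exp (-λ) ≤ 1 / λ`).  So some `Z` is `miss y` for at least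
`|B| exp (-3 √κ |Γ|) / 2` of the `y ∈ B1`: these `y` are `W`. -/
def EntStmt : Prop := ∀ (V : Type) [DecidableEq V] (I : Type) [DecidableEq I] (Γ : Finset I)
  (B : Finset V) (S : I → Finset V) (κ : ℝ), 0 < κ → B.Nonempty →
  (∀ i ∈ Γ, (1 - κ) * B.card ≤ ((B ∩ S i).card : ℝ)) →
  ∃ Z ⊆ Γ, ∃ W ⊆ B, W.Nonempty ∧ (Z.card : ℝ) ≤ 2 * κ * Γ.card ∧ (∀ i ∈ Γ \ Z, W ⊆ S i) ∧
    Real.log B.card - 3 * √κ * Γ.card - 1 ≤ Real.log W.card

/-- XSE (uses DRE): nearly all colours appear on pairs with many common neighbours.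

Proof.  Some colour `a` has `|nb c A1 a x| ≥ |A1| / s ^ 2` for all `x` in a set `X1 ⊆ X0` with `|X1| ≥ |X0| / k`.  DRE with
`Y = A1`, `t = 1 / s ^ 2`, `ε = 1 / 128` and sets of at most `2` elements: `1 + 2 / ε = 257`.
`log |X| ≥ (127 / 128) log |X1| - 2 log s - 2 ≥ (127 / 128) log |U| - E - log k - 2 log s - 2`, so by `Rec`
`θ (|pal U| - |pal X|) ≤ log |U| / 128 + E + log k + 2 log s + 2 ≤ log |U| / 64 ≤ θ |pal U| / 8`. -/
def XseStmt : Prop := ∀ (V : Type) [DecidableEq V] (k : ℕ) (c : V → V → Fin k)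
  (U A1 X0 : Finset V) (θ E : ℝ) (s : ℕ), Rec c U θ → 0 < θ →
  Real.log U.card ≤ 8 * θ * (pal c U).card → 2 ≤ s → A1 ⊆ U → X0 ⊆ A1 → X0.Nonempty →
  (∀ x ∈ X0, ∃ a, 1 / (s : ℝ) ^ 2 * A1.card ≤ ((nb c A1 a x).card : ℝ)) →
  Real.log U.card - E ≤ Real.log X0.card →
  E + Real.log k + 2 * Real.log s + 4 ≤ Real.log U.card / 128 →
  ∃ X ⊆ X0, ∃ a : Fin k, 7 / 8 * ((pal c U).card : ℝ) ≤ (pal c X).card ∧
    ∀ x ∈ X, ∀ x' ∈ X, x ≠ x' →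
      (1 / (s : ℝ) ^ 2) ^ 257 * A1.card ≤ ((nb2 c A1 a x x').card : ℝ)

/-- YSE (uses DRE, ENT): THE POINT.  A colour `i ∈ Γ` which appears in `S i` on a pair with many common
neighbours.

Proof.  ENT with `κ = 3 lam`: `Z`, `W ⊆ B0`, `h = 3 √(3 lam) ≤ θ / 8`.  Some colour `b` works for `W1 ⊆ W`,
`|W1| ≥ |W| / k`; DRE with `Y = B1`, `t = 1 / s ^ 2`, `ε = 1 / 128`, pairs: `Y' ⊆ W1`,
`log |Y'| ≥ (127 / 128) (log |U| - E - h |Γ| - 1 - log k) - 2 log s - 2`.  By `Rec`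
`θ (|pal U| - |pal Y'|) ≤ log |U| / 128 + E + log k + 2 log s + 3 + h |Γ| ≤ log |U| / 64 + (θ / 8) |Γ| ≤
θ (|pal U| / 8 + |Γ| / 8)`, so `Y'` misses at most `(1 / 7 + 1 / 8) |Γ|` colours of `pal U`, and
`|Γ \ Z| ≥ (1 - 6 lam) |Γ| ≥ (94 / 100) |Γ|`, `|Γ| > 0`: there is `i ∈ Γ \ Z` in `pal Y'`. -/
def YseStmt : Prop := ∀ (V : Type) [DecidableEq V] (k : ℕ) (c : V → V → Fin k)
  (U B1 B0 : Finset V) (θ E lam : ℝ) (s : ℕ) (Γ : Finset (Fin k)) (S : Fin k → Finset V),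
  Rec c U θ → 0 < θ → Real.log U.card ≤ 8 * θ * (pal c U).card → 2 ≤ s → B1 ⊆ U → B0 ⊆ B1 →
  B0.Nonempty → (∀ y ∈ B0, ∃ b, 1 / (s : ℝ) ^ 2 * B1.card ≤ ((nb c B1 b y).card : ℝ)) →
  Real.log U.card - E ≤ Real.log B0.card →
  E + Real.log k + 2 * Real.log s + 4 ≤ Real.log U.card / 128 → 0 < lam → lam ≤ 1 / 100 →
  48 * √lam ≤ θ → Γ ⊆ pal c U → 7 / 8 * ((pal c U).card : ℝ) ≤ Γ.card →
  (∀ i ∈ Γ, (1 - 3 * lam) * B0.card ≤ ((B0 ∩ S i).card : ℝ)) →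
  ∃ i ∈ Γ, ∃ b : Fin k, ∃ y ∈ B0, ∃ y' ∈ B0, y ≠ y' ∧ c y y' = i ∧ y ∈ S i ∧ y' ∈ S i ∧
    (1 / (s : ℝ) ^ 2) ^ 257 * B1.card ≤ ((nb2 c B1 b y y').card : ℝ)

/-- RND (uses MAJ, TYP, XSE, YSE; STRONG): one round.

Proof.  `t = 1 / s ^ 2`, `η = t ^ 257`, `E = R + log (1 / σ) + 3`.  (1) `|A1|, |B1| ≥ 8`; MAJ: `A0 = maj c A1 t`, `B0 = maj c B1 t`
have at least `|A1| / 4`, `|B1| / 4` elements (`Flat` is inherited).  (2) TYP for `A1, B1` and for `A1, B0`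
(`|B0| ≥ σ |B| / 4 ≥ ρ |B|`): all `x ∈ A1` but at most `2 ρ |A| ≤ lam |A1| / 8` have at most `lam |B1|` exceptional `y ∈ B1` and at
most `lam |B0|` exceptional `y ∈ B0`; so `X0` = these `x` in `A0` has at least `|A1| / 8` elements:
`log |X0| ≥ log |U| - E`.  XSE: `X`, `a`; `Γ = pal c X`, and for `i ∈ Γ` fix `x_i ≠ x'_i` in `X` with `c x_i x'_i = i`.
(3) `S i` = the `y` with `c x_i y ∈ C`, `c x'_i y ∈ C` and at most `lam |A1|` exceptional `x ∈ A1`.  By the choice of `X0`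
and TYP: `|B0 \ S i| ≤ 2 lam |B0| + ρ |B| ≤ 3 lam |B0|`.  YSE: `i`, `b`, `y`, `y'`; `x = x_i`, `x' = x'_i`.
(4) `nb2 c A1 a x x'` has at least `η |A1|` elements, at most `2 lam |A1| ≤ η |A1| / 2` of them have `c y z ∉ C` or
`c y' z ∉ C`; the others are split by `(c y z, c y' z) ∈ C × C`: one part has at least `η |A1| / (2 |C| ^ 2)` elements: `A2`.
In the same way `B2 ⊆ nb2 c B1 b y y'` (few exceptional vertices for `x, x' ∈ X0`). -/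
def RndStmt : Prop := ∀ (V : Type) [DecidableEq V] (k : ℕ) (c : V → V → Fin k)
  (C : Finset (Fin k)) (U A B A1 B1 : Finset V) (s : ℕ) (L θ lam ρ σ R : ℝ),
  (∀ x y, c x y = c y x) → Rec c U θ → 0 < θ → Real.log U.card ≤ 8 * θ * (pal c U).card →
  1 ≤ L → 32 * L + 1 ≤ s → Flat c U s (L * s) → A ⊆ U → B ⊆ U →
  Real.log U.card - R ≤ Real.log A.card → Real.log U.card - R ≤ Real.log B.card →
  Reg c C A B lam ρ → 0 < lam → lam ≤ 1 / 100 → lam ≤ (1 / (s : ℝ) ^ 2) ^ 257 / 4 →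
  48 * √lam ≤ θ → 0 < ρ → 0 < σ → σ ≤ 1 → 16 * ρ ≤ lam * σ → 0 ≤ R →
  R + Real.log (1 / σ) + Real.log k + 2 * Real.log s + 8 ≤ Real.log U.card / 128 →
  A1 ⊆ A → B1 ⊆ B → σ * A.card ≤ (A1.card : ℝ) → σ * B.card ≤ (B1.card : ℝ) →
  ∃ (A2 B2 : Finset V) (x x' y y' : V) (a b : Fin k) (f : Fin 8 → Fin k),
    Rnd c C A1 B1 A2 B2 x x' y y' a b f ∧
    (1 / (s : ℝ) ^ 2) ^ 257 / (2 * (C.card : ℝ) ^ 2) * A1.card ≤ (A2.card : ℝ) ∧
    (1 / (s : ℝ) ^ 2) ^ 257 / (2 * (C.card : ℝ) ^ 2) * B1.card ≤ (B2.card : ℝ)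

/-- CNT (final count).

Proof.  `f i : Fin 8 → C` takes at most `|C| ^ 8` values, so there are `i_1 < .. < i_8 < m` with the same `f`.
`Q` = the `32` vertices `x i, x' i, y i, y' i` for these `i`.  They are different: `A (i + 1)` does not contain
`x i, x' i`, and the `A i` decrease, same for `B`, and `A 0`, `B 0` are disjoint.  The colours: `c (x i) (x' i) = c (y i) (y' i)`
(8), `a i` for the first seven `i`, `b i` for the first seven `i`, and `f 0, .., f 7`: together `30`. -/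
def CntStmt : Prop := ∀ (V : Type) [DecidableEq V] (k : ℕ) (c : V → V → Fin k)
  (C : Finset (Fin k)) (m : ℕ) (A B : ℕ → Finset V) (x x' y y' : ℕ → V) (a b : ℕ → Fin k)
  (f : ℕ → Fin 8 → Fin k), (∀ x y, c x y = c y x) → Disjoint (A 0) (B 0) →
  (∀ i < m, Rnd c C (A i) (B i) (A (i + 1)) (B (i + 1)) (x i) (x' i) (y i) (y' i) (a i) (b i)
    (f i)) → 7 * C.card ^ 8 < m →
  ∃ Q : Finset V, Q ⊆ A 0 ∪ B 0 ∧ Q.card = 32 ∧ (pal c Q).card ≤ 30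

/-- ITE (uses RND, CNT): all rounds.

Proof.  `τ = (1 / s ^ 2) ^ 257 / (2 |C| ^ 2) ≤ 1`, `σ = τ ^ m`.  Define `A i, B i, ..` for `i ≤ m` by recursion with RND
(`|A i| ≥ τ ^ i |A| ≥ σ |A|`, the same `σ` in every round); `C` is nonempty (RND gives `f`; or the case `C = ∅` is excluded
because `lam < 1` and `Reg` for `A, B` themselves).  Then CNT and `hU`. -/
def IteStmt : Prop := ∀ (V : Type) [DecidableEq V] (k : ℕ) (c : V → V → Fin k)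
  (C : Finset (Fin k)) (U A B : Finset V) (s m : ℕ) (L θ lam ρ σ R : ℝ),
  (∀ x y, c x y = c y x) → Rec c U θ → 0 < θ → Real.log U.card ≤ 8 * θ * (pal c U).card →
  1 ≤ L → 32 * L + 1 ≤ s → Flat c U s (L * s) → A ⊆ U → B ⊆ U → Disjoint A B →
  Real.log U.card - R ≤ Real.log A.card → Real.log U.card - R ≤ Real.log B.card →
  Reg c C A B lam ρ → 0 < lam → lam ≤ 1 / 100 → lam ≤ (1 / (s : ℝ) ^ 2) ^ 257 / 4 →
  48 * √lam ≤ θ → 0 < ρ → 0 < σ → 16 * ρ ≤ lam * σ → 0 ≤ R → 7 * C.card ^ 8 < m →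
  σ ≤ ((1 / (s : ℝ) ^ 2) ^ 257 / (2 * (C.card : ℝ) ^ 2)) ^ m → σ ≤ 1 →
  R + Real.log (1 / σ) + Real.log k + 2 * Real.log s + 8 ≤ Real.log U.card / 128 →
  (∀ S ⊆ U, S.card = 32 → 31 ≤ (pal c S).card) → False

/-! ## 5. Assembly -/

/-- CLS (uses OWN, REG, ITE): all steps after the record set, with parameters.

Proof.  OWN for `s1`, `L1`: `A0, B0, C`, `|C| ≤ 2 s1 ^ 2 ≤ j`; `160 L1 / s1 ≤ lam / 4`.  REG with `κ = lam / 4`: `A, B`,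
`|A| ≥ ρ ^ J |A0|`, so `log |U| - R ≤ log |A|` with `R = log 16 + s1 ^ 2 log (k + 1) + J log (1 / ρ)` (the
hypothesis `hsize` also gives `2 ≤ ρ ^ J |A0|`).  ITE with `m = 7 j ^ 8 + 1`
(`C.card ≤ j`, so `7 |C| ^ 8 < m`, and `(.. / (2 |C| ^ 2)) ^ m ≥ (.. / (2 j ^ 2)) ^ m ≥ σ`; `|C| ≥ 1` or divide by zero: if `C = ∅`
then all pairs of `A × B` are exceptional, a contradiction to `Reg` and `lam < 1`). -/
def ClsStmt : Prop := ∀ (V : Type) [DecidableEq V] (k : ℕ) (c : V → V → Fin k)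
  (U : Finset V) (s s1 j J : ℕ) (L L1 θ lam ρ σ : ℝ),
  (∀ x y, c x y = c y x) → Rec c U θ → 0 < θ → Real.log U.card ≤ 8 * θ * (pal c U).card →
  1 ≤ L → 32 * L + 1 ≤ s → Flat c U s (L * s) → 0 < L1 → 2 ≤ s1 → Flat c U s1 (L1 * s1) →
  640 * L1 ≤ lam * s1 → 0 < lam → lam ≤ 1 / 100 → lam ≤ (1 / (s : ℝ) ^ 2) ^ 257 / 4 →
  48 * √lam ≤ θ → 2 * s1 ^ 2 ≤ j → 0 < σ → σ ≤ 1 →
  σ ≤ ((1 / (s : ℝ) ^ 2) ^ 257 / (2 * (j : ℝ) ^ 2)) ^ (7 * j ^ 8 + 1) →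
  0 < ρ → 16 * ρ ≤ lam * σ → 1 ≤ 3 * ρ ^ 2 * J →
  (3 + s1 ^ 2 * Real.log (k + 1) + J * Real.log (1 / ρ)) + Real.log (1 / σ) + Real.log k +
    2 * Real.log s + 8 ≤ Real.log U.card / 128 →
  (∀ S ⊆ U, S.card = 32 → 31 ≤ (pal c S).card) → False

/-- PAR (numerical): the parameters for CLS.

Proof.  `lam = Q ^ (-2572)` (that is `1 / Q ^ 2572`), `j = Q ^ 5151`, `σ = exp (-Q ^ 41212)`, `ρ = exp (-Q ^ 41213)`,
`J = ⌈exp (2 Q ^ 41213)⌉`.  `s ≤ 33 Q ^ 4 ≤ Q ^ 5`, so `(1 / s ^ 2) ^ 257 ≥ 1 / Q ^ 2570`; `640 Q ^ 2 ≤ Q ^ 3`;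
`48 √lam = 48 / Q ^ 1286 ≤ 64 / Q`; `2 s1 ^ 2 = 2 Q ^ 5150 ≤ j`; `(1 / s ^ 2) ^ 257 / (2 j ^ 2) ≥ 1 / Q ^ 12873 ≥ exp (-Q ^ 2)`
(`12873 log Q ≤ Q ^ 2`), `7 j ^ 8 + 1 ≤ Q ^ 41209`, so the power is at least `exp (-Q ^ 41211) ≥ σ`;
`16 ρ ≤ lam σ`: `log 16 + 2572 log Q + Q ^ 41212 ≤ Q ^ 41213`; `ρ ^ 2 J ≥ 1`.  Last: `J log (1 / ρ) ≤ 2 exp (2 Q ^ 41213) Q ^ 41213
≤ exp (3 Q ^ 41213) ≤ exp (Q ^ 50000 / 8) ≤ k ^ (1 / 8)`; `s1 ^ 2 log (k + 1) ≤ Q ^ 5150 (log k + 1) ≤ 2 (log k) ^ 2 ≤ k ^ (1 / 8)`, as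
`Q ^ 50000 ≤ log k`; the other terms are smaller; the left side is at most `128 * 4 k ^ (1 / 8) ≤ √k`. -/
def ParStmt : Prop := ∀ (Q s s1 : ℕ), 1024 ≤ Q → s = 32 * Q ^ 4 + 1 → s1 = Q ^ 2575 →
  ∃ (j J : ℕ) (lam ρ σ : ℝ), 640 * (Q : ℝ) ^ 2 ≤ lam * s1 ∧ 0 < lam ∧ lam ≤ 1 / 100 ∧
    lam ≤ (1 / (s : ℝ) ^ 2) ^ 257 / 4 ∧ 48 * √lam ≤ 64 / Q ∧ 2 * s1 ^ 2 ≤ j ∧ 0 < σ ∧ σ ≤ 1 ∧
    σ ≤ ((1 / (s : ℝ) ^ 2) ^ 257 / (2 * (j : ℝ) ^ 2)) ^ (7 * j ^ 8 + 1) ∧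
    0 < ρ ∧ 16 * ρ ≤ lam * σ ∧ 1 ≤ 3 * ρ ^ 2 * J ∧
    ∀ k : ℕ, Real.exp ((Q : ℝ) ^ 50000) ≤ k →
      128 * ((3 + s1 ^ 2 * Real.log (k + 1) + J * Real.log (1 / ρ)) + Real.log (1 / σ) +
        Real.log k + 2 * Real.log s + 8) ≤ √k

/-- MAI (uses STA, RAT, CLS, PAR): the main theorem for one colouring.

Proof.  `s = 32 Q ^ 4 + 1`, `s1 = Q ^ 2575`.  `|pal c U| ≤ k`; `log |U| ≥ θ k ≥ (1024 / Q) exp (Q ^ 50000) ≥ exp (2 Q)`.  STA: `W`.  RAT with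
`β = θ / 8`: `U1 ⊆ W`, `ϑ ≥ θ / 16 ≥ 64 / Q`, `(θ / 8) (log |W|) ^ 2 ≤ 8 (log |U1|) ^ 3`, where
`log |W| ≥ θ k / 8192`: so `(log |U1|) ^ 3 ≥ θ ^ 3 k ^ 2 / (64 * 8192 ^ 2) ≥ k ^ 2 / (4 Q ^ 3) ≥ k ^ (3 / 2)` (`θ ≥ 1024 / Q`,
`√k ≥ 4 Q ^ 3`), `log |U1| ≥ √k`.  CLS for `U1`, `ϑ`, `L = Q ^ 4`, `L1 = Q ^ 2` and the parameters of PAR (`No4`, `Flat` and the condition
for sets of 32 elements are inherited). -/
def MaiStmt : Prop := ∀ (θ : ℝ) (Q : ℕ), 0 < θ → θ ≤ 1 → 1024 / θ ≤ Q →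
  ∀ (k : ℕ), Real.exp ((Q : ℝ) ^ 50000) ≤ k → Real.log (2 * k) ≤ Real.exp Q →
  ∀ (V : Type) [DecidableEq V] (c : V → V → Fin k) (U : Finset V),
  (∀ x y, c x y = c y x) → No4 c U → (∀ S ⊆ U, S.card = 32 → 31 ≤ (pal c S).card) →
  θ * k ≤ Real.log U.card → False

/-- RED (reduction to all sizes).

Proof.  Let `G q W` say that every `q`-subset of `W` has at least `q - 1` colours.  If `G (q + 1) W` and `v ∈ W` then
`G q (nb c W a v)`: for `S` add `v`, the palette of `insert v S` is contained in `insert a (pal S)`.  `W_0 = univ` and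
`W_(i + 1) = nb c W_i a v` for some `v ∈ W_i` and `a` with `|W_(i + 1)| ≥ (|W_i| - 1) / k ≥ |W_i| / (2 k)` (as long as
`|W_i| ≥ 2`); so `G (p - i) W_i`; `U = W_(p - 4)`, it is contained in `W_(p - q)`. -/
def RedStmt : Prop := ∀ (V : Type) [DecidableEq V] [Fintype V] (k : ℕ) (c : V → V → Fin k)
  (p : ℕ), (∀ x y, c x y = c y x) → 4 ≤ p →
  (∀ S : Finset V, S.card = p → p - 1 ≤ (pal c S).card) → 2 * (2 * k) ^ p ≤ Fintype.card V →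
  ∃ U : Finset V, Fintype.card V ≤ (2 * k) ^ p * U.card ∧
    ∀ q, 4 ≤ q → q ≤ p → ∀ S ⊆ U, S.card = q → q - 1 ≤ (pal c S).card

/-- every symmetric `k`-colouring of the pairs from `Fin n` has a set of `p` vertices with at most
`p - 2` colours -/
def Forces (p k n : ℕ) : Prop :=
  ∀ c : Fin n → Fin n → Fin k, (∀ x y, c x y = c y x) →
    ∃ S : Finset (Fin n), S.card = p ∧ (pal c S).card ≤ p - 2

/-- FIN (uses MAI, RED): the theorem.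

Proof.  `e = 1 / 60000`.  `θ = (1 / 2) (log k) ^ (-e)`, `Q = ⌈1024 / θ⌉`; for large `k`: `Q ^ 50000 ≤ log k` and
`log (2 k) ≤ exp Q` (`Q ≥ (log k) ^ e ≥ log (log k + 1)`).  Suppose not `Forces p k n`: a
colouring such that every `p`-set has at least `p - 1` colours.  RED: `U` with `log |U| ≥ log n - p log (2 k) ≥
k / (log k) ^ e - p log (2 k) ≥ θ k`; the property for `q = 4` gives `No4` (three colours on four vertices), the
one for `q = 32` the hypothesis of MAI. -/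
def FinStmt : Prop := ∃ e : ℝ, 0 < e ∧ ∀ p : ℕ, 32 ≤ p → ∃ k₀ : ℕ, ∀ k : ℕ, k₀ ≤ k → ∀ n : ℕ,
  Real.exp (k / (Real.log k) ^ e) ≤ n → Forces p k n

end Pool.Agent.EGF
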