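import Pool.Agent.EGF.Stmts

/-!
# Squad EGF, block P (helper26): power saving, log F(p, k) is at most k ^ (1 - e) for p at least 32

The rows REC PAL DRC DRE MIN MAJ FLT INI STP RAT OWN TYP ENT XSE YSE RND CNT RED of `Stmts.lean` are
used unchanged.  The global regularity REG (whose cost is exponential in the parameters) is replaced by a
LOCAL one, REG2, applied in every round (ITE2), where all costs are polynomial; so `1 / θ` may be a power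
of `k`, and then no bootstrapping is needed (STA2).
New rows: REG2, ITE2, CLS2, STA2, PAR2, MAI2, FIN2 (instead of REG, ITE, CLS, STA, PAR, MAI, FIN).
-/

set_option autoImplicit false

open Finset

namespace Pool.Agent.EGF

/-- REG2 (local regularity with a small additive loss, helper32).

Proof.  `e A' B' = |ex c C A' B'|`, `μ = κ' ρ ^ 2 / 3`.  Among the pairs of nonempty `A' ⊆ A`, `B' ⊆ B` choose one,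
`A1, B1`, with the smallest `Φ = e A' B' / (|A'| |B'|) + μ log (|A| |B| / (|A'| |B'|))` (`Finset.exists_min_image`).
`P = |A1| |B1|`.  `Φ (A1, B1) ≤ Φ (A, B) ≤ κ` and both terms are nonnegative, so `e A1 B1 ≤ κ P` and
`log (|A| |B| / P) ≤ κ / μ = 3 κ / (κ' ρ ^ 2)`; as `|B1| ≤ |B|`, `log |A1| ≥ log |A| - 3 κ / (κ' ρ ^ 2)`, same for `B`.
`Reg`: let `A' ⊆ A1`, `B' ⊆ B1`, `w = |A'| |B'| / P ≥ ρ ^ 2 > 0`.  For each of the three other rectangles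
`X × Y` (`A' × (B1 \ B')`, `(A1 \ A') × B'`, `(A1 \ A') × (B1 \ B')`) with `v = |X| |Y| / P`:
`e X Y ≥ v e A1 B1 - μ P` (trivial if `v = 0`; otherwise `Φ (X, Y) ≥ Φ (A1, B1)` gives
`e X Y / (|X| |Y|) ≥ e A1 B1 / P - μ log (1 / v)` and `log (1 / v) ≤ 1 / v`).  Sum:
`e A1 B1 ≥ e A' B' + (1 - w) e A1 B1 - 3 μ P`, so `e A' B' ≤ w e A1 B1 + 3 μ P ≤ κ |A'| |B'| + κ' ρ ^ 2 P
≤ (κ + κ') |A'| |B'|`. -/
def Reg2Stmt : Prop := ∀ (V : Type) [DecidableEq V] (k : ℕ) (c : V → V → Fin k)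
  (C : Finset (Fin k)) (A B : Finset V) (κ κ' ρ : ℝ), A.Nonempty → B.Nonempty → 0 ≤ κ →
  0 < κ' → 0 < ρ → ((ex c C A B).card : ℝ) ≤ κ * (A.card * B.card) →
  ∃ A1 ⊆ A, ∃ B1 ⊆ B, A1.Nonempty ∧ B1.Nonempty ∧
    Real.log A.card - 3 * κ / (κ' * ρ ^ 2) ≤ Real.log A1.card ∧
    Real.log B.card - 3 * κ / (κ' * ρ ^ 2) ≤ Real.log B1.card ∧
    Reg c C A1 B1 (κ + κ') ρ

/-- ITE2 (uses RND, CNT, REG2): all rounds, with regularity only inside each round.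

Proof.  `η = (1 / s ^ 2) ^ 257`, `κ' = κ / m`, `κ_i = κ + i κ'`, `G = 7 m / ρ ^ 2`.  By recursion on `i ≤ m` construct
`A i, B i` nonempty with `A i, B i ⊆ U`, `|ex (A i) (B i)| ≤ κ_i |A i| |B i|`,
`log |A i|, log |B i| ≥ log |U| - R - i G`, and for `i < m` the data `x i, x' i, y i, y' i, a i, b i, f i` with
`Rnd c C (A i) (B i) (A (i + 1)) (B (i + 1)) ..`.  Step `i < m`: REG2 with `κ_i, κ', ρ` gives `A1 ⊆ A i`, `B1 ⊆ B i`,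
`Reg c C A1 B1 (κ_i + κ') ρ`, `log |A1| ≥ log |A i| - 3 κ_i / (κ' ρ ^ 2) ≥ log |U| - R - i G - 6 m / ρ ^ 2`
(`κ_i / κ' = m + i ≤ 2 m`), same for `B1`.  RND with `A = A1 := A1`, `B = B1 := B1`, `σ = 1`, `lam = 2 κ` (`Reg` is monotone
in `lam`, `κ_i + κ' ≤ κ + m κ' = 2 κ`), `R := R + i G + 6 m / ρ ^ 2 ≤ R + m G`: it gives `A (i + 1) ⊆ A1`, `B (i + 1) ⊆ B1` of
relative size at least `η / (2 |C| ^ 2) ≥ η / (2 j ^ 2) ≥ ρ` and `Rnd c C A1 B1 (A (i + 1)) (B (i + 1)) ..`, which implies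
`Rnd c C (A i) (B i) (A (i + 1)) (B (i + 1)) ..` (`A1 ⊆ A i`, `B1 ⊆ B i`).  By `Reg`,
`|ex (A (i + 1)) (B (i + 1))| ≤ (κ_i + κ') |A (i + 1)| |B (i + 1)|`, and
`log |A (i + 1)| ≥ log |A1| - log (1 / ρ) ≥ log |U| - R - (i + 1) G` (`log (1 / ρ) ≤ 1 / ρ ≤ m / ρ ^ 2`, as `ρ ≤ 1 ≤ m`).
Then CNT (`7 |C| ^ 8 ≤ 7 j ^ 8 < m`) and the last hypothesis. -/
def Ite2Stmt : Prop := ∀ (V : Type) [DecidableEq V] (k : ℕ) (c : V → V → Fin k)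
  (C : Finset (Fin k)) (U A B : Finset V) (s m j : ℕ) (L θ κ ρ R : ℝ),
  (∀ x y, c x y = c y x) → Rec c U θ → 0 < θ → Real.log U.card ≤ 8 * θ * (pal c U).card →
  1 ≤ L → 32 * L + 1 ≤ s → Flat c U s (L * s) → A ⊆ U → B ⊆ U → Disjoint A B →
  A.Nonempty → B.Nonempty →
  Real.log U.card - R ≤ Real.log A.card → Real.log U.card - R ≤ Real.log B.card →
  ((ex c C A B).card : ℝ) ≤ κ * (A.card * B.card) → 0 < κ → κ ≤ 1 / 200 →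
  κ ≤ (1 / (s : ℝ) ^ 2) ^ 257 / 8 → 48 * √(2 * κ) ≤ θ → 0 < ρ → 16 * ρ ≤ κ →
  C.Nonempty → C.card ≤ j → ρ ≤ (1 / (s : ℝ) ^ 2) ^ 257 / (2 * (j : ℝ) ^ 2) → 0 ≤ R →
  7 * j ^ 8 < m →
  R + 7 * (m : ℝ) ^ 2 / ρ ^ 2 + Real.log k + 2 * Real.log s + 8 ≤ Real.log U.card / 128 →
  (∀ S ⊆ U, S.card = 32 → 31 ≤ (pal c S).card) → False

/-- CLS2 (uses OWN, ITE2).

Proof.  OWN for `s1`, `L1` (`16 ≤ |U|` because `log |U| ≥ 1024`): `A, B, C`, `|C| ≤ 2 s1 ^ 2 ≤ j`, exceptional density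
at most `160 L1 / s1 ≤ κ`; `|U| ≤ 16 (k + 1) ^ (s1 ^ 2) |A|`, so `A` is nonempty and `log |U| - R ≤ log |A|` with
`R = 3 + s1 ^ 2 log (k + 1)` (`log 16 ≤ 3`), same for `B`.  `C` is nonempty: otherwise all pairs of `A × B` are
exceptional, `|A| |B| ≤ κ |A| |B|`.  ITE2. -/
def Cls2Stmt : Prop := ∀ (V : Type) [DecidableEq V] (k : ℕ) (c : V → V → Fin k)
  (U : Finset V) (s s1 j m : ℕ) (L L1 θ κ ρ : ℝ),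
  (∀ x y, c x y = c y x) → Rec c U θ → 0 < θ → Real.log U.card ≤ 8 * θ * (pal c U).card →
  1 ≤ L → 32 * L + 1 ≤ s → Flat c U s (L * s) → 0 < L1 → 2 ≤ s1 → Flat c U s1 (L1 * s1) →
  160 * L1 ≤ κ * s1 → 0 < κ → κ ≤ 1 / 200 → κ ≤ (1 / (s : ℝ) ^ 2) ^ 257 / 8 →
  48 * √(2 * κ) ≤ θ → 2 * s1 ^ 2 ≤ j → 0 < ρ → 16 * ρ ≤ κ →
  ρ ≤ (1 / (s : ℝ) ^ 2) ^ 257 / (2 * (j : ℝ) ^ 2) → 7 * j ^ 8 < m →
  (3 + s1 ^ 2 * Real.log (k + 1)) + 7 * (m : ℝ) ^ 2 / ρ ^ 2 + Real.log k + 2 * Real.log s + 8 ≤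
    Real.log U.card / 128 →
  (∀ S ⊆ U, S.card = 32 → 31 ≤ (pal c S).card) → False

/-- STA2 (uses INI, STP): flat sets, when `1 / θ` is polynomial in `Q`.

Proof.  INI with `β = θ`, `γ = ε = 1 / 16`, `s' = s`: `W1`, `Flat c W1 s` with
`(1 + 16 s) log (2 k) / ((15 / 16) θ) ≤ 17 s Q (16 / 15) (Q / 1024) ≤ Q ^ 2 s`, ratio `(7 / 8) (15 / 16) θ ≥ (4 / 5) θ`,
`log |W1| ≥ log |W| / 32`.  STP with `L = Q ^ 2`, `s`, `s' = s1`, `β = (4 / 5) θ`, `γ = ε = 1 / 16`: `W'`, `Flat c W' s1` with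
`(1 + 16 s1) (2 log s) / ((15 / 16) (4 / 5) θ) ≤ 17 s1 (8 / 3) (log s) (Q / 1024) ≤ Q ^ 2 s1` (`log s ≤ log (33 Q ^ 2) ≤ Q`), ratio
`(7 / 8) (15 / 16) (4 / 5) θ ≥ θ / 2`, `log |W'| ≥ log |W1| / 32 ≥ log |W| / 1024`; `Flat c W' s` is inherited from `W1`.
The size conditions: `3 log (2 k) + 8 ≤ log |W| / 256` and `log k + 8 log s + 8 ≤ log |W1| / 256`. -/
def Sta2Stmt : Prop := ∀ (V : Type) [DecidableEq V] (k : ℕ) (c : V → V → Fin k)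
  (θ : ℝ) (Q s s1 : ℕ) (W : Finset V), (∀ x y, c x y = c y x) → No4 c W → 0 < θ → θ ≤ 1 →
  1024 / θ ≤ Q → s = 32 * Q ^ 2 + 1 → 1 ≤ s1 → Real.log (2 * k) ≤ Q →
  W.Nonempty → θ * (pal c W).card ≤ Real.log W.card →
  8192 * (3 * Real.log (2 * k) + 8 * Real.log s + 8) ≤ Real.log W.card →
  ∃ W' ⊆ W, W'.Nonempty ∧ Flat c W' s ((Q : ℝ) ^ 2 * s) ∧ Flat c W' s1 ((Q : ℝ) ^ 2 * s1) ∧
    θ / 2 * (pal c W').card ≤ Real.log W'.card ∧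
    Real.log W.card ≤ 1024 * Real.log W'.card

/-- PAR2 (numerical): the parameters for CLS2.

Proof.  `κ = 1 / Q ^ 1543`, `j = Q ^ 3093`, `m = Q ^ 24745`, `ρ = 1 / Q ^ 7729`.  `s ≤ 33 Q ^ 2 ≤ Q ^ 3`, so
`(1 / s ^ 2) ^ 257 ≥ 1 / Q ^ 1542`.  `160 Q ^ 2 Q ^ 1543 ≤ Q ^ 1546`; `κ ≤ 1 / Q`; `8 κ ≤ 1 / Q ^ 1542`;
`48 √(2 κ) ≤ 48 √(2 / Q ^ 2) = 48 √2 / Q ≤ 256 / Q`; `2 s1 ^ 2 = 2 Q ^ 3092 ≤ j`; `16 ρ ≤ κ`;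
`1 / (Q ^ 1542 * 2 Q ^ 6186) ≥ 1 / Q ^ 7729`; `7 j ^ 8 = 7 Q ^ 24744 < m`.  Last: `s1 ^ 2 log (k + 1) ≤ Q ^ 3092 Q` (`k + 1 ≤ 2 k`, and
`log (k + 1) ≤ Q` also for `k = 0`), `7 m ^ 2 / ρ ^ 2 = 7 Q ^ 64948`, `log k ≤ Q`, `2 log s ≤ 6 log Q ≤ 6 Q`; the sum is at most
`8 Q ^ 64948`, and `128 * 8 = 1024 ≤ Q`. -/
def Par2Stmt : Prop := ∀ (Q s s1 : ℕ), 1024 ≤ Q → s = 32 * Q ^ 2 + 1 → s1 = Q ^ 1546 →
  ∃ (j m : ℕ) (κ ρ : ℝ), 160 * (Q : ℝ) ^ 2 ≤ κ * s1 ∧ 0 < κ ∧ κ ≤ 1 / 200 ∧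
    κ ≤ (1 / (s : ℝ) ^ 2) ^ 257 / 8 ∧ 48 * √(2 * κ) ≤ 256 / Q ∧ 2 * s1 ^ 2 ≤ j ∧ 0 < ρ ∧
    16 * ρ ≤ κ ∧ ρ ≤ (1 / (s : ℝ) ^ 2) ^ 257 / (2 * (j : ℝ) ^ 2) ∧ 7 * j ^ 8 < m ∧
    ∀ k : ℕ, 1 ≤ k → Real.log (2 * k) ≤ Q →
      128 * ((3 + s1 ^ 2 * Real.log (k + 1)) + 7 * (m : ℝ) ^ 2 / ρ ^ 2 + Real.log k +
        2 * Real.log s + 8) ≤ (Q : ℝ) ^ 64949

/-- MAI2 (uses STA2, RAT, CLS2, PAR2): the main theorem for one colouring.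

Proof.  `s = 32 Q ^ 2 + 1`, `s1 = Q ^ 1546`, `k ≥ 1`.  `|pal c U| ≤ k`; `log |U| ≥ θ k ≥ (1024 / Q) Q ^ 100000 = 1024 Q ^ 99999`
(`θ ≥ 1024 / Q`), and `8192 (3 log (2 k) + 8 log s + 8) ≤ 8192 * 12 Q ≤ 1024 Q ^ 99999` (`log s ≤ log (Q ^ 3) ≤ Q`).
STA2: `W`, ratio `θ / 2`, `log |W| ≥ θ k / 1024`.  RAT with `β = θ / 2` (`2 ≤ |W|` as `log |W| > 0`): `U1 ⊆ W`, `ϑ ≥ θ / 4 ≥ 256 / Q`,
`(θ / 2) (log |W|) ^ 2 ≤ 8 (log |U1|) ^ 3`, so `(log |U1|) ^ 3 ≥ θ ^ 3 k ^ 2 / (16 * 1024 ^ 2) ≥ 64 k ^ 2 / Q ^ 3 ≥ Q ^ 199997 ≥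
(Q ^ 64949) ^ 3`, so `log |U1| ≥ Q ^ 64949`.  CLS2 for `U1`, `ϑ`, `L = L1 = Q ^ 2` and the parameters of PAR2 (`Flat` and
the condition for sets of 32 elements are inherited). -/
def Mai2Stmt : Prop := ∀ (θ : ℝ) (Q : ℕ), 0 < θ → θ ≤ 1 → 1024 / θ ≤ Q →
  ∀ (k : ℕ), (Q : ℝ) ^ 100000 ≤ k → Real.log (2 * k) ≤ Q →
  ∀ (V : Type) [DecidableEq V] (c : V → V → Fin k) (U : Finset V),
  (∀ x y, c x y = c y x) → No4 c U → (∀ S ⊆ U, S.card = 32 → 31 ≤ (pal c S).card) →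
  θ * k ≤ Real.log U.card → False

/-- FIN2 (uses MAI2, RED): THE THEOREM.  `log F(p, k) ≤ k ^ (1 - e)` for `p ≥ 32` and `k ≥ k₀ (p)`.

Proof.  `e = 1 / 200000`.  `θ = k ^ (-e) / 2`, `Q = ⌈1024 / θ⌉ = ⌈2048 k ^ e⌉ ≤ 2049 k ^ e`; for large `k`:
`Q ^ 100000 ≤ 2049 ^ 100000 √k ≤ k` and `log (2 k) ≤ k ^ e ≤ Q`.  Suppose not `Forces p k n`: a colouring such that
every `p`-set has at least `p - 1` colours.  RED: `U` with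
`log |U| ≥ log n - p log (2 k) ≥ k ^ (1 - e) - p log (2 k) ≥ θ k` (`2 (2 k) ^ p ≤ n` for large `k`); the property for `q = 4` gives
`No4` (the six edges of four different vertices as in `No4` have at most two colours), the one for `q = 32` the
hypothesis of MAI2. -/
def Fin2Stmt : Prop := ∃ e : ℝ, 0 < e ∧ ∀ p : ℕ, 32 ≤ p → ∃ k₀ : ℕ, ∀ k : ℕ, k₀ ≤ k → ∀ n : ℕ,
  Real.exp ((k : ℝ) ^ (1 - e)) ≤ n → Forces p k n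

end Pool.Agent.EGF
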