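import Pool.Agent.EGF.StmtsP

/-!
# Squad EGF, block Q (helper84): log F(p, k) = o(k) for every p at least 8

Complete proof: note of helper84 of Dec 4, 10:10 (MP_1090a0_co).  Rows: file
`Pool/Agent/HelperNN_EGF/XXX.lean`, `import Pool.Agent.EGF.StmtsQ`, namespace `Pool.Agent.EGF.HNN`, theorem
`xxx (hypotheses = the statements of the column uses) : XxxStmt`.  `N = log |U|` in the docstrings.
-/

set_option autoImplicit false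

open Finset

namespace Pool.Agent.EGF

section Defs

variable {V : Type} [DecidableEq V] {k : ℕ}

/-- the colours at `x` inside `W` -/
def star (c : V → V → Fin k) (W : Finset V) (x : V) : Finset (Fin k) :=
  (W.filter fun z => z ≠ x).image fun z => c x z

/-- the largest number of colours at a vertex of `W` inside `W` -/
def smax (c : V → V → Fin k) (W : Finset V) : ℕ := W.sup fun x => (star c W x).card

/-- record set for the palette and the largest star palette together -/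
def Rec2 (c : V → V → Fin k) (U : Finset V) (θ : ℝ) : Prop :=
  U.Nonempty ∧ ∀ W ⊆ U, W.Nonempty →
    Real.log W.card - θ * ((pal c W).card + smax c W) ≤
      Real.log U.card - θ * ((pal c U).card + smax c U)

/-- no monochromatic triangle -/
def No3 (c : V → V → Fin k) (U : Finset V) : Prop :=
  ∀ x ∈ U, ∀ y ∈ U, ∀ z ∈ U, x ≠ y → x ≠ z → y ≠ z → c x y = c x z → c y z ≠ c x y

/-- the elements of `W` joined to `x` in the colour `a` (no condition `z ≠ x`) -/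
def al (c : V → V → Fin k) (a : Fin k) (W : Finset V) (x : V) : Finset V :=
  W.filter fun z => c x z = a

/-- the colour `a` has density at least `q` in all large sub-rectangles -/
def Rob (c : V → V → Fin k) (a : Fin k) (A B : Finset V) (ρ q : ℝ) : Prop :=
  ∀ A' ⊆ A, ∀ B' ⊆ B, ρ * A.card ≤ (A'.card : ℝ) → ρ * B.card ≤ (B'.card : ℝ) →
    q * (A'.card * B'.card) ≤ (((A' ×ˢ B').filter fun p => c p.1 p.2 = a).card : ℝ)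

/-- one round: `x x'` and `y y'` have the same colour, three of the four cross edges have the colour
`e`, the fourth one has the colour `g` of `C`; `A'` is joined to `x, x'` by `a` and to `y, y'` by `e`,
`B'` to `y, y'` by `b` and to `x, x'` by `e` -/
structure Rn8 (c : V → V → Fin k) (C : Finset (Fin k)) (e : Fin k) (A B A' B' : Finset V)
    (x x' y y' : V) (a b g : Fin k) : Prop where
  hx : x ∈ A
  hx' : x' ∈ A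
  hy : y ∈ B
  hy' : y' ∈ B
  nx : x ≠ x'
  ny : y ≠ y'
  eq : c x x' = c y y'
  f0 : c x y = e
  f1 : c x y' = e
  f2 : c x' y = e
  f3 : c x' y' = g
  gC : g ∈ C
  sA : A' ⊆ A
  sB : B' ⊆ B
  cA : ∀ z ∈ A', z ≠ x ∧ z ≠ x' ∧ c x z = a ∧ c x' z = a ∧ c y z = e ∧ c y' z = e
  cB : ∀ z ∈ B', z ≠ y ∧ z ≠ y' ∧ c y z = b ∧ c y' z = b ∧ c x z = e ∧ c x' z = e

end Defs

/-! ## 1. Constant flatness -/

/-- BOO (uses STP): `D n = r ^ (2 ^ (n + 1))`, so `D (n + 1) = (D n) ^ 2` and `D 0 = r ^ 2`.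

Proof.  Induction on `n`; `n = 0`: `W' = W`.  From `n + 1` to `n`: `y = r ^ (2 ^ n)`, `D n = y ^ 2`, `D (n + 1) = y ^ 4`.  STP with
`L = y ^ 4`, `s = 32 y ^ 4 + 1`, `s' = 32 y ^ 2 + 1`, `ε = γ = 1 / y`, `β = θ (1 / 2 + (1 / 8) (1 - 1 / 2 ^ (n + 1)))`.
(1) Flat: need `(1 + s' y) 2 log s ≤ y ^ 2 s' (1 - 1 / y) β`; the left side is at most `4 s' y log s`, the right side at
least `(3 / 8) θ s' y ^ 2`; `log s ≤ log (33 y ^ 4) ≤ 7 / 2 + 4 log y ≤ 8 √y` (`log y ≤ 2 √y - 2`) and `32 √y ≤ (3 / 8) θ y` as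
`√y ≥ √r ≥ 128 / θ`.  (2) ratio: `(1 - 2 / y) (1 - 1 / y) ≥ 1 - 3 / y`, need `(3 / y) (5 / 8) θ ≤ θ / 2 ^ (n + 4)`: `y ≥ 30 * 2 ^ n`.
(3) size condition of STP: `log |W| / y ^ 2 ≥ y ^ 2 (log k + 40) ≥ log k + 40 y ^ 2` and `8 log s + 8 ≤ 40 y ^ 2`.
(4) `log |W'| ≥ log |W| / (2 y) ≥ (1 / 2) y ^ 3 (log k + 40) ≥ y ^ 2 (log k + 40)`.  By induction `W''` with
`log |W'| ≤ y ^ 2 log |W''|`: `log |W| ≤ 2 y ^ 3 log |W''| ≤ y ^ 4 log |W''|`. -/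
def BooStmt : Prop := ∀ (V : Type) [DecidableEq V] (k : ℕ) (c : V → V → Fin k)
  (θ : ℝ) (r n : ℕ) (W : Finset V), (∀ x y, c x y = c y x) → No4 c W → 0 < θ → θ ≤ 1 →
  (128 / θ) ^ 2 ≤ r → W.Nonempty →
  Flat c W (32 * r ^ (2 ^ (n + 1)) + 1)
    ((r : ℝ) ^ (2 ^ (n + 1)) * ((32 * r ^ (2 ^ (n + 1)) + 1 : ℕ) : ℝ)) →
  θ * (1 / 2 + 1 / 8 * (1 - 1 / 2 ^ n)) * (pal c W).card ≤ Real.log W.card →
  (r : ℝ) ^ (2 ^ (n + 1)) * (Real.log k + 40) ≤ Real.log W.card →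
  ∃ W' ⊆ W, W'.Nonempty ∧ Flat c W' (32 * r ^ 2 + 1) ((r : ℝ) ^ 2 * ((32 * r ^ 2 + 1 : ℕ) : ℝ)) ∧
    θ / 2 * (pal c W').card ≤ Real.log W'.card ∧
    Real.log W.card ≤ (r : ℝ) ^ (2 ^ (n + 1)) * Real.log W'.card

/-- ST0 (uses INI, BOO): from the beginning to constant flatness.

Proof.  `ℓ = 35 log (2 k) / θ`, `D n = r ^ (2 ^ (n + 1))`; let `n` be least with `ℓ ≤ D n`: `D n ≤ r ^ 2 + ℓ ^ 2`.
INI with `β = θ`, `γ = ε = 1 / 16`, `s' = 32 D n + 1`: Flat with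
`(1 + 16 s') log (2 k) (16 / 15) / θ ≤ 17 s' log (2 k) (16 / 15) / θ ≤ ℓ s' ≤ D n s'`; the ratio is
`(7 / 8) (15 / 16) θ ≥ (5 / 8) θ`; `log |W1| ≥ log |W| / 32 ≥ D n (log k + 40)`.  Then BOO. -/
def St0Stmt : Prop := ∀ (V : Type) [DecidableEq V] (k : ℕ) (c : V → V → Fin k)
  (θ : ℝ) (r : ℕ) (W : Finset V), (∀ x y, c x y = c y x) → No4 c W → 0 < θ → θ ≤ 1 →
  (128 / θ) ^ 2 ≤ r → W.Nonempty → θ * (pal c W).card ≤ Real.log W.card →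
  (r ^ 2 + (35 * Real.log (2 * k) / θ) ^ 2) * (32 * (Real.log (2 * k) + 40)) ≤
    Real.log W.card → 256 * (3 * Real.log (2 * k) + 8) ≤ Real.log W.card →
  ∃ W' ⊆ W, W'.Nonempty ∧ Flat c W' (32 * r ^ 2 + 1) ((r : ℝ) ^ 2 * ((32 * r ^ 2 + 1 : ℕ) : ℝ)) ∧
    θ / 2 * (pal c W').card ≤ Real.log W'.card ∧
    Real.log W.card ≤ 32 * (r ^ 2 + (35 * Real.log (2 * k) / θ) ^ 2) * Real.log W'.card

/-- STC (uses ST0, STP): one constant `L`, all set sizes.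

Proof.  `r = ⌈(128 / θ) ^ 2⌉`, `s = 32 r ^ 2 + 1`, `L = 63 log s / θ + 1`.  ST0 (`|pal| ≤ k`, the size conditions hold for large `k`):
`W1`, `Flat c W1 s (r ^ 2 s)`, ratio `θ / 2`, `log |W1| ≥ θ k / (32 (r ^ 2 + ℓ ^ 2))`.  STP with `L := r ^ 2`, `s`, `s' = s0`, `ε = γ = 1 / 8`,
`β = θ / 2`: `W2`, `Flat` with `(1 + 8 s0) (2 log s) (8 / 7) (2 / θ) ≤ 42 s0 log s / θ ≤ L s0`, ratio `(3 / 4) (7 / 8) (θ / 2) = (21 / 64) θ`,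
`log |W2| ≥ log |W1| / 16`, and `Flat c W2 s` is inherited.  STP again with `s' = s1`, `β = (21 / 64) θ`: `W'`, `Flat` with
`(1 + 8 s1) (2 log s) (8 / 7) (64 / 21) / θ ≤ 63 s1 log s / θ ≤ L s1`, ratio `(3 / 4) (7 / 8) (21 / 64) θ ≥ θ / 8`,
`log |W'| ≥ log |W1| / 256 ≥ √k` for large `k`. -/
def StcStmt : Prop := ∀ θ : ℝ, 0 < θ → θ ≤ 1 → ∃ L : ℝ, 1 ≤ L ∧ ∀ s0 s1 : ℕ, 1 ≤ s0 → 1 ≤ s1 →
  ∃ k₀ : ℕ, ∀ k : ℕ, k₀ ≤ k → ∀ (V : Type) [DecidableEq V] (c : V → V → Fin k) (W : Finset V),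
  (∀ x y, c x y = c y x) → No4 c W → θ * k ≤ Real.log W.card →
  ∃ W' ⊆ W, W'.Nonempty ∧ Flat c W' s0 (L * s0) ∧ Flat c W' s1 (L * s1) ∧
    θ / 8 * (pal c W').card ≤ Real.log W'.card ∧ √(k : ℝ) ≤ Real.log W'.card

/-! ## 2. Records with stars -/

/-- RC2.

Proof.  `U` = a nonempty subset of `W` with the largest `Φ (U) = log |U| - (θ / 4) (|pal U| + smax U)`.  `smax ≤ |pal|`, so
`log |U| ≥ Φ (U) ≥ Φ (W) ≥ log |W| - (θ / 2) |pal W| ≥ log |W| / 2`, and `|pal U| ≤ |pal W| ≤ log |W| / θ ≤ (2 / θ) log |U|`. -/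
def Rc2Stmt : Prop := ∀ (V : Type) [DecidableEq V] (k : ℕ) (c : V → V → Fin k) (W : Finset V)
  (θ : ℝ), 0 < θ → W.Nonempty → θ * (pal c W).card ≤ Real.log W.card →
  ∃ U ⊆ W, Rec2 c U (θ / 4) ∧ Real.log W.card ≤ 2 * Real.log U.card ∧
    ((pal c U).card : ℝ) ≤ 2 / θ * Real.log U.card

/-- LOC (uses MAJ): many colours at a vertex.

Proof.  Strong induction on `smax c W`.  If `|W| < 8` then `log |W| ≤ 3`.  Otherwise MAJ gives `x ∈ W` and `a` with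
`|W'| ≥ |W| / s ^ 2`, `W' = nb c W a x`.  For `y ∈ W'` the colour `a` is in `star c W y` (because of `x`) but not in `star c W' y` (`No3`),
so `smax c W' < smax c W`; `Flat` and `No3` are inherited; `log |W| ≤ log |W'| + log (s ^ 2)`. -/
def LocStmt : Prop := ∀ (V : Type) [DecidableEq V] (k : ℕ) (c : V → V → Fin k) (W : Finset V)
  (s : ℕ) (L : ℝ), (∀ x y, c x y = c y x) → No3 c W → Flat c W s (L * s) → 1 ≤ L →
  32 * L + 1 ≤ s → Real.log W.card ≤ smax c W * Real.log ((s : ℝ) ^ 2) + 3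

/-- SHA: a large set `Q` of colours is seen by nearly all vertices, many of its colours.

Proof.  For `Z ⊆ Q` with `|Z| ≤ 2 κ |Q|` let `D Z = {y ∈ U | Q ∩ star c U y = Z}`.  If it is nonempty, `pal c (D Z)` contains no
colour of `Q \ Z`, so `Rec2` (`smax c (D Z) ≤ smax c U`) gives `θ |Q \ Z| ≤ log |U| - log |D Z|`, `|D Z| ≤ |U| exp (-(3 / 4) θ |Q|)`.
The number of these `Z` is at most `exp (3 √κ |Q|) ≤ exp (θ |Q| / 4)` (proof of ENT: with `v = 1 / √κ` it is at most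
`∑ Z ⊆ Q, exp (v (2 κ |Q| - |Z|)) = exp (2 √κ |Q|) (1 + exp (-v)) ^ |Q|`, `exp (-v) ≤ √κ`). -/
def ShaStmt : Prop := ∀ (V : Type) [DecidableEq V] (k : ℕ) (c : V → V → Fin k) (U : Finset V)
  (θ κ : ℝ) (Q : Finset (Fin k)), Rec2 c U θ → 0 < θ → 0 < κ → κ ≤ 1 / 8 → 12 * √κ ≤ θ →
  Q ⊆ pal c U →
  ((U.filter fun y => ((Q ∩ star c U y).card : ℝ) ≤ 2 * κ * Q.card).card : ℝ) ≤
    U.card * Real.exp (-(θ * Q.card / 2))

/-! ## 3. Double sampling -/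

/-- DRF (STRONG): dependent random choice with dense families.

Proof.  For `v : Fin τ → Om` (values in `Om`) let `X v = {x ∈ X0 | ∀ l, v l ∈ N x}`, `S v = |X v|`, `w x = |N x| ^ τ`:
`∑ v, S v = ∑ x, w x ≥ |X0| (r |Om|) ^ τ`.  For a set `F` let `n F v = #{l | v l ∈ F}`; `F` is undersampled by `v` if `n F v < d τ / 4`.
(1) If `|N x ∩ F| ≥ d |Om|` (so `≥ d |N x|`) then the number of `v` with values in `N x` which undersample `F` is at most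
`w x exp (-d τ / 4)`: `∑ v, 2 ^ (- n F v) = (|N x| - |N x ∩ F| / 2) ^ τ ≤ w x exp (-d τ / 2)` over these `v`, and
`2 ^ (d τ / 4) ≤ exp (d τ / 4)`.
(2) So `∑ v, S v [some F i is undersampled] ≤ |FI| exp (-d τ / 4) ∑ S ≤ (1 / 8) ∑ S` and, with `ζ = ξ + exp (-d τ / 4)`,
`∑ v, S v #{j ∈ GJ | G j is undersampled} ≤ ζ |GJ| ∑ S`.
(3) `Bd v` = number of the triples `(x, x', F)`, `x, x' ∈ X v`, `F` a member of one of the families which is not undersampled,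
`|N x ∩ N x' ∩ F| < η |Om|`.  For each triple the number of `v` is at most `2 ^ τ η ^ (d τ / 4) |Om| ^ τ` (choose the set of the
`l` with `v l ∈ F`).  So `|X0| ∑ v, Bd v ≤ |X0| ^ 3 (|FI| + |GJ|) 2 ^ τ η ^ (d τ / 4) |Om| ^ τ ≤ (1 / 8) (r |Om|) ^ τ`.
(4) Some `v` has `S v (1 - [some F i undersampled] - #{undersampled j} / (4 ζ |GJ|)) - |X0| Bd v ≥ (1 / 2) |X0| r ^ τ > 0`
(for `GJ = ∅` omit the third term): then no `F i` is undersampled, at most `4 ζ |GJ|` of the `G j` are, `Bd v = 0` (as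
`S v ≤ |X0|`), `S v ≥ (1 / 2) r ^ τ |X0|`. -/
def DrfStmt : Prop := ∀ (X O I J : Type) [DecidableEq X] [DecidableEq O] [DecidableEq I]
  [DecidableEq J] (X0 : Finset X) (Om : Finset O) (N : X → Finset O) (FI : Finset I)
  (F : I → Finset O) (GJ : Finset J) (G : J → Finset O) (r d ξ η : ℝ) (τ : ℕ),
  X0.Nonempty → Om.Nonempty → 0 < r → 0 < d → d ≤ 1 → 0 ≤ ξ → 0 < η → η ≤ 1 →
  (∀ x ∈ X0, N x ⊆ Om) → (∀ x ∈ X0, r * Om.card ≤ ((N x).card : ℝ)) →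
  (∀ x ∈ X0, ∀ i ∈ FI, d * Om.card ≤ ((N x ∩ F i).card : ℝ)) →
  (∀ x ∈ X0, ((GJ.filter fun j => ((N x ∩ G j).card : ℝ) < d * Om.card).card : ℝ) ≤
    ξ * GJ.card) →
  FI.card * Real.exp (-(d * τ / 4)) ≤ 1 / 8 →
  8 * (X0.card : ℝ) ^ 3 * (FI.card + GJ.card) * 2 ^ τ * η ^ (d * τ / 4) ≤ r ^ τ →
  ∃ X1 ⊆ X0, ∃ J1 ⊆ GJ, X1.Nonempty ∧ 1 / 2 * r ^ τ * X0.card ≤ (X1.card : ℝ) ∧
    ((GJ \ J1).card : ℝ) ≤ 4 * (ξ + Real.exp (-(d * τ / 4))) * GJ.card ∧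
    (∀ x ∈ X1, ∀ x' ∈ X1, ∀ i ∈ FI, η * Om.card ≤ ((N x ∩ N x' ∩ F i).card : ℝ)) ∧
    (∀ x ∈ X1, ∀ x' ∈ X1, ∀ j ∈ J1, η * Om.card ≤ ((N x ∩ N x' ∩ G j).card : ℝ))

/-! ## 4. Classes and regularity -/

/-- OW2 (uses MIN): two large classes, two levels of major colours.

Proof.  As OWN (`Pool/Agent/Helper44_EGF/Own.lean`), with classes by the pair `(M0 x, M1 x)` of the sets of colours of degree at
least `|U| / s0 ^ 2`, `|U| / s1 ^ 2`; at most `(k + 1) ^ (s0 ^ 2 + s1 ^ 2)` classes.  `mi = |mins c U (1 / si ^ 2)| ≤ 8 L N ^ 2 / si`.  If all pairs of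
large classes had more than `(320 L / s0) |A| |B|` pairs outside `C0` or more than `(320 L / s1) |A| |B|` outside `C1` then
`m0 s0 / (320 L) + m1 s1 / (320 L) ≥ (9 / 16) |U1| |U2| ≥ (9 / 16) (7 / 32) N ^ 2 > N ^ 2 / 20`. -/
def Ow2Stmt : Prop := ∀ (V : Type) [DecidableEq V] (k : ℕ) (c : V → V → Fin k) (U : Finset V)
  (s0 s1 : ℕ) (L : ℝ), (∀ x y, c x y = c y x) → Flat c U s0 (L * s0) → Flat c U s1 (L * s1) →
  0 < L → 2 ≤ s0 → 2 ≤ s1 → 16 ≤ U.card →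
  ∃ (A B : Finset V) (C0 C1 : Finset (Fin k)), A ⊆ U ∧ B ⊆ U ∧ Disjoint A B ∧
    C0.card ≤ 2 * s0 ^ 2 ∧ C1.card ≤ 2 * s1 ^ 2 ∧
    (U.card : ℝ) ≤ 16 * ((k : ℝ) + 1) ^ (s0 ^ 2 + s1 ^ 2) * A.card ∧
    (U.card : ℝ) ≤ 16 * ((k : ℝ) + 1) ^ (s0 ^ 2 + s1 ^ 2) * B.card ∧
    ((ex c C0 A B).card : ℝ) ≤ 320 * L / s0 * (A.card * B.card) ∧
    ((ex c C1 A B).card : ℝ) ≤ 320 * L / s1 * (A.card * B.card)

/-- REJ (joint regularity; as REG2, `Pool/Agent/Helper26_EGF/REG2.lean`).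

Proof.  `e A' B' = |ex c C0 A' B'| / κ0 + |ex c C1 A' B'| / κ1 ≤ 2 |A| |B|` for `A, B`, `μ = ρ ^ 2 / 3`.  Minimise
`Φ = e A' B' / (|A'| |B'|) + μ log (|A| |B| / (|A'| |B'|))` over the pairs of nonempty subsets: `A1, B1`.  The logarithm is at most
`2 / μ = 6 / ρ ^ 2`.  For sub-pairs with `w ≥ ρ ^ 2` the three other rectangles give `e A' B' ≤ w e A1 B1 + 3 μ |A1| |B1| ≤ 3 |A'| |B'|`. -/
def RejStmt : Prop := ∀ (V : Type) [DecidableEq V] (k : ℕ) (c : V → V → Fin k)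
  (C0 C1 : Finset (Fin k)) (A B : Finset V) (κ0 κ1 ρ : ℝ), A.Nonempty → B.Nonempty → 0 < κ0 →
  0 < κ1 → 0 < ρ → ((ex c C0 A B).card : ℝ) ≤ κ0 * (A.card * B.card) →
  ((ex c C1 A B).card : ℝ) ≤ κ1 * (A.card * B.card) →
  ∃ A1 ⊆ A, ∃ B1 ⊆ B, A1.Nonempty ∧ B1.Nonempty ∧
    Real.log A.card - 6 / ρ ^ 2 ≤ Real.log A1.card ∧
    Real.log B.card - 6 / ρ ^ 2 ≤ Real.log B1.card ∧
    Reg c C0 A1 B1 (3 * κ0) ρ ∧ Reg c C1 A1 B1 (3 * κ1) ρ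

/-- ROB (uses REG2): one colour of a bounded set is robust in some sub-rectangle.

Proof.  `q = 1 / (4 j)`.  Prove by induction on `n ≤ j`: there is `σ n ∈ (0, 1]` such that for all `A, B` nonempty and `D` with
`|D| = n`, if `|ex c D A' B'| ≤ (1 / 4 + 2 q (j - n)) |A'| |B'|` for all sub-rectangles of relative sizes at least `σ n` (that is
`Reg c D A B (1 / 4 + 2 q (j - n)) (σ n)`), then some `e ∈ D` and `A1, B1` of relative size at least `σ n` have `Rob c e A1 B1 ρ q`.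
`n = 0`, `σ 0 = 1`: `|A| |B| ≤ (3 / 4) |A| |B|` is impossible (if `j = 0` then `q = 0`, `|A| |B| ≤ |A| |B| / 4`).
`n + 1`, `σ (n + 1) = ρ (σ n) exp (-3 / (σ n) ^ 2)`: if some `e ∈ D` has `Rob c e A B ρ q`, done.  Otherwise take any `e ∈ D` and
`A', B'` of relative size at least `ρ` in which `e` has density `< q`.  REG2 for the set `univ.erase e` (`ex` = the pairs of colour `e`),
`κ = κ' = q`, `ρ := σ n`: `A2, B2` with relative size at least `exp (-3 / (σ n) ^ 2)` in `A', B'` (`3 κ / (κ' (σ n) ^ 2)`) and density of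
`e` at most `2 q` in all sub-rectangles of relative size at least `σ n`.  Apply the induction hypothesis to `A2, B2, D.erase e`:
`ex c (D.erase e) = ex c D` + pairs of colour `e`.  Start: `D = C0`, `n = |C0| ≤ j`; take for `σ` the minimum of the `σ n`, `n ≤ j`. -/
def RobStmt : Prop := ∀ (j : ℕ) (ρ : ℝ), 0 < ρ → ρ ≤ 1 → ∃ σ : ℝ, 0 < σ ∧ σ ≤ 1 ∧
  ∀ (V : Type) [DecidableEq V] (k : ℕ) (c : V → V → Fin k) (C0 : Finset (Fin k))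
    (A B : Finset V), C0.card ≤ j → A.Nonempty → B.Nonempty → Reg c C0 A B (1 / 4) σ →
  ∃ e ∈ C0, ∃ A1 ⊆ A, ∃ B1 ⊆ B, A1.Nonempty ∧ B1.Nonempty ∧ σ * A.card ≤ (A1.card : ℝ) ∧
    σ * B.card ≤ (B1.card : ℝ) ∧ Rob c e A1 B1 ρ (1 / (4 * (j : ℝ)))

/-! ## 5. One round

Throughout `A, B ⊆ U` is the current rectangle, `e` the robust colour, `t = 1 / s ^ 2`. -/

/-- SG1 (uses MAJ, ENT; STRONG): typical vertices of `A`.

Proof.  `t = 1 / s ^ 2`.  `A0 = maj c A t`, `B0 = maj c B t`: at least a quarter; choose `a x`, `b y`; `F x = nb c A (a x) x`, `F y = nb c B (b y) y`.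
(1) For `x ∈ A0`: `{y ∈ B | |F x ∩ al c e A y| < q t |A|}` has fewer than `ρ |B|` elements (`Rob` for `F x` and this set: the
number of pairs of colour `e` would be `≥ q |F x| |..|` and `< q t |A| |..|`).  For `y ∈ B0`: `{x ∈ A | |al c e B x ∩ F y| < q t |B|}`
has fewer than `ρ |A|` elements; so all but `√ρ |A|` of the `x ∈ A` are in at most `√ρ |B0|` of these sets.  All `x` but `ρ |A|`
have `|al c e B x| ≥ q |B|`, all but `ρ |A|` have at most `lam |B|` pairs outside `C1` to `B` (`Reg`).  `A1` = the `x ∈ A0` with these three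
properties: `|A1| ≥ |A| / 8`.
(2) `Bi i = B0.filter (i ∈ star c U y)`; for `i ∈ pal c U` with `|Bi i| ≥ δ |B|` all but `ρ |A| ≤ 8 ρ |A1|` of the `x ∈ A` have
`|al c e B x ∩ Bi i| ≥ q |Bi i|`.  ENT (`κ = 8 ρ`, `Γ` = these `i`): `Z0`, `W ⊆ A1`, `log |W| ≥ log |A1| - 3 √(8 ρ) |Γ| - 1`.
(3) `X0` = the `x ∈ W` with the most frequent `a x = a`.  `√ρ |B0| + ρ |B| ≤ 2 √ρ |B0|`. -/
def Sg1Stmt : Prop := ∀ (V : Type) [DecidableEq V] (k : ℕ) (c : V → V → Fin k)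
  (U A B : Finset V) (C1 : Finset (Fin k)) (e : Fin k) (s : ℕ) (L δ q ρ lam : ℝ),
  (∀ x y, c x y = c y x) → 1 ≤ L → 32 * L + 1 ≤ s → Flat c U s (L * s) → A ⊆ U → B ⊆ U →
  8 ≤ A.card → 8 ≤ B.card → 0 < q → 0 < δ → 0 < ρ → ρ ≤ 1 / 1000 → ρ ≤ 1 / (s : ℝ) ^ 2 →
  ρ ≤ δ → 0 ≤ lam → Rob c e A B ρ q → Reg c C1 A B lam ρ →
  ∃ B0 ⊆ B, ∃ b : V → Fin k, ∃ X0 ⊆ A, ∃ a : Fin k, ∃ Z0 ⊆ pal c U,
    X0.Nonempty ∧ (B.card : ℝ) ≤ 4 * B0.card ∧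
    Real.log A.card - 4 - 9 * √ρ * (pal c U).card - Real.log k ≤ Real.log X0.card ∧
    (∀ y ∈ B0, 1 / (s : ℝ) ^ 2 * B.card ≤ ((nb c B (b y) y).card : ℝ)) ∧
    (∀ x ∈ X0, 1 / (s : ℝ) ^ 2 * A.card ≤ ((nb c A a x).card : ℝ)) ∧
    (∀ x ∈ X0, q * B.card ≤ ((al c e B x).card : ℝ)) ∧
    (∀ x ∈ X0, ((B.filter fun y => c x y ∉ C1).card : ℝ) ≤ lam * B.card) ∧
    (Z0.card : ℝ) ≤ 16 * ρ * (pal c U).card ∧
    (∀ i ∈ pal c U \ Z0, δ * B.card ≤ ((B0.filter fun y => i ∈ star c U y).card : ℝ) →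
      ∀ x ∈ X0, q * (δ * B.card) ≤
        ((al c e B x ∩ B0.filter fun y => i ∈ star c U y).card : ℝ)) ∧
    (∀ x ∈ X0, ((B0.filter fun y =>
      ¬ (q * (1 / (s : ℝ) ^ 2) * B.card ≤ ((al c e B x ∩ nb c B (b y) y).card : ℝ) ∧
        q * (1 / (s : ℝ) ^ 2) * A.card ≤ ((nb c A a x ∩ al c e A y).card : ℝ))).card : ℝ) ≤
      2 * √ρ * B0.card)

/-- SG2 (uses DRF): sampling for `X`.

Proof.  DRF with `O = V × V`, `Om = B ×ˢ A`, `N x = al c e B x ×ˢ nb c A a x`, `FI`, `F i = Bi i ×ˢ A`, `GJ = B0`,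
`G y = nb c B (b y) y ×ˢ al c e A y`, `r = q t`: `N x ∩ F i = (al c e B x ∩ Bi i) ×ˢ nb c A a x` has at least `q δ t |B| |A|` elements,
`N x ∩ G y = (al c e B x ∩ nb c B (b y) y) ×ˢ (nb c A a x ∩ al c e A y)` at least `(q t) ^ 2 |B| |A|` for all but `ξ |B0|` of the `y`. -/
def Sg2Stmt : Prop := ∀ (V : Type) [DecidableEq V] (k : ℕ) (c : V → V → Fin k)
  (A B B0 X0 : Finset V) (e a : Fin k) (b : V → Fin k) (Bi : Fin k → Finset V)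
  (FI : Finset (Fin k)) (t q δ ξ d η : ℝ) (τ : ℕ), A.Nonempty → B.Nonempty → X0.Nonempty →
  B0 ⊆ B → 0 < t → t ≤ 1 → 0 < q → q ≤ 1 → 0 < δ → 0 ≤ ξ → 0 < d → d ≤ 1 → 0 < η → η ≤ 1 →
  d ≤ q * δ * t → d ≤ (q * t) ^ 2 →
  (∀ x ∈ X0, t * A.card ≤ ((nb c A a x).card : ℝ)) →
  (∀ x ∈ X0, q * B.card ≤ ((al c e B x).card : ℝ)) →
  (∀ i ∈ FI, ∀ x ∈ X0, q * (δ * B.card) ≤ ((al c e B x ∩ Bi i).card : ℝ)) →
  (∀ x ∈ X0, ((B0.filter fun y =>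
      ¬ (q * t * B.card ≤ ((al c e B x ∩ nb c B (b y) y).card : ℝ) ∧
        q * t * A.card ≤ ((nb c A a x ∩ al c e A y).card : ℝ))).card : ℝ) ≤ ξ * B0.card) →
  FI.card * Real.exp (-(d * τ / 4)) ≤ 1 / 8 →
  8 * (X0.card : ℝ) ^ 3 * (FI.card + B0.card) * 2 ^ τ * η ^ (d * τ / 4) ≤ (q * t) ^ τ →
  ∃ X ⊆ X0, ∃ B1 ⊆ B0, X.Nonempty ∧
    Real.log X0.card - τ * Real.log (1 / (q * t)) - 1 ≤ Real.log X.card ∧
    ((B0 \ B1).card : ℝ) ≤ 4 * (ξ + Real.exp (-(d * τ / 4))) * B0.card ∧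
    (∀ x ∈ X, ∀ x' ∈ X, ∀ i ∈ FI,
      η * B.card ≤ ((al c e B x ∩ al c e B x' ∩ Bi i).card : ℝ)) ∧
    (∀ x ∈ X, ∀ x' ∈ X, ∀ y ∈ B1, η * (B.card * A.card) ≤
      ((al c e B x ∩ al c e B x' ∩ nb c B (b y) y).card : ℝ) *
        ((nb c A a x ∩ nb c A a x' ∩ al c e A y).card : ℝ))

/-- SG3 (uses SHA): the star centre `x0` and the family of colours.

Proof.  `x0 ∈ X` with `|star c X x0| = smax c X`; `Rec2` for `X`: `smax c X ≥ smax c U - (log |U| - log |X|) / θ ≥ smax c U / 2`.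
`Q = star c X x0`.  SHA: at most `|U| exp (-θ |Q| / 2) ≤ |B0| / 2` vertices `y` see at most `2 κ |Q|` colours of `Q`, so
`∑ i ∈ Q, |Bi i| = ∑ y ∈ B0, |Q ∩ star c U y| ≥ κ |Q| |B0|`, `Bi i = B0.filter (i ∈ star c U y)`; at least `(κ / 2) |Q|` of the `i ∈ Q` have
`|Bi i| ≥ (κ / 2) |B0| ≥ (κ / 8) |B| ≥ δ |B|`.  Remove `Z0`: at least `κ smax c U / 4 - κ smax c U / 8` remain.  For `i ∈ Γ` choose
`x' i ∈ X`, `x' i ≠ x0`, `c x0 (x' i) = i`. -/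
def Sg3Stmt : Prop := ∀ (V : Type) [DecidableEq V] (k : ℕ) (c : V → V → Fin k)
  (U X B B0 : Finset V) (Z0 : Finset (Fin k)) (θ κ δ : ℝ), Rec2 c U θ → 0 < θ → 0 < κ →
  κ ≤ 1 / 8 → 12 * √κ ≤ θ → 8 * δ ≤ κ → X ⊆ U → X.Nonempty → B0 ⊆ U →
  (B.card : ℝ) ≤ 4 * B0.card → Real.log U.card - Real.log X.card ≤ θ * smax c U / 2 →
  2 * U.card * Real.exp (-(θ * smax c U / 4)) ≤ B0.card → (Z0.card : ℝ) ≤ κ * smax c U / 8 →
  ∃ x0 ∈ X, ∃ Γ ⊆ pal c U, ∃ x' : Fin k → V, Disjoint Γ Z0 ∧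
    κ * smax c U / 8 ≤ (Γ.card : ℝ) ∧ ∀ i ∈ Γ, x' i ∈ X ∧ x' i ≠ x0 ∧ c x0 (x' i) = i ∧
      δ * B.card ≤ ((B0.filter fun y => i ∈ star c U y).card : ℝ)

/-- SG4 (uses ENT): vertices `y` with few exceptions.

Proof.  `T i = {y ∈ B1 | c x0 y = e, c (x' i) y = e, y ∈ Bi i}` has at least `η |B| - (η / 2) |B0| ≥ (η / 2) |B|` elements, so
`W0` = the `y ∈ B1` which are in at least `(η / 4) |Γ|` of the `T i` has at least `(η / 4) |B|` elements (`c x0 y = e` for these, as `Γ` is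
nonempty).  ENT for `W0`, `Γ`, `S i = {y | c (x' i) y ∈ C1}`, `κ = 4 lam / η`. -/
def Sg4Stmt : Prop := ∀ (V : Type) [DecidableEq V] (k : ℕ) (c : V → V → Fin k)
  (B B0 B1 : Finset V) (Bi : Fin k → Finset V) (x0 : V) (x' : Fin k → V) (e : Fin k)
  (C1 Γ : Finset (Fin k)) (η lam : ℝ), B.Nonempty → B0 ⊆ B → B1 ⊆ B0 → (∀ i, Bi i ⊆ B0) →
  0 < η → η ≤ 1 → 0 < lam → Γ.Nonempty → ((B0 \ B1).card : ℝ) ≤ η / 2 * B0.card →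
  (∀ i ∈ Γ, η * B.card ≤ ((al c e B x0 ∩ al c e B (x' i) ∩ Bi i).card : ℝ)) →
  (∀ i ∈ Γ, ((B.filter fun y => c (x' i) y ∉ C1).card : ℝ) ≤ lam * B.card) →
  ∃ W ⊆ B1, ∃ Z ⊆ Γ, W.Nonempty ∧ (Z.card : ℝ) ≤ 8 * lam / η * Γ.card ∧
    Real.log B.card - Real.log (4 / η) - 6 * √(lam / η) * Γ.card - 1 ≤ Real.log W.card ∧
    (∀ y ∈ W, c x0 y = e) ∧ (∀ y ∈ W, ∀ i ∈ Γ \ Z, c (x' i) y ∈ C1) ∧
    (∀ y ∈ W, η / 4 * Γ.card ≤ ((Γ.filter fun i => y ∈ Bi i ∧ c (x' i) y = e).card : ℝ))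

/-- SG5 (uses DRF): sampling for `Y`.

Proof.  `Wb` = the `y ∈ W` with the most frequent `bf y = b`, `|Wb| ≥ |W| / k`.  DRF with `X0 = Wb`, `Om = B ×ˢ A`, `N y = nb c B b y ×ˢ al c e A y`,
`FI = Γ`, `F i = (al c e B x0 ∩ al c e B (x' i)) ×ˢ (nb c A a x0 ∩ nb c A a (x' i))`, `GJ = ∅`, `d = η`, `r = t η`, `η := η'`:
`|N y ∩ F i| ≥ η |Om|` is the hypothesis; it also gives `|al c e A y| ≥ η |A|` (`Γ` nonempty). -/
def Sg5Stmt : Prop := ∀ (V : Type) [DecidableEq V] (k : ℕ) (c : V → V → Fin k)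
  (A B W : Finset V) (x0 : V) (x' : Fin k → V) (e a : Fin k) (bf : V → Fin k)
  (Γ : Finset (Fin k)) (t η η' : ℝ) (τ : ℕ), A.Nonempty → B.Nonempty → W.Nonempty →
  Γ.Nonempty → 0 < t → t ≤ 1 → 0 < η → η ≤ 1 → 0 < η' → η' ≤ 1 →
  (∀ y ∈ W, t * B.card ≤ ((nb c B (bf y) y).card : ℝ)) →
  (∀ y ∈ W, ∀ i ∈ Γ, η * (B.card * A.card) ≤
      ((al c e B x0 ∩ al c e B (x' i) ∩ nb c B (bf y) y).card : ℝ) *
        ((nb c A a x0 ∩ nb c A a (x' i) ∩ al c e A y).card : ℝ)) →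
  Γ.card * Real.exp (-(η * τ / 4)) ≤ 1 / 8 →
  8 * (W.card : ℝ) ^ 3 * Γ.card * 2 ^ τ * η' ^ (η * τ / 4) ≤ (t * η) ^ τ →
  ∃ b : Fin k, ∃ Y ⊆ W, Y.Nonempty ∧
    Real.log W.card - Real.log k - τ * Real.log (1 / (t * η)) - 1 ≤ Real.log Y.card ∧
    ∀ y ∈ Y, ∀ y' ∈ Y, ∀ i ∈ Γ, η' * (B.card * A.card) ≤
      ((nb c B b y ∩ nb c B b y' ∩ (al c e B x0 ∩ al c e B (x' i))).card : ℝ) *
        ((al c e A y ∩ al c e A y' ∩ (nb c A a x0 ∩ nb c A a (x' i))).card : ℝ)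

/-- SG6: the final choice.

Proof.  `y ∈ Y` with `|star c Y y| = smax c Y ≥ smax c U - (log |U| - log |Y|) / θ`; `star c Y y ⊆ star c U y`, `|star c U y| ≤ smax c U`, so
fewer than `(η / 8) |Γ|` colours of `star c U y` are not in `star c Y y`.  Of the `(η / 4) |Γ|` colours of the last hypothesis
one is in `star c Y y` and not in `Z`. -/
def Sg6Stmt : Prop := ∀ (V : Type) [DecidableEq V] (k : ℕ) (c : V → V → Fin k)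
  (U Y : Finset V) (Γ Z : Finset (Fin k)) (x' : Fin k → V) (e : Fin k) (θ η : ℝ),
  Rec2 c U θ → 0 < θ → Y ⊆ U → Y.Nonempty →
  Real.log U.card - Real.log Y.card < θ * (η / 8 * Γ.card) → (Z.card : ℝ) ≤ η / 8 * Γ.card →
  (∀ y ∈ Y, η / 4 * Γ.card ≤ ((Γ.filter fun i => i ∈ star c U y ∧ c (x' i) y = e).card : ℝ)) →
  ∃ i ∈ Γ \ Z, ∃ y ∈ Y, ∃ y' ∈ Y, y ≠ y' ∧ c y y' = i ∧ c (x' i) y = e

/-- RN8 (uses SG1, SG2, SG3, SG4, SG5, SG6; STRONG, numerical): one round with constants.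

Proof.  `t = 1 / s ^ 2`, `q = 1 / (4 j)`, `κ = (θ / 12) ^ 2`, `δ = κ / 8`, `d = min (q δ t) ((q t) ^ 2)`, `ℓ = log (1 / (q t))`; `ε2 = θ cR / (16 ℓ)`,
`τ = ⌊ε2 N⌋ + 1`; `η0 = exp (-(4 / d) (6 / ε2 + 1 + ℓ))` is the `η` of SG2; `ρ = min (t, δ, 10 ^ (-3), (η0 / 100) ^ 2, (θ cR / (200 R)) ^ 2,
κ cR / (200 R))`; `lam = η0 (θ η0 / 1000) ^ 2`; `c1 = κ cR / 8`; `ℓ' = log (1 / (t η0))`, `ε3 = θ η0 c1 / (200 ℓ')`, `τ' = ⌊ε3 N⌋ + 1`,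
`η = exp (-(4 / η0) (6 / ε3 + 1 + ℓ'))` (the `η'` of SG5), `ν` small, `N0` large.
SG1; SG2 with `Bi i = B0.filter (i ∈ star c U y)`, `FI` = the `i ∈ pal c U \ Z0` with `δ |B| ≤ |Bi i|`, `ξ = 2 √ρ`, `η0`: `|X0|, |B0| ≤ |U| = exp N`,
`|FI| ≤ k ≤ exp N`, and `8 exp (3 N) (k + exp N) 2 ^ τ η0 ^ (d τ / 4) ≤ exp (6 N + τ) exp (- τ (6 / ε2 + 1 + ℓ)) ≤ (q t) ^ τ` as `N ≤ τ / ε2`;
`4 (2 √ρ + exp (-d τ / 4)) ≤ η0 / 2`.  SG3: `log |U| - log |X| ≤ ν N + 4 + 9 √ρ R N + ν N + τ ℓ + 1 ≤ θ cR N / 2 ≤ θ smax c U / 2`;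
`|Γ| ≥ κ cR N / 8 = c1 N > 0`, `Γ ⊆ FI`.  SG4 (`Bi`, `lam`): `8 lam / η0 ≤ η0 / 8`.  SG5 (`η := η0`).  SG6 (`η := η0`):
`log |U| - log |Y| ≤ ν N + log (4 / η0) + 6 √(lam / η0) |Γ| + 1 + ν N + τ' ℓ' + 1 < θ (η0 / 8) |Γ|`.
With `x = x0`, `x' = x' i`: `A' = al c e A y ∩ al c e A y' ∩ nb c A a x ∩ nb c A a x'`, `B' = nb c B b y ∩ nb c B b y' ∩ al c e B x ∩ al c e B x'`;
`|B'| |A'| ≥ η |B| |A|` gives both bounds. -/
def Rn8Stmt : Prop := ∀ (θ cR R : ℝ) (s j : ℕ), 0 < θ → θ ≤ 1 → 0 < cR → cR ≤ 1 → 1 ≤ R →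
  2 ≤ s → 1 ≤ j → ∃ ρ lam η ν N0 : ℝ, 0 < ρ ∧ ρ ≤ 1 ∧ 0 < lam ∧ lam ≤ 1 ∧ 0 < η ∧ η ≤ 1 ∧
  0 < ν ∧ ν ≤ 1 ∧ 1 ≤ N0 ∧
  ∀ (V : Type) [DecidableEq V] (k : ℕ) (c : V → V → Fin k) (U A B : Finset V)
    (C1 : Finset (Fin k)) (e : Fin k) (L : ℝ), (∀ x y, c x y = c y x) → Rec2 c U θ →
  ((pal c U).card : ℝ) ≤ R * Real.log U.card → cR * Real.log U.card ≤ smax c U → 1 ≤ L →
  32 * L + 1 ≤ s → Flat c U s (L * s) → A ⊆ U → B ⊆ U → Disjoint A B →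
  (1 - ν) * Real.log U.card ≤ Real.log A.card → (1 - ν) * Real.log U.card ≤ Real.log B.card →
  Real.log k ≤ ν * Real.log U.card → N0 ≤ Real.log U.card →
  Rob c e A B ρ (1 / (4 * (j : ℝ))) → Reg c C1 A B lam ρ →
  ∃ (A' B' : Finset V) (x x' y y' : V) (a b g : Fin k),
    Rn8 c C1 e A B A' B' x x' y y' a b g ∧ η * A.card ≤ (A'.card : ℝ) ∧
    η * B.card ≤ (B'.card : ℝ)

/-! ## 6. Assembly -/

/-- CN8 (the count).

Proof.  `Q = {x, x', y, y', w, w', z, z'}`: eight different vertices (`w, w' ∈ A'`, `z, z' ∈ B'`, `A, B` disjoint).  The colours are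
`c x x'`, `c w w'`, `a`, `b`, `e`, `g`. -/
def Cn8Stmt : Prop := ∀ (V : Type) [DecidableEq V] (k : ℕ) (c : V → V → Fin k)
  (C1 : Finset (Fin k)) (A B A' B' A1 B1 A2 B2 : Finset V) (x x' y y' w w' z z' : V)
  (e a b a1 b1 g : Fin k), (∀ x y, c x y = c y x) → Disjoint A B →
  Rn8 c C1 e A B A' B' x x' y y' a b g → A1 ⊆ A' → B1 ⊆ B' →
  Rn8 c C1 e A1 B1 A2 B2 w w' z z' a1 b1 g →
  ∃ Q : Finset V, Q ⊆ A ∪ B ∧ Q.card = 8 ∧ (pal c Q).card ≤ 6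

/-- IT8 (uses RN8, CN8): all rounds.

Proof.  `ρ, lam, η, ν, N0` from RN8 (called `ρ1, ..`), `lam` = `lam1`; for `j1` let `m = j1 + 1`, `ρ = ρ1 η ^ m`, `ν = ν1 / 2`,
`N0` with `m log (1 / η) ≤ (ν1 / 2) N0` and `N0 ≥ N1`.  `A 0 = A, B 0 = B`, and `A (i + 1), B (i + 1)` from RN8 for `A i, B i`:
`|A i| ≥ η ^ i |A|`, so `Rob` and `Reg` for `A i, B i` at the scale `ρ1` follow from those for `A, B` at the scale `ρ`.  Two of the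
`m > |C1|` colours `g` are equal; CN8. -/
def It8Stmt : Prop := ∀ (θ cR R : ℝ) (s j : ℕ), 0 < θ → θ ≤ 1 → 0 < cR → cR ≤ 1 → 1 ≤ R →
  2 ≤ s → 1 ≤ j → ∃ lam : ℝ, 0 < lam ∧ lam ≤ 1 ∧ ∀ j1 : ℕ, ∃ ρ ν N0 : ℝ, 0 < ρ ∧ ρ ≤ 1 ∧
  0 < ν ∧ ν ≤ 1 ∧ 1 ≤ N0 ∧
  ∀ (V : Type) [DecidableEq V] (k : ℕ) (c : V → V → Fin k) (U A B : Finset V)
    (C1 : Finset (Fin k)) (e : Fin k) (L : ℝ), (∀ x y, c x y = c y x) → Rec2 c U θ →
  ((pal c U).card : ℝ) ≤ R * Real.log U.card → cR * Real.log U.card ≤ smax c U → 1 ≤ L →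
  32 * L + 1 ≤ s → Flat c U s (L * s) → A ⊆ U → B ⊆ U → Disjoint A B →
  (1 - ν) * Real.log U.card ≤ Real.log A.card → (1 - ν) * Real.log U.card ≤ Real.log B.card →
  Real.log k ≤ ν * Real.log U.card → N0 ≤ Real.log U.card → C1.card ≤ j1 →
  Rob c e A B ρ (1 / (4 * (j : ℝ))) → Reg c C1 A B lam ρ →
  ∃ Q : Finset V, Q ⊆ U ∧ Q.card = 8 ∧ (pal c Q).card ≤ 6

/-- CL8 (uses RC2, LOC, OW2, REJ, ROB, IT8; STRONG, numerical): everything after the flat set.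

Proof.  `s0 = ⌈4000 L⌉ + 33` (so `32 L + 1 ≤ s0`, `3 * 320 L / s0 ≤ 1 / 4`), `θ' = θ / 4`, `R = 2 / θ`, `cR = 1 / (4 log s0)`, `j = 2 s0 ^ 2`.  IT8:
`lam`.  `s1 = ⌈960 L / lam⌉ + 2`, `j1 = 2 s1 ^ 2`: `ρ, ν, N0`.  ROB for `j, ρ`: `σ`; `ρa = σ ρ`.  Now `k` large, `W`: RC2: `U`,
`N = log |U| ≥ √k / 2`.  LOC: `N ≤ smax c U * 2 log s0 + 3`, so `smax c U ≥ cR N` (`N ≥ 6`).  OW2: `A, B, C0, C1`.  REJ with
`κ0 = 320 L / s0 ≤ 1 / 12`, `κ1 = 320 L / s1 ≤ lam / 3`, `ρa`: `A1, B1` (`Reg` is monotone in the density).  ROB: `e ∈ C0`, `A2, B2` (`Reg c C0 A1 B1 (1 / 4) σ`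
as `ρa ≤ σ`); `Reg c C1 A2 B2 lam ρ` from `ρa = σ ρ`.  `log |A2| ≥ N - 3 - (s0 ^ 2 + s1 ^ 2) log (k + 1) - 6 / ρa ^ 2 - log (1 / σ) ≥
(1 - ν) N` for large `k`.  IT8: `Q` with 8 elements and at most 6 colours. -/
def Cl8Stmt : Prop := ∀ (θ L : ℝ), 0 < θ → θ ≤ 1 → 1 ≤ L → ∃ s0 s1 : ℕ, 1 ≤ s0 ∧ 1 ≤ s1 ∧
  ∃ k₀ : ℕ, ∀ k : ℕ, k₀ ≤ k → ∀ (V : Type) [DecidableEq V] (c : V → V → Fin k) (W : Finset V),
  (∀ x y, c x y = c y x) → No3 c W → (∀ S ⊆ W, S.card = 8 → 7 ≤ (pal c S).card) →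
  Flat c W s0 (L * s0) → Flat c W s1 (L * s1) → θ * (pal c W).card ≤ Real.log W.card →
  √(k : ℝ) ≤ Real.log W.card → W.Nonempty → False

/-- MA8 (uses STC, CL8).

Proof.  STC for `θ`: `L`.  CL8 for `θ / 8`, `L`: `s0, s1, k₀`; STC for `s0, s1`. -/
def Ma8Stmt : Prop := ∀ θ : ℝ, 0 < θ → θ ≤ 1 → ∃ k₀ : ℕ, ∀ k : ℕ, k₀ ≤ k →
  ∀ (V : Type) [DecidableEq V] (c : V → V → Fin k) (W : Finset V), (∀ x y, c x y = c y x) →
  No3 c W → No4 c W → (∀ S ⊆ W, S.card = 8 → 7 ≤ (pal c S).card) →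
  θ * k ≤ Real.log W.card → False

/-- RD3 (as RED, `Pool/Agent/Helper92_EGF/RED.lean`, with `q ≥ 3`).

Proof.  `W_0 = univ`, `W_(i + 1) = nb c W_i a v`, `|W_(i + 1)| ≥ |W_i| / (2 k)`; `U = W_(p - 3)`. -/
def Rd3Stmt : Prop := ∀ (V : Type) [DecidableEq V] [Fintype V] (k : ℕ) (c : V → V → Fin k)
  (p : ℕ), (∀ x y, c x y = c y x) → 4 ≤ p →
  (∀ S : Finset V, S.card = p → p - 1 ≤ (pal c S).card) → 2 * (2 * k) ^ p ≤ Fintype.card V →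
  ∃ U : Finset V, Fintype.card V ≤ (2 * k) ^ p * U.card ∧
    ∀ q, 3 ≤ q → q ≤ p → ∀ S ⊆ U, S.card = q → q - 1 ≤ (pal c S).card

/-- FN8 (uses MA8, RD3): THE THEOREM: `log F(p, k) ≤ ε k` for all `p ≥ 8`, `ε > 0`, `k ≥ k₀ (p, ε)`.

Proof.  `θ = min (ε / 2) 1`.  Suppose not `Forces p k n`: RD3 (`2 (2 k) ^ p ≤ n` for large `k`): `U` with
`log |U| ≥ log n - p log (2 k) ≥ ε k - p log (2 k) ≥ θ k`; `q = 3` gives `No3`, `q = 4` gives `No4`, `q = 8` the condition on 8 vertices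
(see `Pool/Agent/Helper23_EGF/FIN2.lean`). -/
def Fn8Stmt : Prop := ∀ p : ℕ, 8 ≤ p → ∀ ε : ℝ, 0 < ε → ∃ k₀ : ℕ, ∀ k : ℕ, k₀ ≤ k → ∀ n : ℕ,
  Real.exp (ε * k) ≤ n → Forces p k n

end Pool.Agent.EGF
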