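import Pool.Agent.EGF.StmtsQ

/-!
# Squad EGF, block R (helper84): log F(p, k) = o(k) for every p at least 7

Complete proof: note of helper84 of Dec 4, 11:00 (MP_1090a0_co).  Rows: file
`Pool/Agent/HelperNN_EGF/XXX.lean`, `import Pool.Agent.EGF.StmtsR`, namespace `Pool.Agent.EGF.HNN`, theorem
`xxx (hypotheses = the statements of the column uses) : XxxStmt`.  `N = log |U|` in the docstrings.
The rows STC RC2 SHA DRF OW2 RD3 ENT MAJ of the earlier blocks are used unchanged.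

Idea: `A` is a large set, `y 0, y 1, ..` a CHAIN of linear length: `c (y l) (y i) = b l` for `l < i`.  One round:
`x, x'` in `A` with `c x x' = b l`, `c x (y l) = e`, `c x' (y l) = g`; all later vertices of `A` are joined to `x, x'` by one
colour `a` and to `y l` by `e`, all later `y i` to `x, x'` by `e`.  Two rounds with the same `g` and one later `y i`: seven
vertices with the five colours `b l, b l', a, e, g`.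
-/

set_option autoImplicit false

open Finset

namespace Pool.Agent.EGF

section Defs

variable {V : Type} [DecidableEq V] {k : ℕ}

/-- good pairs: `c x (y l) = e` and the colour `b l` is seen by `x` in `U` -/
def Gd (c : V → V → Fin k) (U : Finset V) (e : Fin k) (y : ℕ → V) (b : ℕ → Fin k)
    (A : Finset V) (L : Finset ℕ) : Finset (V × ℕ) :=
  (A ×ˢ L).filter fun p => c p.1 (y p.2) = e ∧ b p.2 ∈ star c U p.1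

/-- bad pairs: the colour of `x` and `y l` is not in `C` -/
def Bp (c : V → V → Fin k) (C : Finset (Fin k)) (y : ℕ → V) (A : Finset V) (L : Finset ℕ) :
    Finset (V × ℕ) :=
  (A ×ˢ L).filter fun p => c p.1 (y p.2) ∉ C

/-- many good pairs and few bad pairs in all large sub-rectangles of `A × L` -/
def Rg7 (c : V → V → Fin k) (U : Finset V) (C : Finset (Fin k)) (e : Fin k) (y : ℕ → V)
    (b : ℕ → Fin k) (A : Finset V) (L : Finset ℕ) (ρ ω lam : ℝ) : Prop :=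
  ∀ A' ⊆ A, ∀ L' ⊆ L, ρ * A.card ≤ (A'.card : ℝ) → ρ * L.card ≤ (L'.card : ℝ) →
    ω * (A'.card * L'.card) ≤ ((Gd c U e y b A' L').card : ℝ) ∧
      ((Bp c C y A' L').card : ℝ) ≤ lam * (A'.card * L'.card)

/-- the same for a rectangle of vertices: many pairs of colour `e`, few pairs outside `C` -/
def Rg6 (c : V → V → Fin k) (C : Finset (Fin k)) (e : Fin k) (A B : Finset V)
    (ρ q lam : ℝ) : Prop :=
  ∀ A' ⊆ A, ∀ B' ⊆ B, ρ * A.card ≤ (A'.card : ℝ) → ρ * B.card ≤ (B'.card : ℝ) →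
    q * (A'.card * B'.card) ≤ (((A' ×ˢ B').filter fun p => c p.1 p.2 = e).card : ℝ) ∧
      ((ex c C A' B').card : ℝ) ≤ lam * (A'.card * B'.card)

/-- a chain: `y l` is joined to all later `y i` in the colour `b l`, and the `b l` are different -/
def Chn (c : V → V → Fin k) (y : ℕ → V) (b : ℕ → Fin k) (L : Finset ℕ) : Prop :=
  (∀ l ∈ L, ∀ i ∈ L, l < i → y l ≠ y i ∧ c (y l) (y i) = b l) ∧
    ∀ l ∈ L, ∀ i ∈ L, b l = b i → l = i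

/-- one round -/
structure Rn7 (c : V → V → Fin k) (C : Finset (Fin k)) (e : Fin k) (y : ℕ → V) (b : ℕ → Fin k)
    (A : Finset V) (L : Finset ℕ) (A' : Finset V) (L' : Finset ℕ) (x x' : V) (a g : Fin k)
    (l : ℕ) : Prop where
  hx : x ∈ A
  hx' : x' ∈ A
  hl : l ∈ L
  nx : x ≠ x'
  eq : c x x' = b l
  f0 : c x (y l) = e
  f1 : c x' (y l) = g
  gC : g ∈ C
  sA : A' ⊆ A
  sL : L' ⊆ L
  cA : ∀ z ∈ A', z ≠ x ∧ z ≠ x' ∧ c x z = a ∧ c x' z = a ∧ c (y l) z = e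
  cL : ∀ i ∈ L', l < i ∧ c x (y i) = e ∧ c x' (y i) = e

end Defs

/-! ## 1. General lemmas -/

/-- HRG (regularity; like `Pool/Agent/Helper26_EGF/REG2.lean`): many pairs of `G` and few pairs of `H` in all
large sub-rectangles.  The loss on the side `B` does NOT depend on `ρ`.

Proof.  `K = ω / (4 lam)`, `h (A', B') = (|G ∩ (A' × B')| - K |H ∩ (A' × B')|) / (|A'| |B'|)`, so `h (A, B) ≥ 3 ω / 4`; `h ≤ 1`,
`ω ≤ 1`.  `μA = ω ρ ^ 2 / 16`, `μB = ω / 16`.  Let `A1, B1` maximise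
`Ψ (A', B') = h (A', B') - μA log (|A| / |A'|) - μB log (|B| / |B'|)` over the pairs of nonempty subsets (`Finset.exists_max_image`).
`Ψ (A1, B1) ≥ 3 ω / 4`, `h ≤ 1`: `log (|A| / |A1|) ≤ 1 / μA`, `log (|B| / |B1|) ≤ 1 / μB`.  `h1 = h (A1, B1) ≥ 3 ω / 4 > 0`.
Let `A' ⊆ A1`, `B' ⊆ B1`, `α = |A'| / |A1| ≥ ρ`, `β = |B'| / |B1| ≥ ρ`.
(1) `h (A', B1) ≥ h1 - μA`: `h1 = α h (A', B1) + (1 - α) h (A1 \ A', B1)`, and if `α < 1` then `Ψ (A1 \ A', B1) ≤ Ψ (A1, B1)` gives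
`h (A1 \ A', B1) ≤ h1 + μA log (1 / (1 - α))`, `(1 - α) log (1 / (1 - α)) ≤ α`.
(2) `h (A', B1) = β h (A', B') + (1 - β) h (A', B1 \ B')`, and if `β < 1` then `Ψ (A', B1 \ B') ≤ Ψ (A1, B1)` gives
`h (A', B1 \ B') ≤ h1 + μA log (1 / α) + μB log (1 / (1 - β))`.  So `β h (A', B') ≥ h1 - μA - (1 - β) h1 - μA log (1 / α) - μB β`,
`h (A', B') ≥ h1 - μB - μA (1 + log (1 / α)) / β ≥ 3 ω / 4 - ω / 16 - ω / 16 ≥ ω / 2`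
(`1 + log (1 / α) ≤ 1 / α ≤ 1 / ρ`, so `μA (1 + log (1 / α)) / β ≤ μA / ρ ^ 2 = ω / 16`).
(3) So `|G ∩ (A' × B')| ≥ h |A'| |B'| ≥ (ω / 2) |A'| |B'|`, and `K |H ∩ (A' × B')| ≤ |G ∩ (A' × B')| ≤ |A'| |B'|`. -/
def HrgStmt : Prop := ∀ (X Y : Type) [DecidableEq X] [DecidableEq Y] (A : Finset X)
  (B : Finset Y) (G H : Finset (X × Y)) (ω lam ρ : ℝ), A.Nonempty → B.Nonempty → 0 < ω →
  0 < lam → 0 < ρ → ρ ≤ 1 →
  ω * (A.card * B.card) ≤ (((A ×ˢ B) ∩ G).card : ℝ) →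
  (((A ×ˢ B) ∩ H).card : ℝ) ≤ lam * (A.card * B.card) →
  ∃ A1 ⊆ A, ∃ B1 ⊆ B, A1.Nonempty ∧ B1.Nonempty ∧
    Real.log A.card - 16 / (ω * ρ ^ 2) ≤ Real.log A1.card ∧
    Real.log B.card - 16 / ω ≤ Real.log B1.card ∧
    ∀ A' ⊆ A1, ∀ B' ⊆ B1, ρ * A1.card ≤ (A'.card : ℝ) → ρ * B1.card ≤ (B'.card : ℝ) →
      ω / 2 * (A'.card * B'.card) ≤ (((A' ×ˢ B') ∩ G).card : ℝ) ∧
      (((A' ×ˢ B') ∩ H).card : ℝ) ≤ 4 * lam / ω * (A'.card * B'.card)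

/-- CHN (uses MAJ): chains.

Proof.  Induction on `m` for all `W`.  `log |W| ≥ 3`, so `|W| ≥ 8` (in particular `k > 0` and `V` is nonempty; `m = 0` is trivial).
`m + 1`: MAJ gives `x ∈ W`, `a` with `|W'| ≥ |W| / s ^ 2`, `W' = nb c W a x`, `log |W'| ≥ 3 + m log (s ^ 2)`.  `a ∈ pal c W` (`W'` is
nonempty), `a ∉ pal c W'` (`No3`).  Induction hypothesis for `W'`: `y', b'`; take `y 0 = x`, `b 0 = a`, `y (l + 1) = y' l`,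
`b (l + 1) = b' l ∈ pal c W' ⊆ pal c W`. -/
def ChnStmt : Prop := ∀ (V : Type) [DecidableEq V] (k : ℕ) (c : V → V → Fin k) (W : Finset V)
  (s m : ℕ) (L : ℝ), (∀ x y, c x y = c y x) → No3 c W → Flat c W s (L * s) → 1 ≤ L →
  32 * L + 1 ≤ s → 3 + m * Real.log ((s : ℝ) ^ 2) ≤ Real.log W.card →
  ∃ (y : ℕ → V) (b : ℕ → Fin k), (∀ l < m, y l ∈ W ∧ b l ∈ pal c W) ∧ Chn c y b (range m)

/-! ## 2. The rectangle and the chain -/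

/-- PAA (uses OW2, HRG): a large regular rectangle.

Proof.  OW2: `A, B, C0, C1`.  At least half of the pairs of `A × B` have a colour in `C0` (`320 L / s0 ≤ 1 / 2`), `|C0| ≤ 2 s0 ^ 2`: some
`e ∈ C0` is the colour of at least `ω |A| |B|` pairs, `ω = 1 / (4 s0 ^ 2)`.  HRG with `G` = the pairs of colour `e`, `H = ex c C1 A B`,
`lam = 320 L / s1`: `16 / (ω ρ ^ 2) = 64 s0 ^ 2 / ρ ^ 2`, `16 / ω ≤ 64 s0 ^ 2 / ρ ^ 2`, `ω / 2 = 1 / (8 s0 ^ 2)`, `4 lam / ω = 5120 s0 ^ 2 L / s1`;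
`log 16 ≤ 3`. -/
def PaaStmt : Prop := ∀ (V : Type) [DecidableEq V] (k : ℕ) (c : V → V → Fin k) (U : Finset V)
  (s0 s1 : ℕ) (L ρ : ℝ), (∀ x y, c x y = c y x) → Flat c U s0 (L * s0) →
  Flat c U s1 (L * s1) → 0 < L → 640 * L ≤ s0 → 2 ≤ s0 → 2 ≤ s1 → 16 ≤ U.card → 0 < ρ →
  ρ ≤ 1 →
  ∃ (A B : Finset V) (C1 : Finset (Fin k)) (e : Fin k), A ⊆ U ∧ B ⊆ U ∧ Disjoint A B ∧
    A.Nonempty ∧ B.Nonempty ∧ C1.card ≤ 2 * s1 ^ 2 ∧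
    Real.log U.card - (3 + ((s0 ^ 2 + s1 ^ 2 : ℕ) : ℝ) * Real.log (k + 1) +
      64 * s0 ^ 2 / ρ ^ 2) ≤ Real.log A.card ∧
    Real.log U.card - (3 + ((s0 ^ 2 + s1 ^ 2 : ℕ) : ℝ) * Real.log (k + 1) +
      64 * s0 ^ 2 / ρ ^ 2) ≤ Real.log B.card ∧
    Rg6 c C1 e A B ρ (1 / (8 * s0 ^ 2)) (5120 * s0 ^ 2 * L / s1)

/-- PBB (uses ENT): typical vertices of `B`.

Proof.  `A_i = {x ∈ A | i ∈ star c U x}`.  `B1` = the `y ∈ B` with at most `lam |A|` of the `x ∈ A` with `c x y ∉ C1`: all but `ρ |B|`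
(otherwise `Rg6` for `A` and the other `y`), so `|B1| ≥ |B| / 2`.  `Γ` = the `i ∈ pal c U` with `|A_i| ≥ δ |A|`;
`S_i` = the `y` with at least `q |A_i|` neighbours of colour `e` in `A_i`: `|B \ S_i| ≤ ρ |B| ≤ 2 ρ |B1|` (`Rg6` for `A_i` and `B \ S_i`).
ENT for `B1`, `Γ`, `κ = 2 ρ`: `|Z0| ≤ 4 ρ |Γ|`, `log |B2| ≥ log |B| - 1 - 3 √(2 ρ) |Γ| - 1`, `3 √2 ≤ 5`. -/
def PbbStmt : Prop := ∀ (V : Type) [DecidableEq V] (k : ℕ) (c : V → V → Fin k)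
  (U A B : Finset V) (C1 : Finset (Fin k)) (e : Fin k) (ρ q lam δ : ℝ),
  A.Nonempty → B.Nonempty → 0 < ρ → ρ ≤ 1 / 4 → ρ ≤ δ → 0 < q → 0 ≤ lam →
  Rg6 c C1 e A B ρ q lam →
  ∃ B2 ⊆ B, ∃ Z0 ⊆ pal c U, B2.Nonempty ∧ (Z0.card : ℝ) ≤ 4 * ρ * (pal c U).card ∧
    Real.log B.card - 2 - 5 * √ρ * (pal c U).card ≤ Real.log B2.card ∧
    (∀ y ∈ B2, ((A.filter fun x => c x y ∉ C1).card : ℝ) ≤ lam * A.card) ∧
    ∀ i ∈ pal c U \ Z0, δ * A.card ≤ ((A.filter fun x => i ∈ star c U x).card : ℝ) →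
      ∀ y ∈ B2, q * (δ * A.card) ≤
        ((A.filter fun x => c x y = e ∧ i ∈ star c U x).card : ℝ)

/-- PDD (uses SHA): the density of the good pairs.

Proof.  `Q = {b l | l < m} \ Z0`, `|Q| ≥ m / 2`, `A_i = {x ∈ A | i ∈ star c U x}`.  SHA: at most `|U| exp (-θ |Q| / 2) ≤ |A| / 2` vertices `x`
have `|Q ∩ star c U x| ≤ 2 κ |Q|`, so `∑ i ∈ Q, |A_i| = ∑ x ∈ A, |Q ∩ star c U x| ≥ κ |Q| |A|`; at least `(κ / 2) |Q|` of the `i ∈ Q` have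
`|A_i| ≥ (κ / 2) |A|`.  For these `i = b l` the last hypothesis gives `q (κ / 2) |A|` good pairs `(x, l)`.  Total:
`(κ / 2) (m / 2) q (κ / 2) |A| = κ ^ 2 q / 8 * (|A| m)`. -/
def PddStmt : Prop := ∀ (V : Type) [DecidableEq V] (k : ℕ) (c : V → V → Fin k)
  (U A : Finset V) (Z0 : Finset (Fin k)) (e : Fin k) (y : ℕ → V) (b : ℕ → Fin k) (m : ℕ)
  (θ κ q : ℝ), Rec2 c U θ → 0 < θ → 0 < κ → κ ≤ 1 / 8 → 12 * √κ ≤ θ → 0 < q → A ⊆ U →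
  (∀ l < m, b l ∈ pal c U) → (∀ l < m, ∀ i < m, b l = b i → l = i) → 2 * Z0.card ≤ m →
  2 * U.card * Real.exp (-(θ * m / 4)) ≤ A.card →
  (∀ l < m, b l ∉ Z0 → κ / 2 * A.card ≤ ((A.filter fun x => b l ∈ star c U x).card : ℝ) →
    q * (κ / 2 * A.card) ≤
      ((A.filter fun x => c x (y l) = e ∧ b l ∈ star c U x).card : ℝ)) →
  κ ^ 2 * q / 8 * (A.card * m) ≤ ((Gd c U e y b A (range m)).card : ℝ)

/-! ## 3. One round -/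

/-- RAA (uses MAJ; STRONG): typical vertices of `A`.

Proof.  `Lo` = the `⌊|L| / 2⌋` smallest elements of `L`, `Up` the others (`|L| ≥ 2`).  `t = 1 / s ^ 2`.  `A0 = maj c A t`, `|A| ≤ 4 |A0|` (MAJ);
choose `a x` with `|nb c A (a x) x| ≥ t |A|`.  By `Rg7` (with `L' = Lo` or `Up`, `3 ρ ≤ 1`) for all but `3 ρ |A|` of the `x ∈ A`:
at least `ω |Lo|` good `l ∈ Lo`, at least `ω |Up|` good `i ∈ Up`, at most `lam |Lo|` of the `l ∈ Lo` with `c x (y l) ∉ C` (otherwise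
the set `A'` of the exceptional `x` contradicts `Rg7`).  `A1` = the `x ∈ A0` with these properties, `|A1| ≥ |A| / 4 - 3 ρ |A| ≥ |A| / 8`.
For `x ∈ A0`, `D = nb c A (a x) x` the set `L'` of the `l ∈ Lo` with `|D ∩ al c e A (y l)| < ω t |A| ≤ ω |D|` has fewer than
`ρ |L| ≤ 3 ρ |Lo|` elements: otherwise `Rg7` for `D, L'` gives at least `ω |D| |L'|` good pairs, but a good pair `(z, l)` has
`c (y l) z = e`.  `X0` = the `x ∈ A1` with the most frequent `a x`; `log 8 ≤ 3`. -/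
def RaaStmt : Prop := ∀ (V : Type) [DecidableEq V] (k : ℕ) (c : V → V → Fin k)
  (U A : Finset V) (L : Finset ℕ) (C : Finset (Fin k)) (e : Fin k) (y : ℕ → V) (b : ℕ → Fin k)
  (s : ℕ) (Lc ρ ω lam : ℝ), (∀ x y, c x y = c y x) → 1 ≤ Lc → 32 * Lc + 1 ≤ s →
  Flat c U s (Lc * s) → A ⊆ U → 8 ≤ A.card → 2 ≤ L.card → 0 < ω → 0 < ρ → 24 * ρ ≤ 1 →
  ρ ≤ 1 / (s : ℝ) ^ 2 → Rg7 c U C e y b A L ρ ω lam →
  ∃ Lo ⊆ L, ∃ Up ⊆ L, ∃ X0 ⊆ A, ∃ a : Fin k, (∀ l ∈ Lo, ∀ i ∈ Up, l < i) ∧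
    L.card ≤ 3 * Lo.card ∧ L.card ≤ 3 * Up.card ∧ X0.Nonempty ∧
    Real.log A.card - 3 - Real.log k ≤ Real.log X0.card ∧
    (∀ x ∈ X0, 1 / (s : ℝ) ^ 2 * A.card ≤ ((nb c A a x).card : ℝ)) ∧
    (∀ x ∈ X0, ω * Lo.card ≤
      ((Lo.filter fun l => c x (y l) = e ∧ b l ∈ star c U x).card : ℝ)) ∧
    (∀ x ∈ X0, ω * Up.card ≤ ((Up.filter fun i => c x (y i) = e).card : ℝ)) ∧
    (∀ x ∈ X0, ((Lo.filter fun l => c x (y l) ∉ C).card : ℝ) ≤ lam * Lo.card) ∧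
    (∀ x ∈ X0, ((Lo.filter fun l => ¬ (ω * (1 / (s : ℝ) ^ 2) * A.card ≤
      ((nb c A a x ∩ al c e A (y l)).card : ℝ))).card : ℝ) ≤ 3 * ρ * Lo.card)

/-- RBB (uses ENT): only colours of `C`.

Proof.  `S_l = {x | c x (y l) ∈ C}`.  `∑ l ∈ Lo, |X0 \ S_l| ≤ lam ^ 2 |Lo| |X0|`, so `Γ = {l ∈ Lo | |X0 \ S_l| ≤ lam |X0|}` has
`|Lo \ Γ| ≤ lam |Lo|`.  ENT with `κ = lam`: `Z1 ⊆ Γ`, `W`; `Z = Z1 ∪ (Lo \ Γ)`. -/
def RbbStmt : Prop := ∀ (V : Type) [DecidableEq V] (k : ℕ) (c : V → V → Fin k) (X0 : Finset V)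
  (Lo : Finset ℕ) (C : Finset (Fin k)) (y : ℕ → V) (lam : ℝ), X0.Nonempty → 0 < lam →
  (∀ x ∈ X0, ((Lo.filter fun l => c x (y l) ∉ C).card : ℝ) ≤ lam ^ 2 * Lo.card) →
  ∃ W ⊆ X0, ∃ Z ⊆ Lo, W.Nonempty ∧ (Z.card : ℝ) ≤ 3 * lam * Lo.card ∧
    (∀ x ∈ W, ∀ l ∈ Lo \ Z, c x (y l) ∈ C) ∧
    Real.log X0.card - 3 * √lam * Lo.card - 1 ≤ Real.log W.card

/-- RCC (uses DRF): sampling.

Proof.  DRF with `X0 = W`, `O = V × ℕ`, `Om = A ×ˢ Up`, `N x = nb c A a x ×ˢ Up.filter (c x (y i) = e)`, `FI = ∅`, `GJ = Lo`,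
`G l = al c e A (y l) ×ˢ Up`, `r = ω t`, `d = ω ^ 2 t`: `N x ∩ G l = (nb c A a x ∩ al c e A (y l)) ×ˢ Up.filter ..` has at least
`ω t |A| * ω |Up|` elements for all but `ξ |Lo|` of the `l`. -/
def RccStmt : Prop := ∀ (V : Type) [DecidableEq V] (k : ℕ) (c : V → V → Fin k)
  (A W : Finset V) (Lo Up : Finset ℕ) (e a : Fin k) (y : ℕ → V) (t ω ξ η : ℝ) (τ : ℕ),
  A.Nonempty → Up.Nonempty → W.Nonempty → 0 < t → t ≤ 1 → 0 < ω → ω ≤ 1 → 0 ≤ ξ → 0 < η →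
  η ≤ 1 → (∀ x ∈ W, t * A.card ≤ ((nb c A a x).card : ℝ)) →
  (∀ x ∈ W, ω * Up.card ≤ ((Up.filter fun i => c x (y i) = e).card : ℝ)) →
  (∀ x ∈ W, ((Lo.filter fun l => ¬ (ω * t * A.card ≤
      ((nb c A a x ∩ al c e A (y l)).card : ℝ))).card : ℝ) ≤ ξ * Lo.card) →
  8 * (W.card : ℝ) ^ 3 * Lo.card * 2 ^ τ * η ^ (ω ^ 2 * t * τ / 4) ≤ (ω * t) ^ τ →
  ∃ X ⊆ W, ∃ J ⊆ Lo, X.Nonempty ∧
    Real.log W.card - τ * Real.log (1 / (ω * t)) - 1 ≤ Real.log X.card ∧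
    ((Lo \ J).card : ℝ) ≤ 4 * (ξ + Real.exp (-(ω ^ 2 * t * τ / 4))) * Lo.card ∧
    ∀ x ∈ X, ∀ x' ∈ X, ∀ l ∈ J, η * (A.card * Up.card) ≤
      ((nb c A a x ∩ nb c A a x' ∩ al c e A (y l)).card : ℝ) *
        ((Up.filter fun i => c x (y i) = e ∧ c x' (y i) = e).card : ℝ)

/-- RDD: the final choice.

Proof.  `x ∈ X` with `|star c X x| = smax c X ≥ smax c U - (log |U| - log |X|) / θ`; `star c X x ⊆ star c U x`, `|star c U x| ≤ smax c U`, so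
fewer than `(ω / 8) |Lo|` colours of `star c U x` are not in `star c X x`, and the `b l`, `l ∈ Lo`, are different.  Of the `ω |Lo|`
good `l ∈ Lo` one has `b l ∈ star c X x`, `l ∈ J`, `l ∉ Z` (`3 / 8 < 1`; `Lo` is nonempty because `log |X| ≤ log |U|`). -/
def RddStmt : Prop := ∀ (V : Type) [DecidableEq V] (k : ℕ) (c : V → V → Fin k)
  (U X : Finset V) (Lo J Z : Finset ℕ) (C : Finset (Fin k)) (e : Fin k) (y : ℕ → V)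
  (b : ℕ → Fin k) (θ ω : ℝ), Rec2 c U θ → 0 < θ → X ⊆ U → X.Nonempty → 0 < ω →
  (∀ l ∈ Lo, ∀ i ∈ Lo, b l = b i → l = i) →
  Real.log U.card - Real.log X.card < θ * (ω / 8 * Lo.card) →
  (Z.card : ℝ) ≤ ω / 8 * Lo.card → ((Lo \ J).card : ℝ) ≤ ω / 8 * Lo.card →
  (∀ x ∈ X, ω * Lo.card ≤ ((Lo.filter fun l => c x (y l) = e ∧ b l ∈ star c U x).card : ℝ)) →
  (∀ x ∈ X, ∀ l ∈ Lo \ Z, c x (y l) ∈ C) →
  ∃ l ∈ Lo, l ∈ J ∧ ∃ x ∈ X, ∃ x' ∈ X, x ≠ x' ∧ c x x' = b l ∧ c x (y l) = e ∧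
    c x' (y l) ∈ C

/-- RN7 (uses RAA, RBB, RCC, RDD; STRONG, numerical): one round with constants.  `lam` does not depend on `δ`.

Proof.  `t = 1 / s ^ 2`, `lamE = (θ ω / 1000) ^ 2`, `lam = lamE ^ 2`.  Given `δ`: `ℓ = log (1 / (ω t))`, `ε2 = θ ω δ / (100 ℓ)`, `d = ω ^ 2 t`,
`τ = ⌊ε2 N⌋ + 1`, `η' = exp (-(4 / d) (6 / ε2 + 1 + ℓ))`, `η = η' / 3`, `ν = θ ω δ / 200`, `ρ = min (ω / 1000, t, 1 / 24)`, `N0` large.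
RAA: `Lo, Up, X0, a`; `|Lo| ≥ |L| / 3 ≥ δ N / 3`.  RBB with `lamE`: `W, Z`, `|Z| ≤ 3 lamE |Lo| ≤ (ω / 8) |Lo|`.  RCC with `ξ = 3 ρ`,
`η'`: `|W| ≤ |U| = exp N`, `|Lo| ≤ k ≤ exp N` (`b` is injective on `L`), so
`8 exp (4 N) 2 ^ τ η' ^ (d τ / 4) ≤ exp (6 N + τ) exp (-τ (6 / ε2 + 1 + ℓ)) ≤ (ω t) ^ τ` as `N ≤ τ / ε2`;
`4 (3 ρ + exp (-d τ / 4)) ≤ ω / 8`.  RDD: `log |U| - log |X| ≤ ν N + 3 + ν N + 3 √lamE |Lo| + 1 + τ ℓ + 1 <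
θ (ω / 8) |Lo|` (`3 √lamE = 3 θ ω / 1000`, `τ ℓ ≤ θ ω δ N / 100 + ℓ`, `δ N ≤ 3 |Lo|`).
`A' = nb c A a x ∩ nb c A a x' ∩ al c e A (y l)`, `L' = Up.filter (c x (y i) = e ∧ c x' (y i) = e)`; the product in RCC gives
`|A'| ≥ η' |A|`, `|L'| ≥ η' |Up| ≥ (η' / 3) |L|`. -/
def Rn7Stmt : Prop := ∀ (θ ω : ℝ) (s : ℕ), 0 < θ → θ ≤ 1 → 0 < ω → ω ≤ 1 → 2 ≤ s →
  ∃ lam : ℝ, 0 < lam ∧ lam ≤ 1 ∧ ∀ δ : ℝ, 0 < δ → δ ≤ 1 → ∃ ρ η ν N0 : ℝ, 0 < ρ ∧ ρ ≤ 1 ∧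
  0 < η ∧ η ≤ 1 ∧ 0 < ν ∧ ν ≤ 1 ∧ 1 ≤ N0 ∧
  ∀ (V : Type) [DecidableEq V] (k : ℕ) (c : V → V → Fin k) (U A : Finset V) (L : Finset ℕ)
    (C : Finset (Fin k)) (e : Fin k) (y : ℕ → V) (b : ℕ → Fin k) (Lc : ℝ),
  (∀ x y, c x y = c y x) → Rec2 c U θ → 1 ≤ Lc → 32 * Lc + 1 ≤ s → Flat c U s (Lc * s) →
  A ⊆ U → (1 - ν) * Real.log U.card ≤ Real.log A.card → Real.log k ≤ ν * Real.log U.card →
  N0 ≤ Real.log U.card → δ * Real.log U.card ≤ L.card →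
  (∀ l ∈ L, ∀ i ∈ L, b l = b i → l = i) → Rg7 c U C e y b A L ρ ω lam →
  ∃ (A' : Finset V) (L' : Finset ℕ) (x x' : V) (a g : Fin k) (l : ℕ),
    Rn7 c C e y b A L A' L' x x' a g l ∧ η * A.card ≤ (A'.card : ℝ) ∧
    η * L.card ≤ (L'.card : ℝ)

/-! ## 4. Assembly -/

/-- CN7 (the count).

Proof.  `Q = {x, x', w, w', y l, y l2, y i}`, `l < l2 < i`: `x, x', w, w'` are different elements of `W` (`cA`), the three others are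
different and not in `W`.  Colours: `c x x' = b l`, `c w w' = b l2`; `x, x'` to `w, w'`: `a`; `y l` to `y l2, y i`: `b l`; `y l2` to `y i`: `b l2`;
`x (y l) = e`, `x' (y l) = g`, `w, w'` to `y l`: `e`; `x, x'` to `y l2, y i`: `e`; `w (y l2) = e`, `w' (y l2) = g`; `w, w'` to `y i`: `e`. -/
def Cn7Stmt : Prop := ∀ (V : Type) [DecidableEq V] (k : ℕ) (c : V → V → Fin k)
  (C : Finset (Fin k)) (U W A0 A A' : Finset V) (M L0 L L' : Finset ℕ) (x x' w w' : V)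
  (e a a2 g : Fin k) (l l2 i : ℕ) (y : ℕ → V) (b : ℕ → Fin k), (∀ x y, c x y = c y x) →
  W ⊆ U → (∀ l ∈ M, y l ∈ U ∧ y l ∉ W) → Chn c y b M → A0 ⊆ W → L0 ⊆ M →
  Rn7 c C e y b A0 L0 A L x x' a g l → Rn7 c C e y b A L A' L' w w' a2 g l2 → i ∈ L' →
  ∃ Q : Finset V, Q ⊆ U ∧ Q.card = 7 ∧ (pal c Q).card ≤ 5

/-- IT7 (uses RN7, CN7): all rounds.

Proof.  `lam` from RN7.  By induction on `m ≤ j1` prove for all `δ`: there are `ρ, ν, N0` such that for all data as below with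
in addition `W, M` (`A ⊆ W`, `L ⊆ M`, `W, M` as in CN7) and a set `D ⊆ C` with `|C \ D| ≤ m` such that for every `g ∈ D` there is a
round `Rn7 c C e y b A0 L0 A L x x' a g l` with `A0 ⊆ W`, `L0 ⊆ M`: the set `Q` exists.  RN7 for `δ`: `ρ1, η1, ν1, N1` and a round
with `g ∈ C` into `A', L'` (`L'` is nonempty because `η1 |L| > 0`).  If `g ∈ D`: CN7.  This is always the case if `m = 0`.
Otherwise add `g` to `D`; all rounds for `D` are also rounds into `A', L'`; induction hypothesis for `m - 1`,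
`η1 δ`: `ρ2, ν2, N2`.  So `ρ = min (ρ1, η1 ρ2)`, `ν = min (ν1, ν2 / 2)`, `N0 ≥ N1, N2` with `log (1 / η1) ≤ (ν2 / 2) N0`.
Start: `D = ∅`, `W = A`, `M = L`. -/
def It7Stmt : Prop := ∀ (θ ω : ℝ) (s : ℕ), 0 < θ → θ ≤ 1 → 0 < ω → ω ≤ 1 → 2 ≤ s →
  ∃ lam : ℝ, 0 < lam ∧ lam ≤ 1 ∧ ∀ (δ : ℝ) (j1 : ℕ), 0 < δ → δ ≤ 1 → ∃ ρ ν N0 : ℝ, 0 < ρ ∧
  ρ ≤ 1 ∧ 0 < ν ∧ ν ≤ 1 ∧ 1 ≤ N0 ∧
  ∀ (V : Type) [DecidableEq V] (k : ℕ) (c : V → V → Fin k) (U A : Finset V) (L : Finset ℕ)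
    (C : Finset (Fin k)) (e : Fin k) (y : ℕ → V) (b : ℕ → Fin k) (Lc : ℝ),
  (∀ x y, c x y = c y x) → Rec2 c U θ → 1 ≤ Lc → 32 * Lc + 1 ≤ s → Flat c U s (Lc * s) →
  A ⊆ U → (1 - ν) * Real.log U.card ≤ Real.log A.card → Real.log k ≤ ν * Real.log U.card →
  N0 ≤ Real.log U.card → δ * Real.log U.card ≤ L.card → C.card ≤ j1 →
  (∀ l ∈ L, y l ∈ U ∧ y l ∉ A) → Chn c y b L → Rg7 c U C e y b A L ρ ω lam →
  ∃ Q : Finset V, Q ⊆ U ∧ Q.card = 7 ∧ (pal c Q).card ≤ 5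

/-- CL7 (uses RC2, PAA, PBB, CHN, PDD, HRG, IT7; STRONG, numerical): everything after the flat set.

Proof.  `s0 = ⌈4000 L⌉ + 33` (so `32 L + 1 ≤ s0`, `640 L ≤ s0`), `θ' = θ / 4`, `R = 2 / θ`, `κ = (θ' / 12) ^ 2` (so `12 √κ = θ'`),
`q = 1 / (8 s0 ^ 2)`, `ω = κ ^ 2 q / 8`.  IT7 for `θ', ω / 2, s0`: `lam`.  `s1 ≥ 2` with `4 * (5120 s0 ^ 2 L / s1) / ω ≤ lam`;
`δm = 1 / (16 log s0)`, `δ = exp (-16 / ω) δm`, `j1 = 2 s1 ^ 2`.  IT7: `ρ, ν, N0`.  `ρ0` with `ρ0 ≤ 1 / 4`, `ρ0 ≤ κ / 2`,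
`5 √ρ0 R ≤ 1 / 8`, `8 ρ0 R ≤ δm`.  Now `k` large and `W`: RC2: `U`, `Rec2 c U θ'`, `N = log |U| ≥ √k / 2`, `|pal c U| ≤ R N`.
PAA with `ρ0`: `A1, B1, C1, e`, `log |A1|, log |B1| ≥ N - o(N)`.  PBB with `ρ0, q, lam1 = 5120 s0 ^ 2 L / s1, δ = κ / 2`: `B2, Z0`,
`log |B2| ≥ N - o(N) - 2 - N / 8 ≥ N / 2 + 3`.  CHN for `B2` with `m = ⌊N / (4 log s0)⌋ ≥ δm N`: `y, b`.
`2 |Z0| ≤ 8 ρ0 R N ≤ δm N ≤ m`.  PDD for `A1` (`2 |U| exp (-θ' m / 4) ≤ |A1|` as `log |A1| ≥ N - o(N)`): good pairs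
`≥ ω |A1| m`; bad pairs `≤ lam1 |A1| m` (`y l ∈ B2`).  HRG for `A1, range m`, `G = Gd c U e y b A1 (range m)`,
`H = Bp c C1 y A1 (range m)`, `ω, lam1, ρ`: `A2, L2`, `Rg7 c U C1 e y b A2 L2 ρ (ω / 2) lam` (`4 lam1 / ω ≤ lam`),
`|L2| ≥ exp (-16 / ω) m ≥ δ N`, `log |A2| ≥ N - o(N) ≥ (1 - ν) N`.  IT7: `Q` with 7 elements and at most 5 colours.
(All the `o(N)` are `O(log (k + 1)) + O(1)` and `N ≥ √k / 2`.) -/
def Cl7Stmt : Prop := ∀ (θ L : ℝ), 0 < θ → θ ≤ 1 → 1 ≤ L → ∃ s0 s1 : ℕ, 1 ≤ s0 ∧ 1 ≤ s1 ∧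
  ∃ k₀ : ℕ, ∀ k : ℕ, k₀ ≤ k → ∀ (V : Type) [DecidableEq V] (c : V → V → Fin k) (W : Finset V),
  (∀ x y, c x y = c y x) → No3 c W → (∀ S ⊆ W, S.card = 7 → 6 ≤ (pal c S).card) →
  Flat c W s0 (L * s0) → Flat c W s1 (L * s1) → θ * (pal c W).card ≤ Real.log W.card →
  √(k : ℝ) ≤ Real.log W.card → W.Nonempty → False

/-- MA7 (uses STC, CL7; as MA8, `Pool/Agent/Helper41_EGF/MA8.lean`). -/
def Ma7Stmt : Prop := ∀ θ : ℝ, 0 < θ → θ ≤ 1 → ∃ k₀ : ℕ, ∀ k : ℕ, k₀ ≤ k →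
  ∀ (V : Type) [DecidableEq V] (c : V → V → Fin k) (W : Finset V), (∀ x y, c x y = c y x) →
  No3 c W → No4 c W → (∀ S ⊆ W, S.card = 7 → 6 ≤ (pal c S).card) →
  θ * k ≤ Real.log W.card → False

/-- FN7 (uses MA7, RD3; as FN8, `Pool/Agent/Helper71_EGF/FN8.lean`): THE THEOREM: `log F(p, k) ≤ ε k` for all
`p ≥ 7`, `ε > 0`, `k ≥ k₀ (p, ε)`. -/
def Fn7Stmt : Prop := ∀ p : ℕ, 7 ≤ p → ∀ ε : ℝ, 0 < ε → ∃ k₀ : ℕ, ∀ k : ℕ, k₀ ≤ k → ∀ n : ℕ,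
  Real.exp (ε * k) ≤ n → Forces p k n

end Pool.Agent.EGF
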