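import Pool.Agent.EGF.StmtsQ

/-!
# Squad EGF, block S (helper32): log F(p, k) = o(k) for every p at least 4

Complete proof: note of helper32 of Dec 4, 11:50 (MP_1090a0_co).  Rows: file
`Pool/Agent/HelperNN_EGF/XXX.lean`, `import Pool.Agent.EGF.StmtsS`, namespace `Pool.Agent.EGF.HNN`, theorem
`xxx (hypotheses = the statements of the column uses) : XxxStmt`.  `N = log |U|` in the docstrings.
The rows STC LOC OW2 RD3 ENT of the earlier blocks are used unchanged.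
-/

set_option autoImplicit false

open Finset

namespace Pool.Agent.EGF

section Defs

variable {V : Type} [DecidableEq V] {k : ℕ}

open Classical in
/-- the colours with a star of at least `T` edges inside `W` (monotone in `W`) -/
noncomputable def big (c : V → V → Fin k) (W : Finset V) (T : ℝ) : Finset (Fin k) :=
  univ.filter fun g => ∃ x ∈ W, T ≤ ((nb c W g x).card : ℝ)

/-- the colour `g` is robust in `A`: after the removal of any small set `R` there is still a star of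
size `T` -/
def Rbs (c : V → V → Fin k) (A : Finset V) (g : Fin k) (T κ : ℝ) : Prop :=
  ∀ R ⊆ A, (R.card : ℝ) ≤ κ * A.card → ∃ x ∈ A \ R, T ≤ ((nb c (A \ R) g x).card : ℝ)

/-- the record property for one threshold `T` with the weight `w` -/
def RecT (c : V → V → Fin k) (U : Finset V) (T w : ℝ) : Prop :=
  ∀ A ⊆ U, A.Nonempty →
    w * ((big c U T).card - (big c A T).card) ≤ Real.log U.card - Real.log A.card

/-- the pairs of `A × B` of colour `e` -/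
def prs (c : V → V → Fin k) (e : Fin k) (A B : Finset V) : Finset (V × V) :=
  (A ×ˢ B).filter fun p => c p.1 p.2 = e

/-- different elements `x i` of `A` and large subsets `W i` of `A` with loads at most 2 -/
structure Sys {X : Type} [DecidableEq X] (A : Finset X) (T κ : ℝ) (m : ℕ) (x : ℕ → X)
    (W : ℕ → Finset X) : Prop where
  xA : ∀ i < m, x i ∈ A
  inj : ∀ i < m, ∀ j < m, x i = x j → i = j
  WA : ∀ i < m, W i ⊆ A
  TW : ∀ i < m, T ≤ ((W i).card : ℝ)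
  load : ∀ a ∈ A, ∑ i ∈ (range m).filter (fun i => a ∈ W i), (1 : ℝ) / (W i).card ≤ 2
  many : κ / 2 * A.card ≤ (m : ℝ)

/-- lower regularity of a set `F` of pairs -/
def Lrg {X Y : Type} [DecidableEq X] [DecidableEq Y] (A : Finset X) (B : Finset Y)
    (F : Finset (X × Y)) (ρ d : ℝ) : Prop :=
  ∀ A' ⊆ A, ∀ B' ⊆ B, ρ * A.card ≤ (A'.card : ℝ) → ρ * B.card ≤ (B'.card : ℝ) →
    d * (A'.card * B'.card) ≤ (((A' ×ˢ B') ∩ F).card : ℝ)

/-- saturation: all sub-rectangles with sides at least `T` have density at most `d` -/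
def Sat {X Y : Type} [DecidableEq X] [DecidableEq Y] (A : Finset X) (B : Finset Y)
    (F : Finset (X × Y)) (T d : ℝ) : Prop :=
  ∀ A' ⊆ A, ∀ B' ⊆ B, T ≤ (A'.card : ℝ) → T ≤ (B'.card : ℝ) →
    (((A' ×ˢ B') ∩ F).card : ℝ) ≤ d * (A'.card * B'.card)

end Defs

/-! ## 1. Finite measures and systems (no colouring) -/

/-- BMD: bounded measures see the density of a lower regular rectangle.

Proof.  `N b = {a ∈ A | (a, b) ∈ F}`, `μ (S) = ∑ a ∈ S, μ a`.  (1) `Bad = {b ∈ B | μ (N b) < M - 2 ι}` has fewer than `ρ |B|` elements: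
otherwise it is nonempty; `f a = |{b ∈ Bad | (a, b) ∈ F}| / |Bad|`; `A0 = {a ∈ A | f a < M - ι}` has fewer than `ρ |A|` elements (if not,
`Lrg` for `A0, Bad` gives at least `(M - ι) |A0| |Bad|` pairs, but the number is `∑ a ∈ A0, f a |Bad| < (M - ι) |A0| |Bad|`, as `A0` is nonempty),
so `μ (A0) ≤ K |A0| / |A| ≤ K ρ ≤ ι` and `∑ a, μ a f a ≥ (M - ι) (1 - ι) ≥ M - 2 ι`; but `∑ a, μ a f a` is the average of `μ (N b)` over
`b ∈ Bad`, which is `< M - 2 ι`.  (2) `ν (Bad) ≤ K ρ ≤ ι`, so the sum is at least `(M - 2 ι) (1 - ι) ≥ M - 3 ι`. -/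
def BmdStmt : Prop := ∀ (X Y : Type) [DecidableEq X] [DecidableEq Y] (A : Finset X)
  (B : Finset Y) (F : Finset (X × Y)) (M ι ρ K : ℝ) (μ : X → ℝ) (ν : Y → ℝ), A.Nonempty →
  B.Nonempty → 0 < ι → 2 * ι ≤ M → M ≤ 1 → 0 < ρ → 0 < K → K * ρ ≤ ι → Lrg A B F ρ (M - ι) →
  (∀ a ∈ A, 0 ≤ μ a ∧ μ a * A.card ≤ K) → (∀ b ∈ B, 0 ≤ ν b ∧ ν b * B.card ≤ K) →
  ∑ a ∈ A, μ a = 1 → ∑ b ∈ B, ν b = 1 →
  M - 3 * ι ≤ ∑ p ∈ (A ×ˢ B) ∩ F, μ p.1 * ν p.2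

/-- MIX (uses BMD): families of probability vectors with bounded sums.

Proof.  `μ a = (∑ i < m, u i a) / m`, `ν b = (∑ j < n, v j b) / n`, `K = 4 / κ`: `μ a |A| ≤ 2 |A| / m ≤ 4 / κ`.  `m, n > 0`. -/
def MixStmt : Prop := ∀ (X Y : Type) [DecidableEq X] [DecidableEq Y] (A : Finset X)
  (B : Finset Y) (F : Finset (X × Y)) (M ι ρ κ : ℝ) (m n : ℕ) (u : ℕ → X → ℝ)
  (v : ℕ → Y → ℝ), A.Nonempty → B.Nonempty → 0 < ι → 2 * ι ≤ M → M ≤ 1 → 0 < ρ → 0 < κ →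
  4 * ρ ≤ ι * κ → Lrg A B F ρ (M - ι) → κ / 2 * A.card ≤ (m : ℝ) → κ / 2 * B.card ≤ (n : ℝ) →
  (∀ i < m, (∀ a ∈ A, 0 ≤ u i a) ∧ ∑ a ∈ A, u i a = 1) →
  (∀ j < n, (∀ b ∈ B, 0 ≤ v j b) ∧ ∑ b ∈ B, v j b = 1) →
  (∀ a ∈ A, ∑ i ∈ range m, u i a ≤ 2) → (∀ b ∈ B, ∑ j ∈ range n, v j b ≤ 2) →
  (M - 3 * ι) * (m * n) ≤
    ∑ i ∈ range m, ∑ j ∈ range n, ∑ p ∈ (A ×ˢ B) ∩ F, u i p.1 * v j p.2

/-- SYM (uses MIX): the four averages of two systems.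

Proof.  MIX with `u i a = [a = x i]` or `[a ∈ W i] / |W i|`, `v j b = [b = y j]` or `[b ∈ Z j] / |Z j|` (`W i, Z j` are nonempty by
`0 < T`).  `∑ i, [a = x i] ≤ 1` by injectivity. -/
def SymStmt : Prop := ∀ (X Y : Type) [DecidableEq X] [DecidableEq Y] (A : Finset X)
  (B : Finset Y) (F : Finset (X × Y)) (M ι ρ κ T : ℝ) (m n : ℕ) (x : ℕ → X) (y : ℕ → Y)
  (W : ℕ → Finset X) (Z : ℕ → Finset Y), A.Nonempty → B.Nonempty → 0 < ι → 2 * ι ≤ M →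
  M ≤ 1 → 0 < ρ → 0 < κ → 4 * ρ ≤ ι * κ → 0 < T → Lrg A B F ρ (M - ι) → Sys A T κ m x W →
  Sys B T κ n y Z →
  (M - 3 * ι) * (m * n) ≤ (((range m ×ˢ range n).filter fun p => (x p.1, y p.2) ∈ F).card : ℝ) ∧
  (M - 3 * ι) * (m * n) ≤ ∑ p ∈ range m ×ˢ range n,
    (((W p.1).filter fun w => (w, y p.2) ∈ F).card : ℝ) / (W p.1).card ∧
  (M - 3 * ι) * (m * n) ≤ ∑ p ∈ range m ×ˢ range n,
    (((Z p.2).filter fun z => (x p.1, z) ∈ F).card : ℝ) / (Z p.2).card ∧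
  (M - 3 * ι) * (m * n) ≤ ∑ p ∈ range m ×ˢ range n,
    (((W p.1 ×ˢ Z p.2) ∩ F).card : ℝ) / ((W p.1).card * (Z p.2).card)

/-- CON: concentration.

Proof.  `τ = √ι`, `b` = number of the pairs with `f < M - τ`, at most `ι P` pairs (`P = |S|`) have `f > M + ι`; so
`(M - 3 ι) P ≤ ∑ f ≤ b (M - τ) + ι P + (P - b) (M + ι)` (for the pairs with `f > M + ι` use `f ≤ 1` and add `M + ι ≥ 0`), hence
`b (τ + ι) ≤ 5 ι P`, `b ≤ 5 τ P`. -/
def ConStmt : Prop := ∀ (I : Type) (S : Finset I) (f : I → ℝ) (M ι : ℝ), 0 < ι → 0 ≤ M →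
  (∀ p ∈ S, 0 ≤ f p ∧ f p ≤ 1) → (M - 3 * ι) * S.card ≤ ∑ p ∈ S, f p →
  ((S.filter fun p => M + ι < f p).card : ℝ) ≤ ι * S.card →
  ((S.filter fun p => f p < M - √ι).card : ℝ) ≤ 5 * √ι * S.card

/-- HIG: few high pairs.

Proof.  Fix `i`.  `Y = {b ∈ B | (M + ι) |W i| < |{w ∈ W i | (w, b) ∈ F}|}`.  If `T0 ≤ |Y|` then `Sat` for `W i, Y` (`T0 ≤ ι T ≤ T ≤ |W i|`)
gives at most `(M + ι) |W i| |Y|` pairs, but by the definition of `Y` (nonempty, `T0 > 0`) there are more.  So `|Y| < T0 ≤ ι n`, and at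
most `|Y|` of the `j` have `y j ∈ Y` (`y` is injective).  Sum over `i < m`.  The second part is the same with the sides
exchanged. -/
def HigStmt : Prop := ∀ (X Y : Type) [DecidableEq X] [DecidableEq Y] (A : Finset X)
  (B : Finset Y) (F : Finset (X × Y)) (M ι κ T T0 : ℝ) (m n : ℕ) (x : ℕ → X) (y : ℕ → Y)
  (W : ℕ → Finset X) (Z : ℕ → Finset Y), 0 < ι → ι ≤ 1 → 0 ≤ M → 0 < T0 → T0 ≤ ι * T →
  T0 ≤ ι * m → T0 ≤ ι * n → Sat A B F T0 (M + ι) → Sys A T κ m x W → Sys B T κ n y Z →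
  (((range m ×ˢ range n).filter fun p => M + ι <
    (((W p.1).filter fun w => (w, y p.2) ∈ F).card : ℝ) / (W p.1).card).card : ℝ) ≤
    ι * (m * n) ∧
  (((range m ×ˢ range n).filter fun p => M + ι <
    (((Z p.2).filter fun z => (x p.1, z) ∈ F).card : ℝ) / (Z p.2).card).card : ℝ) ≤
    ι * (m * n)

/-- CEL: one cell.

Proof.  Divide `W = W1 ∪ (W \ W1)`, `Z = Z1 ∪ (Z \ Z1)`.  The rectangle `W1 × Z1` contains no element of `F`.  Each of the three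
others has a side smaller than `T0 ≤ ι |W|` (or `ι |Z|`), then it has at most `ι |W| |Z|` elements, or `Sat` applies. -/
def CelStmt : Prop := ∀ (X Y : Type) [DecidableEq X] [DecidableEq Y] (A W W1 : Finset X)
  (B Z Z1 : Finset Y) (F : Finset (X × Y)) (M ι T0 : ℝ), 0 < ι → 0 ≤ M → W ⊆ A → Z ⊆ B →
  W1 ⊆ W → Z1 ⊆ Z → T0 ≤ ι * W.card → T0 ≤ ι * Z.card → Sat A B F T0 (M + ι) →
  (∀ w ∈ W1, ∀ z ∈ Z1, (w, z) ∉ F) →
  (((W ×ˢ Z) ∩ F).card : ℝ) ≤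
    (M + ι) * (W.card * Z.card - W1.card * Z1.card) + 3 * ι * (W.card * Z.card)

/-- CRE (uses SYM, CON, HIG, CEL; STRONG): the contradiction.

Proof.  `P = m n > 0`, `p i j = |{w ∈ W i | (w, y j) ∈ F}| / |W i|`, `q i j = |{z ∈ Z j | (x i, z) ∈ F}| / |Z j|`, `Xi i j = p i j * q i j` if
`(x i, y j) ∈ F` and `0` otherwise, `τ = √ι ≤ M ^ 2 / 40`.  SYM, HIG, CON: at most `5 τ P` pairs with `p i j < M - τ`; the same for `q`.  So
`∑ Xi ≥ (M - τ) ^ 2 (M - 3 ι - 10 τ) P`.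
CEL for `W1 = {w ∈ W i | (w, y j) ∈ F}`, `Z1 = {z ∈ Z j | (x i, z) ∈ F}` if `(x i, y j) ∈ F`, and `W1 = ∅` otherwise, and SYM (4):
`(M - 3 ι) P ≤ (M + ι) (P - ∑ Xi) + 3 ι P`, so `M ∑ Xi ≤ 7 ι P`.  Hence `M (M - τ) ^ 2 (M - 3 ι - 10 τ) ≤ 7 ι ≤ 7 M ^ 4 / 1600`, but
the left side is at least `M (39 / 40) ^ 2 M ^ 2 (1 - 3 / 1600 - 1 / 4) M ≥ (7 / 10) M ^ 4`. -/
def CreStmt : Prop := ∀ (X Y : Type) [DecidableEq X] [DecidableEq Y] (A : Finset X)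
  (B : Finset Y) (F : Finset (X × Y)) (M ι ρ κ T T0 : ℝ) (m n : ℕ) (x : ℕ → X) (y : ℕ → Y)
  (W : ℕ → Finset X) (Z : ℕ → Finset Y), A.Nonempty → B.Nonempty → 0 < ι →
  ι ≤ M ^ 4 / 1600 → 0 < M → M ≤ 1 → 0 < ρ → 0 < κ → 4 * ρ ≤ ι * κ → 0 < T0 →
  T0 ≤ ι * T → T0 ≤ ι * m → T0 ≤ ι * n → Lrg A B F ρ (M - ι) → Sat A B F T0 (M + ι) →
  Sys A T κ m x W → Sys B T κ n y Z →
  (∀ i < m, ∀ j < n, ∀ w ∈ W i, ∀ z ∈ Z j, (x i, y j) ∈ F → (w, y j) ∈ F → (x i, z) ∈ F →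
    (w, z) ∉ F) → False

/-- LRE: lower regularity (like HRG, `Pool/Agent/Helper16_EGF/HRG.lean`).

Proof.  `d (A', B') = |G ∩ (A' × B')| / (|A'| |B'|)`, `μ = ι ρ ^ 2 / 2`.  Let `A1, B1` maximise `d (A', B') + μ log |A'| + μ log |B'|` over
the pairs of nonempty subsets; `h1 = d (A1, B1) ≥ M + μ log (|A| / |A1|) + μ log (|B| / |B1|)`, `h1 ≤ 1`, so the losses are at most
`1 / μ = 2 / (ι ρ ^ 2)` (if `M < 0` replace it by `0`: `0 ≤ d`).  Let `α = |A'| / |A1| ≥ ρ`, `β = |B'| / |B1| ≥ ρ`.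
(1) `d (A', B1) ≥ h1 - μ`: `h1 = α d (A', B1) + (1 - α) d (A1 \ A', B1)`, and if `α < 1` then the maximality gives
`d (A1 \ A', B1) ≤ h1 + μ log (1 / (1 - α))`, `(1 - α) log (1 / (1 - α)) ≤ α`.
(2) `d (A', B1) = β d (A', B') + (1 - β) d (A', B1 \ B')`, and if `β < 1` then
`d (A', B1 \ B') ≤ h1 + μ log (1 / α) + μ log (1 / (1 - β))`.  So `β d (A', B') ≥ h1 - μ - (1 - β) h1 - μ log (1 / α) - μ β`,
`d (A', B') ≥ h1 - μ - μ (1 + log (1 / α)) / β ≥ h1 - 2 μ / ρ ^ 2 ≥ M - ι` (`1 + log (1 / α) ≤ 1 / α`). -/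
def LreStmt : Prop := ∀ (X Y : Type) [DecidableEq X] [DecidableEq Y] (A : Finset X)
  (B : Finset Y) (G : Finset (X × Y)) (M ι ρ : ℝ), A.Nonempty → B.Nonempty → 0 ≤ M →
  0 < ι → 0 < ρ → ρ ≤ 1 → M * (A.card * B.card) ≤ (((A ×ˢ B) ∩ G).card : ℝ) →
  ∃ A1 ⊆ A, ∃ B1 ⊆ B, A1.Nonempty ∧ B1.Nonempty ∧
    Real.log A.card - 2 / (ι * ρ ^ 2) ≤ Real.log A1.card ∧
    Real.log B.card - 2 / (ι * ρ ^ 2) ≤ Real.log B1.card ∧ Lrg A1 B1 G ρ (M - ι)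

/-- GIN: greedy independent set.

Proof.  Strong induction on `|U|`: take `x ∈ U`, remove `x` and its neighbours (at most `d + 1` elements). -/
def GinStmt : Prop := ∀ (V : Type) [DecidableEq V] (U : Finset V) (G : V → V → Prop) (d : ℕ),
  (∀ x y, G x y → G y x) →
  (∀ x ∈ U, ∀ S ⊆ U, (∀ y ∈ S, y ≠ x ∧ G x y) → S.card ≤ d) →
  ∃ I ⊆ U, (∀ x ∈ I, ∀ y ∈ I, x ≠ y → ¬ G x y) ∧ U.card ≤ (d + 1) * I.card

/-! ## 2. Large-star palettes -/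

/-- RCT: records with many thresholds.

Proof.  `U` = a nonempty subset of `W` with the largest `Φ U = log |U| - ∑ i ∈ J, w i |big c U (T i)|`.  `big c U (T i) ⊆ pal c U ⊆ pal c W`
(`0 < T i`), so `log |U| ≥ Φ U ≥ Φ W ≥ log |W| - (θ / 2) |pal c W| ≥ log |W| / 2`.  For `A ⊆ U` all the numbers
`|big c U (T i)| - |big c A (T i)|` are nonnegative (`big` is monotone), so one summand is at most the sum, which is at most
`log |U| - log |A|`. -/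
def RctStmt : Prop := ∀ (V : Type) [DecidableEq V] (k : ℕ) (c : V → V → Fin k) (W : Finset V)
  (I : Type) (J : Finset I) (T w : I → ℝ) (θ : ℝ), 0 < θ → W.Nonempty →
  θ * (pal c W).card ≤ Real.log W.card → (∀ i ∈ J, 0 < T i ∧ 0 ≤ w i) →
  ∑ i ∈ J, w i ≤ θ / 2 →
  ∃ U ⊆ W, U.Nonempty ∧ Real.log W.card ≤ 2 * Real.log U.card ∧ ∀ i ∈ J, RecT c U (T i) (w i)

/-- LGT (uses GIN, LOC): many colours have large stars.

Proof.  `G x y` : the colour `c x y` is not in `big c U T`.  The degrees are at most `k T` (fewer than `T` neighbours in each colour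
outside `big`); GIN with `d = ⌊k T⌋`: `I` with `|U| ≤ (k T + 1) |I| ≤ 2 k T |I|`, `pal c I ⊆ big c U T`.  LOC for `I`:
`log |I| ≤ smax c I * log (s ^ 2) + 3`, `smax c I ≤ |pal c I| ≤ |big c U T|`.  (`k ≥ 1` because `U` is nonempty.) -/
def LgtStmt : Prop := ∀ (V : Type) [DecidableEq V] (k : ℕ) (c : V → V → Fin k) (U : Finset V)
  (s : ℕ) (L T : ℝ), (∀ x y, c x y = c y x) → No3 c U → Flat c U s (L * s) → 1 ≤ L →
  32 * L + 1 ≤ s → 1 ≤ T → U.Nonempty →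
  Real.log U.card - Real.log T - Real.log (2 * k) - 3 ≤
    (big c U T).card * Real.log ((s : ℝ) ^ 2)

/-- RBC (uses ENT): most colours of `big c U T` are robust in `A`.

Proof.  `Z` = the set of the others, `R g` the bad set for `g ∈ Z`: `R g ⊆ A`, `|R g| ≤ κ |A|`, and `g` is not in `big c (A \ R g) T`.
ENT for `Γ = Z`, `B = A`, `S g = A \ R g`: `Z' ⊆ Z`, `A' ⊆ A` nonempty with `A' ⊆ A \ R g` for `g ∈ Z \ Z'`, so `g` is not in
`big c A' T`.  `RecT` for `A'`: `w (|Z| - |Z'|) ≤ log |U| - log |A| + 3 √κ |Z| + 1`, `|Z'| ≤ 2 κ |Z|`; `3 √κ ≤ w / 8`,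
`2 κ ≤ 2 / 576`: `w |Z| (1 - 1 / 288 - 1 / 8) ≤ log |U| - log |A| + 1`. -/
def RbcStmt : Prop := ∀ (V : Type) [DecidableEq V] (k : ℕ) (c : V → V → Fin k)
  (U A : Finset V) (T w κ : ℝ), 0 < κ → 24 * √κ ≤ w → w ≤ 1 → RecT c U T w → A ⊆ U →
  A.Nonempty → ∀ Z ⊆ big c U T, (∀ g ∈ Z, ¬ Rbs c A g T κ) →
  w * Z.card ≤ 2 * (Real.log U.card - Real.log A.card + 1)

/-- STS: a robust colour gives a star system.

Proof.  `m = ⌊κ |A| / 2⌋ + 1`.  Choose the stars one after the other: if `x 0, .., x (i - 1)`, `W 0, .., W (i - 1)` are chosen,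
`i ≤ κ |A| / 2`, let `R = {x 0, .., x (i - 1)} ∪ {a ∈ A | load at least 1}`; the sum of all loads is `i`, so `|R| ≤ 2 i ≤ κ |A|`; `Rbs`
gives `x i ∈ A \ R`, `W i = nb c (A \ R) g (x i)`; the new loads of the elements of `W i` are `< 1 + 1 / |W i| ≤ 2` (`W i` is nonempty as
`0 < T`).  (Induction on `i` for the statement: there is such a system with `i` stars, for all `i ≤ m`.) -/
def StsStmt : Prop := ∀ (V : Type) [DecidableEq V] (k : ℕ) (c : V → V → Fin k) (A : Finset V)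
  (g : Fin k) (T κ : ℝ), 0 < T → 0 < κ → Rbs c A g T κ →
  ∃ (m : ℕ) (x : ℕ → V) (W : ℕ → Finset V), Sys A T κ m x W ∧
    ∀ i < m, ∀ w ∈ W i, w ≠ x i ∧ c (x i) w = g

/-! ## 3. The saturated pair -/

/-- SPR (uses OW2): the starting pair.

Proof.  OW2 with `s1 = s0 = s`: `A, B, C0`; at least half of the pairs of `A × B` have a colour in `C0` (`320 L / s ≤ 1 / 2`),
`|C0| ≤ 2 s ^ 2`, so some colour has at least `|A| |B| / (4 s ^ 2)` pairs.  `log 16 ≤ 3`. -/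
def SprStmt : Prop := ∀ (V : Type) [DecidableEq V] (k : ℕ) (c : V → V → Fin k) (U : Finset V)
  (s : ℕ) (L : ℝ), (∀ x y, c x y = c y x) → Flat c U s (L * s) → 0 < L → 640 * L ≤ s →
  2 ≤ s → 16 ≤ U.card →
  ∃ (A B : Finset V) (e : Fin k), A ⊆ U ∧ B ⊆ U ∧ Disjoint A B ∧ A.Nonempty ∧ B.Nonempty ∧
    Real.log U.card - (3 + 2 * (s : ℝ) ^ 2 * Real.log (k + 1)) ≤ Real.log A.card ∧
    Real.log U.card - (3 + 2 * (s : ℝ) ^ 2 * Real.log (k + 1)) ≤ Real.log B.card ∧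
    1 / (4 * (s : ℝ) ^ 2) * (A.card * B.card) ≤ ((prs c e A B).card : ℝ)

/-- SAP: choice of the scale and of the saturated pair (`δ` is decreasing: `j = R` is the finest scale).

Proof.  For `δ' ≥ δ R` let `M δ'` be the largest density of a colour `e` in a pair of disjoint nonempty sets `A, B` of `U` with
`log |A|, log |B| ≥ (1 - δ') log |U|` (finitely many, the starting pair is one).  `q ≤ M (δ R)`, `M ≤ 1` and `M (δ (j + 1)) ≤ M (δ j)`.  If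
`M (δ j) > M (δ (j + 1)) + ι` for all `j < R` then `M (δ 0) > q + R ι ≥ 1`, a contradiction (induction).  So there is `j < R` with
`M (δ j) ≤ M (δ (j + 1)) + ι`; the pair is one with the density `M (δ (j + 1))`. -/
def SapStmt : Prop := ∀ (V : Type) [DecidableEq V] (k : ℕ) (c : V → V → Fin k) (U : Finset V)
  (δ : ℕ → ℝ) (R : ℕ) (q ι : ℝ) (A0 B0 : Finset V) (e0 : Fin k), (∀ j, δ (j + 1) ≤ δ j) →
  0 < q → 0 < ι → 1 ≤ R * ι → A0 ⊆ U → B0 ⊆ U → Disjoint A0 B0 → A0.Nonempty →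
  B0.Nonempty → (1 - δ R) * Real.log U.card ≤ Real.log A0.card →
  (1 - δ R) * Real.log U.card ≤ Real.log B0.card →
  q * (A0.card * B0.card) ≤ ((prs c e0 A0 B0).card : ℝ) →
  ∃ j < R, ∃ (A B : Finset V) (e : Fin k) (M : ℝ), A ⊆ U ∧ B ⊆ U ∧ Disjoint A B ∧
    A.Nonempty ∧ B.Nonempty ∧ (1 - δ (j + 1)) * Real.log U.card ≤ Real.log A.card ∧
    (1 - δ (j + 1)) * Real.log U.card ≤ Real.log B.card ∧ q ≤ M ∧ M ≤ 1 ∧
    M * (A.card * B.card) ≤ ((prs c e A B).card : ℝ) ∧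
    ∀ A' ⊆ U, ∀ B' ⊆ U, Disjoint A' B' → A'.Nonempty → B'.Nonempty →
      (1 - δ j) * Real.log U.card ≤ Real.log A'.card →
      (1 - δ j) * Real.log U.card ≤ Real.log B'.card →
      ((prs c e A' B').card : ℝ) ≤ (M + ι) * (A'.card * B'.card)

/-! ## 4. Assembly -/

/-- STG (uses LGT, RBC, STS, LRE, CRE): one scale.

Proof.  LRE for `A, B, G = prs c e A B` (`(A' ×ˢ B') ∩ G = prs c e A' B'`): `A1, B1`, `Lrg A1 B1 G ρ (M - ι)`.  By RBC at most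
`2 (log |U| - log |A1| + 1) / w` colours of `big c U T` are not robust in `A1`, the same for `B1`, together at most
`4 (h + 2 / (ι ρ ^ 2) + 1) / w`; by LGT and the last hypothesis there is `g ∈ big c U T` which is robust in `A1` and in `B1`.  STS for
`A1` and for `B1`: `(x, W, m)`, `(y, Z, n)`; `T0 ≤ ι (κ / 2) |A1| ≤ ι m` etc.  CRE with `F = G`: if `(x i, y j), (w, y j), (x i, z), (w, z)` have the
colour `e` then `No4` for `x i, w, y j, z` is violated (`c (x i) w = g = c (y j) z`; `A1, B1` are disjoint). -/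
def StgStmt : Prop := ∀ (V : Type) [DecidableEq V] (k : ℕ) (c : V → V → Fin k)
  (U A B : Finset V) (e : Fin k) (s : ℕ) (L M ι ρ κ w T T0 h : ℝ), (∀ x y, c x y = c y x) →
  No3 c U → No4 c U → Flat c U s (L * s) → 1 ≤ L → 32 * L + 1 ≤ s → A ⊆ U → B ⊆ U →
  Disjoint A B → A.Nonempty → B.Nonempty → 0 < ι → ι ≤ M ^ 4 / 1600 → 0 < M → M ≤ 1 →
  0 < κ → 24 * √κ ≤ w → w ≤ 1 → 0 < ρ → ρ ≤ 1 → 4 * ρ ≤ ι * κ → RecT c U T w → 1 ≤ T →
  0 < T0 → T0 ≤ ι * T →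
  Real.log T0 ≤ Real.log (ι * κ / 2) + Real.log A.card - 2 / (ι * ρ ^ 2) →
  Real.log T0 ≤ Real.log (ι * κ / 2) + Real.log B.card - 2 / (ι * ρ ^ 2) →
  M * (A.card * B.card) ≤ ((prs c e A B).card : ℝ) →
  (∀ A' ⊆ A, ∀ B' ⊆ B, T0 ≤ (A'.card : ℝ) → T0 ≤ (B'.card : ℝ) →
    ((prs c e A' B').card : ℝ) ≤ (M + ι) * (A'.card * B'.card)) →
  Real.log U.card - h ≤ Real.log A.card → Real.log U.card - h ≤ Real.log B.card →
  4 * (h + 2 / (ι * ρ ^ 2) + 1) * Real.log ((s : ℝ) ^ 2) <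
    w * (Real.log U.card - Real.log T - Real.log (2 * k) - 3) → False

/-- GRD: a point of the grid.

Proof.  `i = ⌊8 D (1 - 1 / (4 D)) N / N0⌋`; `N0 / (8 D) ≤ N / (4 D)`. -/
def GrdStmt : Prop := ∀ (N N0 : ℝ) (D : ℕ), 1 ≤ D → 0 < N0 → N ≤ N0 → N0 ≤ 2 * N →
  ∃ i ≤ 8 * D, (1 - 1 / (2 * (D : ℝ))) * N ≤ i * N0 / (8 * D) ∧
    i * N0 / (8 * D) ≤ (1 - 1 / (4 * (D : ℝ))) * N

/-- CL4 (uses RCT, SPR, SAP, GRD, STG; STRONG, numerical): everything after the flat set.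

Proof.  `s = ⌈4000 L⌉ + 33`, `q = 1 / (4 s ^ 2)`, `ι = q ^ 4 / 1600`, `R = ⌈1 / ι⌉ + 1`, a natural number `C ≥ 2304 R log s / θ`, `C ≥ 4`;
`E 0 = 4`, `E (j + 1) = C (E j) ^ 2` (increasing), `δ j = 1 / E j`; `w j = θ / (2 R (8 E j + 1))`, `wm = w R ≤ w j`, `κ = (wm / 24) ^ 2`,
`ρ = ι κ / 4`, `H = 2 / (ι ρ ^ 2)`.  `N0 = log |W| ≥ √k`.  RCT with `J` = the pairs `(j, i)`, `j < R`, `i ≤ 8 E j` (`Finset.sigma` or a filter of a
product), `T = exp (i N0 / (8 E j))`, weight `w j`; the sum of the weights is `∑ j < R, (8 E j + 1) w j = θ / 2`.  `U`, `N = log |U| ≥ N0 / 2`.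
SPR (`16 ≤ |U|`): the starting pair, `3 + 2 s ^ 2 log (k + 1) ≤ N / E R` for large `k`.  SAP: `j`, `A, B, e, M`.  Let `D = E j`.  GRD: `i`,
`t = i N0 / (8 D)`, `T = exp t`.  STG with `w = w j`, `T0 = exp ((1 - 1 / D) N)`, `h = N / E (j + 1) = N / (C D ^ 2)`:
`T0 ≤ ι T` if `N / (2 D) ≥ log (1 / ι)`; `log T0 ≤ log (ι κ / 2) + log |A| - H` if `N (1 / D - 1 / E (j + 1)) ≥ H + log (2 / (ι κ))`, and
`1 / E (j + 1) ≤ 1 / (4 D)`; the last hypothesis: `log (s ^ 2) = 2 log s`, `log |U| - log T ≥ N / (4 D)`,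
`8 h log s = 8 N log s / (C D ^ 2) ≤ w j N / (16 D)`, because `w j ≥ θ / (18 R D)` and `C ≥ 2304 R log s / θ`, and
`8 (H + 1) log s + w (log (2 k) + 3) ≤ wm N / (16 E R) ≤ w j N / (16 D)` for large `k`; the sum is `≤ w N / (8 D) < w N / (4 D)`.
Everything is `N ≥` constant or `log (k + 1) ≤` small constant times `N`, with `N ≥ √k / 2`. -/
def Cl4Stmt : Prop := ∀ (θ L : ℝ), 0 < θ → θ ≤ 1 → 1 ≤ L → ∃ s0 : ℕ, 1 ≤ s0 ∧
  ∃ k₀ : ℕ, ∀ k : ℕ, k₀ ≤ k → ∀ (V : Type) [DecidableEq V] (c : V → V → Fin k) (W : Finset V),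
  (∀ x y, c x y = c y x) → No3 c W → No4 c W →
  Flat c W s0 (L * s0) → θ * (pal c W).card ≤ Real.log W.card →
  √(k : ℝ) ≤ Real.log W.card → W.Nonempty → False

/-- MA4 (uses STC, CL4; as MA8, `Pool/Agent/Helper41_EGF/MA8.lean`, with `s1 = s0`). -/
def Ma4Stmt : Prop := ∀ θ : ℝ, 0 < θ → θ ≤ 1 → ∃ k₀ : ℕ, ∀ k : ℕ, k₀ ≤ k →
  ∀ (V : Type) [DecidableEq V] (c : V → V → Fin k) (W : Finset V), (∀ x y, c x y = c y x) →
  No3 c W → No4 c W → θ * k ≤ Real.log W.card → False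

/-- FN4 (uses MA4, RD3; as FN7, `Pool/Agent/Helper44_EGF/FN7.lean`): THE THEOREM: `log F(p, k) ≤ ε k` for all
`p ≥ 4`, `ε > 0`, `k ≥ k₀ (p, ε)`. -/
def Fn4Stmt : Prop := ∀ p : ℕ, 4 ≤ p → ∀ ε : ℝ, 0 < ε → ∃ k₀ : ℕ, ∀ k : ℕ, k₀ ≤ k → ∀ n : ℕ,
  Real.exp (ε * k) ≤ n → Forces p k n

end Pool.Agent.EGF
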