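import Pool.Agent.EGF.StmtsS

/-!
# Squad EGF, block U (helper65): the core of the power saving for every p at least 4 (Part I of note 3729)

Finite sets and weights only, no colouring.  Rows: file `Pool/Agent/HelperNN_EGF/XXX.lean`,
`import Pool.Agent.EGF.StmtsU`, namespace `Pool.Agent.EGF.HNN`, theorem `xxx (hypotheses = the statements of the
column uses) : XxxStmt`.  Abbreviation in the docstrings: `q i b = (∑ y ∈ N b, G i y) / T` (a number in `[0, 1]`).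
-/

set_option autoImplicit false

open Finset

namespace Pool.Agent.EGF

section Defs

variable {X Y : Type}

/-- the values are `0` or `1` -/
def Bin (f : X → Y → ℝ) : Prop := ∀ a b, f a b = 0 ∨ f a b = 1

/-- all sub-rectangles with sides at least `E` have density at most `d` -/
def SatF (A : Finset X) (B : Finset Y) (f : X → Y → ℝ) (E d : ℝ) : Prop :=
  ∀ A' ⊆ A, ∀ B' ⊆ B, E ≤ (A'.card : ℝ) → E ≤ (B'.card : ℝ) →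
    ∑ a ∈ A', ∑ b ∈ B', f a b ≤ d * (A'.card * B'.card)

/-- `τ` is a probability weight on `I` -/
def Prb (I : Finset X) (τ : X → ℝ) : Prop := (∀ i ∈ I, 0 ≤ τ i) ∧ ∑ i ∈ I, τ i = 1

/-- upper bound for all parts `S` of the index set `I` and all weights `ν` on `B` with atoms at most
`α` -/
def Upb (I : Finset X) (τ : X → ℝ) (B : Finset Y) (G : X → Y → ℝ) (u e1 e2 : ℝ) : Prop :=
  ∀ S ⊆ I, ∀ (ν : Y → ℝ) (α : ℝ), 0 ≤ α → (∀ b ∈ B, 0 ≤ ν b ∧ ν b ≤ α) →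
    ∑ i ∈ S, τ i * ∑ b ∈ B, ν b * G i b ≤
      u * ((∑ b ∈ B, ν b) * ∑ i ∈ S, τ i) + e1 * α + e2 * ∑ b ∈ B, ν b

/-- a regular system: `T` points `b ∈ P`, for each of them a set `N b` of `T` points of `B1`,
`|B1| ≤ K T` -/
structure Sy2 (B P B1 : Finset Y) (N : Y → Finset Y) (T : ℕ) (K : ℝ) : Prop where
  pos : 1 ≤ T
  PB : P ⊆ B
  B1B : B1 ⊆ B
  cP : P.card = T
  NB : ∀ b ∈ P, N b ⊆ B1
  cN : ∀ b ∈ P, (N b).card = T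
  cB : (B1.card : ℝ) ≤ K * T

/-- the pairs `(x, w)` with `x ∈ P`, `w ∈ N x` -/
def edg [DecidableEq X] (P A1 : Finset X) (N : X → Finset X) : Finset (X × X) :=
  (P ×ˢ A1).filter fun p => p.2 ∈ N p.1

end Defs

/-- UPM: weights see no density above `d`, with fewer than `E` exceptions.

Proof.  Suppose `E ≤ |S|` (so `S` is nonempty).  `B' = {b ∈ B | d |S| < ∑ a ∈ S, f a b}` has fewer than `E` elements: otherwise `SatF` for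
`S, B'` (`B'` nonempty) is violated.  So `∑ a ∈ S, ∑ b ∈ B, ν b f a b = ∑ b ∈ B, ν b ∑ a ∈ S, f a b ≤
∑ b ∈ B, ν b d |S| + ∑ b ∈ B', α |S| ≤ |S| (d ∑ ν + E α)`, but by the hypothesis on `S` it is larger. -/
def UpmStmt : Prop := ∀ (X Y : Type) [DecidableEq X] [DecidableEq Y] (A : Finset X)
  (B : Finset Y) (f : X → Y → ℝ) (E d : ℝ), Bin f → 0 < E → 0 ≤ d → SatF A B f E d →
  ∀ (ν : Y → ℝ) (α : ℝ), 0 ≤ α → (∀ b ∈ B, 0 ≤ ν b ∧ ν b ≤ α) →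
  ∀ S ⊆ A, (∀ a ∈ S, d * (∑ b ∈ B, ν b) + E * α < ∑ b ∈ B, ν b * f a b) → (S.card : ℝ) < E

/-- UBA (uses UPM): the upper bound for `I ⊆ B` with a weight `β` with atoms at most `κ`.

Proof.  `S ⊆ I`, `ν` on `A`, `n = ∑ a ∈ A, ν a`, `g b = ∑ a ∈ A, ν a f a b ≤ n`.  `Bad = {b ∈ S | d n + E α < g b}` has fewer than `E` elements
(UPM with the sides exchanged; `SatF` is symmetric).  `∑ b ∈ S, β b g b ≤ (d n + E α) ∑ b ∈ S, β b + κ |Bad| n`, and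
`∑ b ∈ S, β b ≤ 1`; `0 ≤ κ` because `I` is nonempty. -/
def UbaStmt : Prop := ∀ (X Y : Type) [DecidableEq X] [DecidableEq Y] (A : Finset X)
  (B I : Finset Y) (f : X → Y → ℝ) (E d κ : ℝ) (β : Y → ℝ), Bin f → 0 < E → 0 ≤ d →
  SatF A B f E d → I ⊆ B → Prb I β → (∀ b ∈ I, β b ≤ κ) →
  Upb I β A (fun b a => f a b) d E (E * κ)

/-- UBB (uses UPM): the upper bound for the pairs of a system.

Proof.  `S ⊆ edg P A1 N`, `ν` on `B`, `n = ∑ b ∈ B, ν b`, `n x = ∑ b ∈ B, ν b f x b ≤ n`.  `Bad1 = {x ∈ P | d n + E α < n x}` and, for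
`x ∈ P`, `Bad2 x = {w ∈ A1 | d (n x) + E α < ∑ b ∈ B, (ν b f x b) f w b}` have fewer than `E` elements (UPM for `ν` and for the weight
`b ↦ ν b f x b`).  For `(x, w) ∈ S` with `x ∉ Bad1`, `w ∉ Bad2 x` the inner sum is at most
`d (d n + E α) + E α ≤ d ^ 2 n + 3 E α` (`d ≤ 2`), for the others at most `n`.  There are at most `E T + T E` others in `edg P A1 N`,
`∑ i ∈ S, 1 / T ^ 2 ≤ 1`. -/
def UbbStmt : Prop := ∀ (X Y : Type) [DecidableEq X] [DecidableEq Y] (A P A1 : Finset X)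
  (B : Finset Y) (N : X → Finset X) (f : X → Y → ℝ) (E d K : ℝ) (T : ℕ), Bin f → 0 < E →
  0 ≤ d → d ≤ 2 → SatF A B f E d → Sy2 A P A1 N T K →
  Upb (edg P A1 N) (fun _ => 1 / (T : ℝ) ^ 2) B (fun p b => f p.1 b * f p.2 b) (d ^ 2) (3 * E)
    (2 * E / T)

/-- TPL: `r`-tuples of points of `N b`.

Proof.  For `v ∈ Fintype.piFinset (fun _ : Fin r => B1)` let `ν v b = ∏ j, [v j ∈ N b] / T` for `b ∈ P` and `0` otherwise (`0 ≤ ν v b ≤ α`,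
`α = 1 / T ^ r`), `S v = {i ∈ I | ∀ j, G i (v j) = 0}`.  Sum the inequalities `Upb` for `S v, ν v` over all `v`.  By
`Finset.prod_univ_sum`: `∑ v, ν v b = (∑ y ∈ B1, [y ∈ N b] / T) ^ r = 1` for `b ∈ P`, and for `i ∈ I`, `b ∈ P`:
`∑ v, [i ∈ S v] ν v b = ∑ v, ∏ j, [v j ∈ N b] (1 - G i (v j)) / T = (1 - q i b) ^ r`.  The error terms:
`|B1| ^ r e1 / T ^ r ≤ e1 K ^ r` and `e2 |P| = e2 T`. -/
def TplStmt : Prop := ∀ (X Y : Type) [DecidableEq X] [DecidableEq Y] (I : Finset X)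
  (τ : X → ℝ) (B P B1 : Finset Y) (N : Y → Finset Y) (G : X → Y → ℝ) (u e1 e2 K : ℝ)
  (T r : ℕ), Bin G → Prb I τ → 0 ≤ e1 → Upb I τ B G u e1 e2 → Sy2 B P B1 N T K →
  ∑ b ∈ P, ∑ i ∈ I, τ i * G i b * (1 - (∑ y ∈ N b, G i y) / T) ^ r ≤
    u * ∑ b ∈ P, ∑ i ∈ I, τ i * (1 - (∑ y ∈ N b, G i y) / T) ^ r + e1 * K ^ r + e2 * T

/-- TPQ: second moment of `q`.

Proof.  Let `b ∈ P`, `ν` = `1 / T` on `N b` (`0` elsewhere; `∑ ν = 1`, `α = 1 / T`), `e = e1 / T + e2`.  `Upb` for `I`: `∑ τ q ≤ u + e`; for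
`S = {i ∈ I | u < q i b}`: `∑ i ∈ S, τ i (q - u) ≤ e`.  `q ^ 2 ≤ u q + max (q - u) 0` as `0 ≤ q ≤ 1`; so
`∑ τ q ^ 2 ≤ u (u + e) + e ≤ u ^ 2 + 3 e` (`e ≥ 0`). -/
def TpqStmt : Prop := ∀ (X Y : Type) [DecidableEq X] [DecidableEq Y] (I : Finset X)
  (τ : X → ℝ) (B P B1 : Finset Y) (N : Y → Finset Y) (G : X → Y → ℝ) (u e1 e2 K : ℝ)
  (T : ℕ), Bin G → Prb I τ → 0 ≤ u → u ≤ 2 → 0 ≤ e1 → 0 ≤ e2 → Upb I τ B G u e1 e2 →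
  Sy2 B P B1 N T K → ∀ b ∈ P,
  ∑ i ∈ I, τ i * ((∑ y ∈ N b, G i y) / T) ^ 2 ≤ u ^ 2 + 3 * (e1 / T + e2)

/-- BON (Bonferroni).  Induction on `r`: `(1 - q) ^ (r + 1) ≤ (1 - q) (1 - r q + r (r - 1) / 2 q ^ 2)
≤ 1 - (r + 1) q + (r + 1) r / 2 q ^ 2`, and `1 - (1 - q) ^ r ≤ r q` (`one_add_mul_le_pow`). -/
def BonStmt : Prop := ∀ (q : ℝ) (r : ℕ), 0 ≤ q → q ≤ 1 →
  1 - r * q ≤ (1 - q) ^ r ∧ (1 - q) ^ r ≤ 1 - r * q + (r : ℝ) * (r - 1) / 2 * q ^ 2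

/-- TPM (uses TPL, TPQ, BON): the main inequality; the first sum on the right is the codegree.

Proof.  `G ≤ G (1 - q) ^ r + r G q` (BON, `G ≥ 0`).  TPL for the first part.  `(1 - q) ^ r ≤ 1 - r q + r (r - 1) / 2 q ^ 2`, sum over
`b ∈ P` (`T` elements, `∑ τ = 1`), TPQ. -/
def TpmStmt : Prop := ∀ (X Y : Type) [DecidableEq X] [DecidableEq Y] (I : Finset X)
  (τ : X → ℝ) (B P B1 : Finset Y) (N : Y → Finset Y) (G : X → Y → ℝ)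
  (u e1 e2 K l l' : ℝ) (T r : ℕ), Bin G → Prb I τ → 0 ≤ u → u ≤ 2 → 0 ≤ e1 → 0 ≤ e2 →
  Upb I τ B G u e1 e2 → Sy2 B P B1 N T K → 1 ≤ r → l * T ≤ ∑ b ∈ P, ∑ i ∈ I, τ i * G i b →
  l' * T ≤ ∑ b ∈ P, ∑ i ∈ I, τ i * ((∑ y ∈ N b, G i y) / T) →
  l * T ≤ r * ∑ b ∈ P, ∑ i ∈ I, τ i * G i b * ((∑ y ∈ N b, G i y) / T) +
    u * (T - r * (l' * T) + (r : ℝ) * (r - 1) / 2 * (T * (u ^ 2 + 3 * (e1 / T + e2)))) +
    e1 * K ^ r + e2 * T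

/-- CGA (uses UBA, TPM): the codegree of the pairs of a system is not small.

Proof.  `ε = 1 / 200`, `ζ = M ^ 4 / 10 ^ 6`, so `E ≤ E K ^ r ≤ ζ T`.  TPM with `I`, `τ = β`, `G b a = f a b`, the system `x ↦ N x`, `u = (1 + ε) M`,
`e1 = E`, `e2 = E / T` (UBA with `κ = 1 / T`), `l = l' = (1 - ε) M`, `r = ⌈1 / (10 M)⌉₊`: `r ≥ 1 / (10 M)`, `r - 1 ≤ 1 / (10 M)`.  Divide by
`T`, `cod` = the right sum divided by `T`: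
`(1 - ε) M ≤ r cod + (1 + ε) M (1 - r (1 - ε) M + r (r - 1) / 2 (u ^ 2 + 6 ζ)) + 2 ζ`, so
`r cod ≥ r (1 - ε ^ 2) M ^ 2 - 2 ε M - r (1 + ε) ((1 + ε) ^ 2 M ^ 2 + 6 ζ) / 20 - 2 ζ`, and `2 ε M ≤ r M ^ 2 / 10`: `cod ≥
M ^ 2 (1 - ε ^ 2 - 1 / 10 - (1 + ε) ^ 3 / 20) - 3 ζ ≥ (4 / 5) M ^ 2`. -/
def CgaStmt : Prop := ∀ (X Y : Type) [DecidableEq X] [DecidableEq Y] (A P A1 : Finset X)
  (B I : Finset Y) (N : X → Finset X) (f : X → Y → ℝ) (β : Y → ℝ) (E M K : ℝ) (T : ℕ),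
  Bin f → 0 < M → M ≤ 1 → 0 < E → 1 ≤ K → SatF A B f E ((1 + 1 / 200) * M) →
  Sy2 A P A1 N T K → I ⊆ B → Prb I β → (∀ b ∈ I, β b ≤ 1 / T) →
  E * K ^ ⌈1 / (10 * M)⌉₊ ≤ M ^ 4 / 10 ^ 6 * T →
  (1 - 1 / 200) * M * T ≤ ∑ x ∈ P, ∑ b ∈ I, β b * f x b →
  (1 - 1 / 200) * M * T ≤ ∑ x ∈ P, ∑ b ∈ I, β b * ((∑ w ∈ N x, f w b) / T) →
  4 / 5 * M ^ 2 * T ≤ ∑ x ∈ P, ∑ b ∈ I, β b * f x b * ((∑ w ∈ N x, f w b) / T)

/-- CRQ (uses UBB, CGA, TPM): THE CORE: there is a configuration.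

Proof.  (1) CGA with `I = Q`, `β = 1 / T`, and with `I = B1`, `β z = |{y ∈ Q | z ∈ N' y}| / T ^ 2` (a probability weight, at most
`1 / T`; `∑ z ∈ B1, β z g z = (1 / T ^ 2) ∑ y ∈ Q, ∑ z ∈ N' y, g z`); the condition on `⌈1 / (10 M)⌉₊` follows from the one on
`r = ⌈1 / (2 M ^ 2)⌉₊`, as `1 / (10 M) ≤ 1 / (2 M ^ 2)` and `1 ≤ K`.
(2) Suppose there is no configuration.  TPM with `I = edg P A1 N`, `τ = 1 / T ^ 2` (`|edg P A1 N| = T ^ 2`), `G p b = f p.1 b f p.2 b`, the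
system `y ↦ N' y`, `u = (1 + 1 / 200) ^ 2 M ^ 2`, `e1 = 3 E`, `e2 = 2 E / T` (UBB), `l = l' = (4 / 5) M ^ 2` (these are the two
conclusions of (1)).  The codegree sum is `0`.  Divide by `T`; `E ≤ E K ^ r ≤ ζ T`, `ζ = M ^ 4 / 10 ^ 6`:
`(4 / 5) M ^ 2 ≤ u (1 - r (4 / 5) M ^ 2 + r (r - 1) / 2 (u ^ 2 + 15 ζ)) + 5 ζ`.  `r - 1 ≤ 1 / (2 M ^ 2)` and `r M ^ 2 ≥ 1 / 2`:
the bracket is at most `1 - r M ^ 2 (4 / 5 - 1.0203 / 4) ≤ 1 - (1 / 2) (0.5449) ≤ 0.728`, so `(4 / 5) M ^ 2 ≤ 0.736 M ^ 2`. -/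
def CrqStmt : Prop := ∀ (X Y : Type) [DecidableEq X] [DecidableEq Y] (A P A1 : Finset X)
  (B Q B1 : Finset Y) (N : X → Finset X) (N' : Y → Finset Y) (f : X → Y → ℝ) (E M K : ℝ)
  (T : ℕ), Bin f → 0 < M → M ≤ 1 → 0 < E → 1 ≤ K → SatF A B f E ((1 + 1 / 200) * M) →
  Sy2 A P A1 N T K → Sy2 B Q B1 N' T K →
  E * K ^ ⌈1 / (2 * M ^ 2)⌉₊ ≤ M ^ 4 / 10 ^ 6 * T →
  (1 - 1 / 200) * M * (T : ℝ) ^ 2 ≤ ∑ x ∈ P, ∑ y ∈ Q, f x y →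
  (1 - 1 / 200) * M * (T : ℝ) ^ 3 ≤ ∑ x ∈ P, ∑ y ∈ Q, ∑ w ∈ N x, f w y →
  (1 - 1 / 200) * M * (T : ℝ) ^ 3 ≤ ∑ x ∈ P, ∑ y ∈ Q, ∑ z ∈ N' y, f x z →
  (1 - 1 / 200) * M * (T : ℝ) ^ 4 ≤ ∑ x ∈ P, ∑ y ∈ Q, ∑ w ∈ N x, ∑ z ∈ N' y, f w z →
  ∃ x ∈ P, ∃ w ∈ N x, ∃ y ∈ Q, ∃ z ∈ N' y, f x y = 1 ∧ f w y = 1 ∧ f x z = 1 ∧ f w z = 1

end Pool.Agent.EGF
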