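import Pool.Agent.EGF.StmtsU

/-!
# Squad EGF, block V (helper32): log F(p, k) is at most k ^ (1 - e) for every p at least 4

Complete proof: note 3729 of helper32 (MP_1090a0_co), with the core of helper65 (`StmtsU`, row CRQ).  Rows: file
`Pool/Agent/HelperNN_EGF/XXX.lean`, `import Pool.Agent.EGF.StmtsV`, namespace `Pool.Agent.EGF.HNN`, theorem
`xxx (hypotheses = the statements of the column uses) : XxxStmt`.
The rows STA2 SPR BMD LRE ENT RD3 CRQ of the earlier blocks are used unchanged.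
-/

set_option autoImplicit false

open Finset

namespace Pool.Agent.EGF

section Defs

variable {X Y : Type} [DecidableEq X] [DecidableEq Y]

/-- the indicator of a set of pairs -/
noncomputable def ind (F : Finset (X × Y)) (x : X) (y : Y) : ℝ := if (x, y) ∈ F then 1 else 0

/-- the uniform weight of `X0` (`T = |X0|`) -/
noncomputable def wt0 (X0 : Finset X) (T : ℕ) (a : X) : ℝ := if a ∈ X0 then 1 / (T : ℝ) else 0

/-- the law of a random element of `R x`, `x` random in `X0` (`T = |X0| = |R x|`) -/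
noncomputable def wt1 (X0 : Finset X) (R : X → Finset X) (T : ℕ) (a : X) : ℝ :=
  ((X0.filter fun x => a ∈ R x).card : ℝ) / (T : ℝ) ^ 2

variable {V : Type} [DecidableEq V] {k : ℕ}

open Classical in
/-- the colours of density at least `q` between two disjoint subsets of `W` with at least `T` elements
(dense spots); monotone in `W`, decreasing in `T` -/
noncomputable def spt (c : V → V → Fin k) (q : ℝ) (W : Finset V) (T : ℝ) : Finset (Fin k) :=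
  univ.filter fun g => ∃ A ⊆ W, ∃ B ⊆ W, Disjoint A B ∧ T ≤ (A.card : ℝ) ∧ T ≤ (B.card : ℝ) ∧
    q * (A.card * B.card) ≤ ((prs c g A B).card : ℝ)

/-- `g` is robust in `A`: it has a dense spot after the removal of any small set -/
def Rb2 (c : V → V → Fin k) (q : ℝ) (A : Finset V) (g : Fin k) (T κ : ℝ) : Prop :=
  ∀ R ⊆ A, (R.card : ℝ) ≤ κ * A.card → g ∈ spt c q (A \ R) T

/-- disjoint spots `X0 i, X1 i`, `i < m`, of the colour `g` in `A` -/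
structure Spots (c : V → V → Fin k) (g : Fin k) (A : Finset V) (N T m : ℕ)
    (X0 X1 : ℕ → Finset V) (R : ℕ → V → Finset V) : Prop where
  h0 : ∀ i < m, X0 i ⊆ A ∧ X1 i ⊆ A ∧ (X0 i).card = T ∧ (X1 i).card = N ∧
    Disjoint (X0 i) (X1 i)
  hR : ∀ i < m, ∀ x ∈ X0 i, R i x ⊆ X1 i ∧ (R i x).card = T ∧ ∀ w ∈ R i x, w ≠ x ∧ c x w = g
  hd : ∀ i < m, ∀ j < m, i ≠ j → Disjoint (X0 i ∪ X1 i) (X0 j ∪ X1 j)

/-- the record property: `spt c q U T` is not empty and not much larger than `spt c q A T`, for all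
subsets `A` of `U` which are not too small -/
def RecL (c : V → V → Fin k) (q : ℝ) (U : Finset V) (T β B : ℝ) : Prop :=
  ∀ A ⊆ U, A.Nonempty → Real.log U.card - Real.log A.card ≤ B →
    (spt c q A T).Nonempty ∧
    β * (Real.log (spt c q U T).card - Real.log (spt c q A T).card) ≤
      Real.log U.card - Real.log A.card

end Defs

/-! ## 1. Dense spots -/

/-- NEV (uses SPR): dense spots exist.

Proof.  SPR for `A` (`16 ≤ |A|` as `log 16 ≤ 3`; `Flat` is inherited): `A1, B1, e`; the sets have at least `T` elements. -/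
def NevStmt : Prop := ∀ (V : Type) [DecidableEq V] (k : ℕ) (c : V → V → Fin k) (W : Finset V)
  (s : ℕ) (L : ℝ), (∀ x y, c x y = c y x) → Flat c W s (L * s) → 0 < L → 640 * L ≤ s →
  2 ≤ s → ∀ A ⊆ W, 3 ≤ Real.log A.card → ∀ T : ℝ, 0 < T →
  Real.log T + (3 + 2 * (s : ℝ) ^ 2 * Real.log (k + 1)) ≤ Real.log A.card →
  (spt c (1 / (4 * (s : ℝ) ^ 2)) A T).Nonempty

/-- SHR: smaller spots.

Proof.  `A'` = `N` elements of `A` with the largest numbers of neighbours (colour `g`) in `B`: the density between `A'` and `B` is at least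
`q`.  Then the same for `B`.  (Or: induction, removing an element with the smallest degree.) -/
def ShrStmt : Prop := ∀ (V : Type) [DecidableEq V] (k : ℕ) (c : V → V → Fin k) (g : Fin k)
  (A B : Finset V) (q : ℝ) (N : ℕ), 1 ≤ N → N ≤ A.card → N ≤ B.card →
  q * (A.card * B.card) ≤ ((prs c g A B).card : ℝ) →
  ∃ A' ⊆ A, ∃ B' ⊆ B, A'.card = N ∧ B'.card = N ∧ q * (N * N) ≤ ((prs c g A' B').card : ℝ)

/-- FAN: from a spot to a star structure.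

Proof.  `T = ⌈q N / 2⌉`.  The `x ∈ A` with fewer than `q N / 2` neighbours in `B` contribute at most `q N ^ 2 / 2`, the others at most `N` each: there
are at least `q N / 2`, so at least `T`, of them, and they have at least `T` neighbours. -/
def FanStmt : Prop := ∀ (V : Type) [DecidableEq V] (k : ℕ) (c : V → V → Fin k) (g : Fin k)
  (A B : Finset V) (q : ℝ) (N : ℕ), 0 < q → q ≤ 1 → 1 ≤ N → A.card = N → B.card = N →
  Disjoint A B → q * (N * N) ≤ ((prs c g A B).card : ℝ) →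
  ∃ X0 ⊆ A, ∃ R : V → Finset V, X0.card = ⌈q / 2 * (N : ℝ)⌉₊ ∧
    ∀ x ∈ X0, R x ⊆ B ∧ (R x).card = ⌈q / 2 * (N : ℝ)⌉₊ ∧ ∀ w ∈ R x, w ≠ x ∧ c x w = g

/-- GSP (uses SHR, FAN; STRONG): many disjoint spots.

Proof.  `N = ⌈T⌉`, `m = ⌊κ |A| / (2 N)⌋ + 1`.  By induction on `i ≤ m` there are `i` disjoint spots: if `i` are chosen, `2 N i ≤ κ |A|`, then `Rb2` for
the union `R` of the sets of these spots (at most `2 N i` elements) gives a spot in `A \ R`, SHR and FAN. -/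
def GspStmt : Prop := ∀ (V : Type) [DecidableEq V] (k : ℕ) (c : V → V → Fin k) (g : Fin k)
  (A : Finset V) (q T κ : ℝ), 0 < q → q ≤ 1 → 0 < T → 0 < κ → Rb2 c q A g T κ →
  ∃ (m : ℕ) (X0 X1 : ℕ → Finset V) (R : ℕ → V → Finset V), 1 ≤ m ∧
    Spots c g A ⌈T⌉₊ ⌈q / 2 * (⌈T⌉₊ : ℝ)⌉₊ m X0 X1 R ∧ κ * A.card ≤ 2 * (⌈T⌉₊ : ℝ) * m

/-- MX2 (uses BMD): as MIX (`Pool/Agent/Helper14_EGF/MIX.lean`), with a general constant `K`. -/
def Mx2Stmt : Prop := ∀ (X Y : Type) [DecidableEq X] [DecidableEq Y] (A : Finset X)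
  (B : Finset Y) (F : Finset (X × Y)) (M ι ρ K : ℝ) (m n : ℕ) (u : ℕ → X → ℝ)
  (v : ℕ → Y → ℝ), A.Nonempty → B.Nonempty → 0 < ι → 2 * ι ≤ M → M ≤ 1 → 0 < ρ → 0 < K →
  K * ρ ≤ ι → Lrg A B F ρ (M - ι) → 1 ≤ m → 1 ≤ n →
  (∀ i < m, (∀ a ∈ A, 0 ≤ u i a) ∧ ∑ a ∈ A, u i a = 1) →
  (∀ j < n, (∀ b ∈ B, 0 ≤ v j b) ∧ ∑ b ∈ B, v j b = 1) →
  (∀ a ∈ A, (∑ i ∈ range m, u i a) * A.card ≤ K * m) →
  (∀ b ∈ B, (∑ j ∈ range n, v j b) * B.card ≤ K * n) →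
  (M - 3 * ι) * (m * n) ≤
    ∑ i ∈ range m, ∑ j ∈ range n, ∑ p ∈ (A ×ˢ B) ∩ F, u i p.1 * v j p.2

/-- WTS: the weights of disjoint spots.

Proof.  `a` is in at most one of the sets `X0 i ∪ X1 i`, and `wt0, wt1 ≤ 1 / T`, so the sums over `i` are at most `1 / T`; `|A| ≤ 2 N m / κ` and
`2 N ≤ K κ T`.  `∑ a ∈ A, wt1 a = ∑ x ∈ X0 i, |R i x| / T ^ 2 = 1`. -/
def WtsStmt : Prop := ∀ (V : Type) [DecidableEq V] (k : ℕ) (c : V → V → Fin k) (g : Fin k)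
  (A : Finset V) (N T m : ℕ) (X0 X1 : ℕ → Finset V) (R : ℕ → V → Finset V) (K κ : ℝ),
  0 < κ → 1 ≤ T → 2 * (N : ℝ) ≤ K * κ * T → κ * A.card ≤ 2 * (N : ℝ) * m →
  Spots c g A N T m X0 X1 R →
  (∀ i < m, (∀ a ∈ A, 0 ≤ wt0 (X0 i) T a) ∧ ∑ a ∈ A, wt0 (X0 i) T a = 1) ∧
  (∀ i < m, (∀ a ∈ A, 0 ≤ wt1 (X0 i) (R i) T a) ∧ ∑ a ∈ A, wt1 (X0 i) (R i) T a = 1) ∧
  (∀ a ∈ A, (∑ i ∈ range m, wt0 (X0 i) T a) * A.card ≤ K * m) ∧
  (∀ a ∈ A, (∑ i ∈ range m, wt1 (X0 i) (R i) T a) * A.card ≤ K * m)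

/-- CNV: the four densities of a pair of spots (exchange of sums). -/
def CnvStmt : Prop := ∀ (X Y : Type) [DecidableEq X] [DecidableEq Y] (A X0 : Finset X)
  (B Y0 : Finset Y) (R : X → Finset X) (S : Y → Finset Y) (F : Finset (X × Y)) (T : ℕ),
  1 ≤ T → X0 ⊆ A → (∀ x ∈ X0, R x ⊆ A) → Y0 ⊆ B → (∀ y ∈ Y0, S y ⊆ B) →
  (∑ p ∈ (A ×ˢ B) ∩ F, wt0 X0 T p.1 * wt0 Y0 T p.2) * (T : ℝ) ^ 2 =
    ∑ x ∈ X0, ∑ y ∈ Y0, ind F x y ∧
  (∑ p ∈ (A ×ˢ B) ∩ F, wt1 X0 R T p.1 * wt0 Y0 T p.2) * (T : ℝ) ^ 3 =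
    ∑ x ∈ X0, ∑ y ∈ Y0, ∑ w ∈ R x, ind F w y ∧
  (∑ p ∈ (A ×ˢ B) ∩ F, wt0 X0 T p.1 * wt1 Y0 S T p.2) * (T : ℝ) ^ 3 =
    ∑ x ∈ X0, ∑ y ∈ Y0, ∑ z ∈ S y, ind F x z ∧
  (∑ p ∈ (A ×ˢ B) ∩ F, wt1 X0 R T p.1 * wt1 Y0 S T p.2) * (T : ℝ) ^ 4 =
    ∑ x ∈ X0, ∑ y ∈ Y0, ∑ w ∈ R x, ∑ z ∈ S y, ind F w z

/-- PIG: a pair `(i, j)` which is good for all four functions.

Proof.  `∑ t, ((1 + 1 / 1000) M - d t i j)` is a sum of nonnegative numbers, its average over `(i, j)` is at most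
`4 (1 / 1000 + 3 / 10 ^ 4) M = 0.0052 M`; so for some `(i, j)` it is at most `0.0052 M`, and then every
`d t i j ≥ (1 + 0.001 - 0.0052) M ≥ (1 - 1 / 200) M`. -/
def PigStmt : Prop := ∀ (m n : ℕ) (d : Fin 4 → ℕ → ℕ → ℝ) (M : ℝ), 0 < M → 1 ≤ m → 1 ≤ n →
  (∀ t, ∀ i < m, ∀ j < n, d t i j ≤ (1 + 1 / 1000) * M) →
  (∀ t, (M - 3 * (M / 10 ^ 4)) * (m * n) ≤ ∑ i ∈ range m, ∑ j ∈ range n, d t i j) →
  ∃ i < m, ∃ j < n, ∀ t, (1 - 1 / 200) * M ≤ d t i j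

/-- AVS (uses MX2, WTS, CNV, PIG): a good pair of spots.

Proof.  `d 0 i j, .., d 3 i j` = the four sums `∑ p ∈ (A ×ˢ B) ∩ F, ..` of CNV for `X0 i, R i, Y0 j, S j`.  MX2 with `ι = M / 10 ^ 4` (WTS): the lower bounds
of PIG.  The upper bounds: `SatF` for `X0 i × Y0 j`, `R i x × Y0 j`, `X0 i × S j y`, `R i x × S j y` (`E ≤ T`). -/
def AvsStmt : Prop := ∀ (V : Type) [DecidableEq V] (k : ℕ) (c : V → V → Fin k) (g : Fin k)
  (A B : Finset V) (F : Finset (V × V)) (N T m m' : ℕ) (X0 X1 Y0 Y1 : ℕ → Finset V)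
  (R S : ℕ → V → Finset V) (M ρ K κ E : ℝ), A.Nonempty → B.Nonempty → 0 < M → M ≤ 1 →
  0 < ρ → 0 < K → 0 < κ → E ≤ T → 1 ≤ T → 1 ≤ m → 1 ≤ m' → K * ρ ≤ M / 10 ^ 4 →
  Lrg A B F ρ (M - M / 10 ^ 4) → SatF A B (ind F) E ((1 + 1 / 1000) * M) →
  2 * (N : ℝ) ≤ K * κ * T → κ * A.card ≤ 2 * (N : ℝ) * m → κ * B.card ≤ 2 * (N : ℝ) * m' →
  Spots c g A N T m X0 X1 R → Spots c g B N T m' Y0 Y1 S →
  ∃ i < m, ∃ j < m',
    (1 - 1 / 200) * M * (T : ℝ) ^ 2 ≤ ∑ x ∈ X0 i, ∑ y ∈ Y0 j, ind F x y ∧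
    (1 - 1 / 200) * M * (T : ℝ) ^ 3 ≤ ∑ x ∈ X0 i, ∑ y ∈ Y0 j, ∑ w ∈ R i x, ind F w y ∧
    (1 - 1 / 200) * M * (T : ℝ) ^ 3 ≤ ∑ x ∈ X0 i, ∑ y ∈ Y0 j, ∑ z ∈ S j y, ind F x z ∧
    (1 - 1 / 200) * M * (T : ℝ) ^ 4 ≤
      ∑ x ∈ X0 i, ∑ y ∈ Y0 j, ∑ w ∈ R i x, ∑ z ∈ S j y, ind F w z

/-- SPC (uses AVS, CRQ): the contradiction for two families of spots.

Proof.  AVS with `ρ = q ^ 2 κ / (4 10 ^ 4)`, `K = 4 / (q κ)`: `K ρ = q / 10 ^ 4 ≤ M / 10 ^ 4`, `K κ T = 4 T / q ≥ 2 N`; `E ≤ E (2 / q) ^ n ≤ T`.  CRQ with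
`P = X0 i`, `A1 = X1 i`, `N = R i`, `Q = Y0 j`, `B1 = Y1 j`, `N' = S j`, `f = ind F`, `K = 2 / q`: `x, w, y, z`.  The four pairs are in `F`, so they have the
colour `e`; `No4` for `x, w, y, z` is violated (`c x w = g = c y z`, `x ≠ w`, `y ≠ z`, `A, B` are disjoint). -/
def SpcStmt : Prop := ∀ (V : Type) [DecidableEq V] (k : ℕ) (c : V → V → Fin k) (g e : Fin k)
  (U A B : Finset V) (F : Finset (V × V)) (N T m m' : ℕ) (X0 X1 Y0 Y1 : ℕ → Finset V)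
  (R S : ℕ → V → Finset V) (q M κ E : ℝ), No4 c U → A ⊆ U → B ⊆ U → Disjoint A B →
  A.Nonempty → B.Nonempty → (∀ x ∈ A, ∀ y ∈ B, (x, y) ∈ F → c x y = e) → 0 < q → q ≤ M →
  M ≤ 1 → 0 < κ → 0 < E → 1 ≤ T → 1 ≤ m → 1 ≤ m' →
  Lrg A B F (q ^ 2 * κ / (4 * 10 ^ 4)) (M - M / 10 ^ 4) →
  SatF A B (ind F) E ((1 + 1 / 1000) * M) →
  E * (2 / q) ^ ⌈1 / (2 * M ^ 2)⌉₊ ≤ M ^ 4 / 10 ^ 6 * T → (N : ℝ) ≤ 2 / q * T →
  κ * A.card ≤ 2 * (N : ℝ) * m → κ * B.card ≤ 2 * (N : ℝ) * m' →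
  Spots c g A N T m X0 X1 R → Spots c g B N T m' Y0 Y1 S → False

/-! ## 2. Records -/

/-- RBD (uses ENT): robust colours.

Proof.  Suppose `2 |Z| ≥ |D|`, `D = spt c q U T` (`D` is nonempty by `RecL` for `U`).  For `g ∈ Z` there is `R g ⊆ A`, `|R g| ≤ κ |A|`,
`g ∉ spt c q (A \ R g) T`.  ENT: `Z' ⊆ Z`, `A' ⊆ A` nonempty with `A' ⊆ A \ R g` for `g ∈ Z \ Z'`, `|Z'| ≤ 2 κ |Z| ≤ |Z| / 4`,
`log |A'| ≥ log |A| - 3 √κ |Z| - 1 ≥ log |U| - 4 S`.  `spt c q A' T` is contained in `D` minus `Z \ Z'`, so it has at most `(5 / 8) |D|` elements; `RecL`: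
`16 S log (8 / 5) ≤ 4 S`, a contradiction as `log (8 / 5) > 1 / 4`. -/
def RbdStmt : Prop := ∀ (V : Type) [DecidableEq V] (k : ℕ) (c : V → V → Fin k)
  (U A : Finset V) (q T B S κ : ℝ), 0 < S → 0 < κ → κ ≤ 1 / 8 → RecL c q U T (16 * S) B →
  4 * S ≤ B → A ⊆ U → A.Nonempty → Real.log U.card - Real.log A.card ≤ 3 * S →
  3 * √κ * (spt c q U T).card + 1 ≤ S →
  ∀ Z ⊆ spt c q U T, (∀ g ∈ Z, ¬ Rb2 c q A g T κ) → 2 * Z.card < (spt c q U T).card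

/-- RO2 (uses RBD): a colour which is robust in both sets (RBD twice, the number of the bad colours is
less than `|D|`). -/
def Ro2Stmt : Prop := ∀ (V : Type) [DecidableEq V] (k : ℕ) (c : V → V → Fin k)
  (U A A' : Finset V) (q T B S κ : ℝ), 0 < S → 0 < κ → κ ≤ 1 / 8 →
  RecL c q U T (16 * S) B → 4 * S ≤ B → A ⊆ U → A.Nonempty → A' ⊆ U → A'.Nonempty →
  Real.log U.card - Real.log A.card ≤ 3 * S → Real.log U.card - Real.log A'.card ≤ 3 * S →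
  3 * √κ * (spt c q U T).card + 1 ≤ S →
  ∃ g ∈ spt c q U T, Rb2 c q A g T κ ∧ Rb2 c q A' g T κ

/-- RS1: one record.

Proof.  `U` = a nonempty subset of `W` with `log |W| - log |U| ≤ B` and the largest `log |U| - β log |spt c q U T|` (`W` is one).  The inequality is
the comparison with `W`; `RecL`: the subsets of `U` with loss at most `B - (log |W| - log |U|)` are competitors. -/
def Rs1Stmt : Prop := ∀ (V : Type) [DecidableEq V] (k : ℕ) (c : V → V → Fin k) (W : Finset V)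
  (q T β B : ℝ), 0 < β → 0 ≤ B → W.Nonempty →
  (∀ A ⊆ W, A.Nonempty → Real.log W.card - Real.log A.card ≤ B → (spt c q A T).Nonempty) →
  ∃ U ⊆ W, U.Nonempty ∧ Real.log W.card - Real.log U.card ≤ B ∧
    (Real.log W.card - Real.log U.card) ≤
      β * (Real.log (spt c q W T).card - Real.log (spt c q U T).card) ∧
    RecL c q U T β (B - (Real.log W.card - Real.log U.card))

/-- NRS (uses RS1; STRONG): nested records.

Proof.  `U R = W`, and `U j` from RS1 for `U (j + 1)`, `T j = exp (log |U (j + 1)| - h j)`, `β j`, `B = h j / 2` (descending recursion; or induction on `R` for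
`W` and shifted `β, h`: take the record of `W` for the index `R - 1` first).  All `log |U j| ≥ log |W| - h R ≥ 3` (`∑ i < R, h i ≤ h R` by
`2 h i ≤ h (i + 1)`), and a subset of `U (j + 1)` of loss at most `h j / 2` has `log ≥ log (T j) + h j / 2 ≥ log (T j) + σ` and `log ≥ 3`, so `spt` is
nonempty.  The last inequality: `D j = spt c q (U j) (T j)`,
`(log |U (j + 1)| - log |U j|) / β j ≤ log |spt c q (U (j + 1)) (T j)| - log |D j|`, and `T j ≥ T (j + 1)` (because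
`log |U (j + 2)| - log |U (j + 1)| ≤ h (j + 1) / 2` and `h j ≤ h (j + 1) / 2`), so `spt c q (U (j + 1)) (T j) ⊆ D (j + 1)`; telescope, `0 ≤ log |D 0|`, and
the last one is at most `log k`. -/
def NrsStmt : Prop := ∀ (V : Type) [DecidableEq V] (k : ℕ) (c : V → V → Fin k) (W : Finset V)
  (q σ : ℝ) (β h : ℕ → ℝ) (R : ℕ), (∀ j, 0 < β j) → (∀ j, 0 < h j) →
  (∀ j, 2 * h j ≤ h (j + 1)) → 2 * σ ≤ h 0 → 3 + h R ≤ Real.log W.card → 1 ≤ k →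
  (∀ A ⊆ W, 3 ≤ Real.log A.card → ∀ T : ℝ, 0 < T → Real.log T + σ ≤ Real.log A.card →
    (spt c q A T).Nonempty) →
  ∃ U : ℕ → Finset V, U R = W ∧ (∀ j ≤ R, (U j).Nonempty ∧ 3 ≤ Real.log (U j).card) ∧
    (∀ j < R, U j ⊆ U (j + 1) ∧
      Real.log (U (j + 1)).card - Real.log (U j).card ≤ h j / 2 ∧
      RecL c q (U j) (Real.exp (Real.log (U (j + 1)).card - h j)) (β j)
        (h j / 2 - (Real.log (U (j + 1)).card - Real.log (U j).card))) ∧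
    ∑ j ∈ range R, (Real.log (U (j + 1)).card - Real.log (U j).card) / β j ≤ Real.log k

/-- CLA (uses NEV, NRS): the nested records and the bad scales.

Proof.  `S j = (B + 2) ^ j S0`, `h j = B S j`, `β j = 16 S j`, `σ = 3 + 2 s ^ 2 log (k + 1) ≤ S0`.  NRS (the last hypothesis is NEV): the sets `U j`.
`log |U j| - log |U 0| ≤ ∑ i < j, h i / 2 = (B / 2) S0 ((B + 2) ^ j - 1) / (B + 1) ≤ S j / 2` (or by induction: `S j / 2 + B S j / 2 ≤ S (j + 1) / 2`).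
`Bad` = the `j < R` with `log |U (j + 1)| - log |U j| > B S j / 4`: each of them contributes at least `B / 64` to the sum (all summands are
nonnegative), so `|Bad| B / 64 ≤ log k`. -/
def ClaStmt : Prop := ∀ (V : Type) [DecidableEq V] (k : ℕ) (c : V → V → Fin k) (W : Finset V)
  (s R : ℕ) (L q B S0 : ℝ), (∀ x y, c x y = c y x) → Flat c W s (L * s) → 0 < L →
  640 * L ≤ s → 2 ≤ s → 1 ≤ k → q = 1 / (4 * (s : ℝ) ^ 2) → 16 ≤ B →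
  3 + 2 * (s : ℝ) ^ 2 * Real.log (k + 1) ≤ S0 → 3 + B * ((B + 2) ^ R * S0) ≤ Real.log W.card →
  ∃ (U : ℕ → Finset V) (Bad : Finset ℕ), Bad ⊆ range R ∧ Bad.card * B ≤ 64 * Real.log k ∧
    (∀ j ≤ R, U j ⊆ W) ∧ 3 ≤ Real.log (U 0).card ∧ ∀ j ∈ range R \ Bad,
    U 0 ⊆ U j ∧ U j ⊆ U (j + 1) ∧
    Real.log (U j).card - Real.log (U 0).card ≤ (B + 2) ^ j * S0 / 2 ∧
    Real.log (U (j + 1)).card - Real.log (U j).card ≤ B * ((B + 2) ^ j * S0) / 4 ∧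
    RecL c q (U j) (Real.exp (Real.log (U (j + 1)).card - B * ((B + 2) ^ j * S0)))
      (16 * ((B + 2) ^ j * S0))
      (B * ((B + 2) ^ j * S0) / 2 - (Real.log (U (j + 1)).card - Real.log (U j).card))

/-- PLT: plateaus.

Proof.  `M j` = the largest density of a colour `e` in a pair of disjoint nonempty sets `A, B` of `U` with `log |A|, log |B| ≥ log |U| - S j` (the
starting pair is one): `q ≤ M j ≤ 1`, `M j ≤ M (j + 1)`.  `Bd` = the `j < R` with `M (j + 1) > (1 + 1 / 1000) M j`: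
`(1 + 1 / 1000) ^ |Bd ∩ range i| q ≤ M i` (induction on `i ≤ R`), `M R ≤ 1`. -/
def PltStmt : Prop := ∀ (V : Type) [DecidableEq V] (k : ℕ) (c : V → V → Fin k) (U : Finset V)
  (S : ℕ → ℝ) (R : ℕ) (q : ℝ) (A0 B0 : Finset V) (e0 : Fin k), (∀ j, S j ≤ S (j + 1)) →
  0 < q → A0 ⊆ U → B0 ⊆ U → Disjoint A0 B0 → A0.Nonempty → B0.Nonempty →
  Real.log U.card - S 0 ≤ Real.log A0.card → Real.log U.card - S 0 ≤ Real.log B0.card →
  q * (A0.card * B0.card) ≤ ((prs c e0 A0 B0).card : ℝ) →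
  ∃ Bd ⊆ range R, Bd.card * Real.log (1 + 1 / 1000) ≤ Real.log (1 / q) ∧
    ∀ j ∈ range R \ Bd, ∃ (A B : Finset V) (e : Fin k) (M : ℝ), A ⊆ U ∧ B ⊆ U ∧
      Disjoint A B ∧ A.Nonempty ∧ B.Nonempty ∧ Real.log U.card - S j ≤ Real.log A.card ∧
      Real.log U.card - S j ≤ Real.log B.card ∧ q ≤ M ∧ M ≤ 1 ∧
      M * (A.card * B.card) ≤ ((prs c e A B).card : ℝ) ∧
      ∀ A' ⊆ U, ∀ B' ⊆ U, Disjoint A' B' → A'.Nonempty → B'.Nonempty →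
        Real.log U.card - S (j + 1) ≤ Real.log A'.card →
        Real.log U.card - S (j + 1) ≤ Real.log B'.card →
        ((prs c e A' B').card : ℝ) ≤ (1 + 1 / 1000) * M * (A'.card * B'.card)

/-! ## 3. Assembly -/

/-- ONE (uses LRE, RO2, GSP, SPC; STRONG): one scale.

Proof.  `F = prs c e A B`.  LRE for `F`, `ι := M / 10 ^ 4`, `ρ = q ^ 2 κ / (4 10 ^ 4)`: `A1, B1` with losses at most
`2 10 ^ 4 / (M ρ ^ 2) ≤ S` (`q ≤ M`).  `log |Uj| - log |A1| ≤ S / 2 + S + S ≤ 3 S`, the same for `B1`.  RO2 (with `U := Uj`, `T = exp (log |U1| - h)`,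
`B = h / 2 - loss ≥ h / 4 ≥ 4 S`; `spt c q Uj T ⊆ pal c Uj` as `0 < q`, `0 < T`): `g`.  GSP twice, `N = ⌈T⌉`, `Tf = ⌈q N / 2⌉ ≥ 1`, `N ≤ (2 / q) Tf`.
`E = exp (log |U| - (h + 2 S))`.  `SatF A1 B1 (ind F) E ((1 + 1 / 1000) M)` is the last hypothesis (sets with at least `E > 0` elements).
`E (2 / q) ^ n ≤ M ^ 4 / 10 ^ 6 Tf`, `n = ⌈1 / (2 M ^ 2)⌉ ≤ 1 / (2 q ^ 2) + 1`: `Tf ≥ (q / 2) T ≥ (q / 2) exp (log |U| - h)`, `M ≥ q`, and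
`(n + 5) log (2 / q) + 14 ≤ 2 S`, `6 log 10 ≤ 14`.  SPC for `A1, B1`. -/
def OneStmt : Prop := ∀ (V : Type) [DecidableEq V] (k : ℕ) (c : V → V → Fin k)
  (U1 Uj U A B : Finset V) (e : Fin k) (q κ S h M : ℝ), No4 c U → Uj ⊆ U1 → U ⊆ Uj →
  U.Nonempty → 0 < S → 16 * S ≤ h → 0 < q → q ≤ M → M ≤ 1 → 0 < κ → κ ≤ 1 / 8 →
  Real.log U1.card - Real.log Uj.card ≤ h / 4 → Real.log Uj.card - Real.log U.card ≤ S / 2 →
  RecL c q Uj (Real.exp (Real.log U1.card - h)) (16 * S)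
    (h / 2 - (Real.log U1.card - Real.log Uj.card)) →
  3 * √κ * (pal c Uj).card + 1 ≤ S →
  2 * 10 ^ 4 / (q * (q ^ 2 * κ / (4 * 10 ^ 4)) ^ 2) ≤ S →
  (1 / (2 * q ^ 2) + 6) * Real.log (2 / q) + 14 ≤ 2 * S →
  A ⊆ U → B ⊆ U → Disjoint A B → A.Nonempty → B.Nonempty →
  Real.log U.card - S ≤ Real.log A.card → Real.log U.card - S ≤ Real.log B.card →
  M * (A.card * B.card) ≤ ((prs c e A B).card : ℝ) →
  (∀ A' ⊆ U, ∀ B' ⊆ U, Disjoint A' B' → A'.Nonempty → B'.Nonempty →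
    Real.log U.card - (h + 2 * S) ≤ Real.log A'.card →
    Real.log U.card - (h + 2 * S) ≤ Real.log B'.card →
    ((prs c e A' B').card : ℝ) ≤ (1 + 1 / 1000) * M * (A'.card * B'.card)) → False

/-- CLQ (uses SPR, CLA, PLT, ONE; STRONG): all scales.

Proof.  `S j = (B + 2) ^ j S0`.  CLA: `U j`, `Bad`.  SPR for `U 0` (`16 ≤ |U 0|` as `log |U 0| ≥ 3`): the starting pair (`3 + .. ≤ S0 = S 0`).  PLT for `U 0`: `Bd`.
`|Bad| + |Bd| < R` by the last hypothesis, so there is `j < R` which is neither in `Bad` nor in `Bd`: ONE with `U1 = U (j + 1)`, `Uj = U j`,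
`U = U 0`, `S = S j ≥ S0`, `h = B S j` (`S (j + 1) = h + 2 S j`; `pal c (U j) ⊆ pal c W`). -/
def ClqStmt : Prop := ∀ (V : Type) [DecidableEq V] (k : ℕ) (c : V → V → Fin k) (W : Finset V)
  (s R : ℕ) (L q κ B S0 P : ℝ), (∀ x y, c x y = c y x) → No4 c W → Flat c W s (L * s) →
  0 < L → 640 * L ≤ s → 2 ≤ s → 1 ≤ k → q = 1 / (4 * (s : ℝ) ^ 2) → 16 ≤ B →
  3 + 2 * (s : ℝ) ^ 2 * Real.log (k + 1) ≤ S0 → ((pal c W).card : ℝ) ≤ P → 0 < κ →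
  κ ≤ 1 / 8 → 3 * √κ * P + 1 ≤ S0 →
  2 * 10 ^ 4 / (q * (q ^ 2 * κ / (4 * 10 ^ 4)) ^ 2) ≤ S0 →
  (1 / (2 * q ^ 2) + 6) * Real.log (2 / q) + 14 ≤ 2 * S0 →
  3 + B * ((B + 2) ^ R * S0) ≤ Real.log W.card →
  64 * Real.log k / B + Real.log (1 / q) / Real.log (1 + 1 / 1000) < R → False

/-- NUM (numerical): the parameters.

Proof.  `A = 10 ^ 8`, `B = 10 ^ 6`, `s = 640 Q ^ 2 + 2 ≤ 642 Q ^ 2`, `q = 1 / (4 s ^ 2) ≥ 1 / Q ^ 7` (`Q ≥ 1024`), `S0 = N0 k ^ (-1 / 100)`,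
`κ = k ^ (-1 / 50) / (36 Q ^ 2)`, so `3 √κ Q N0 = S0 / 2`; `R = ⌊64 log k / B + log (1 / q) / log (1 + 1 / 1000)⌋ + 1`,
`1 / log (1 + 1 / 1000) ≤ 1001`, `log Q ≤ log k / 10 ^ 8`: `R ≤ (64 / 10 ^ 6 + 7007 / 10 ^ 8) log k + 1 ≤ 0.000135 log k + 1`,
`log (B + 2) ≤ 14`: `(B + 2) ^ R ≤ (B + 2) k ^ (0.0019)`.  `log k ≥ 10 ^ 8 log 1024` is huge, so `B (B + 2) ^ R S0 ≤ N0 / 2`.  `N0 ≥ k / Q`, and all the other
quantities are at most `Q ^ 47 k ^ (1 / 25)`, and `Q ^ 48 k ^ (1 / 25) ≤ k ^ (1 / 2) ≤ S0`: `2 s ^ 2 log (k + 1) + 3 ≤ Q ^ 8` (`log (k + 1) ≤ log (2 k) ≤ Q`),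
`q ^ 2 κ / (4 10 ^ 4) ≥ 1 / (Q ^ 19 k ^ (1 / 50))`, `log (2 / q) ≤ Q`. -/
def NumStmt : Prop := ∃ A : ℕ, ∀ (Q k : ℕ), 1024 ≤ Q → (Q : ℝ) ^ A ≤ k →
  Real.log (2 * k) ≤ Q → ∀ (N0 q : ℝ), (k : ℝ) / Q ≤ N0 →
  q = 1 / (4 * ((640 * Q ^ 2 + 2 : ℕ) : ℝ) ^ 2) →
  ∃ (R : ℕ) (κ B S0 : ℝ), 16 ≤ B ∧
    3 + 2 * ((640 * Q ^ 2 + 2 : ℕ) : ℝ) ^ 2 * Real.log (k + 1) ≤ S0 ∧ 0 < κ ∧ κ ≤ 1 / 8 ∧
    3 * √κ * (Q * N0) + 1 ≤ S0 ∧
    2 * 10 ^ 4 / (q * (q ^ 2 * κ / (4 * 10 ^ 4)) ^ 2) ≤ S0 ∧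
    (1 / (2 * q ^ 2) + 6) * Real.log (2 / q) + 14 ≤ 2 * S0 ∧
    3 + B * ((B + 2) ^ R * S0) ≤ N0 ∧
    64 * Real.log k / B + Real.log (1 / q) / Real.log (1 + 1 / 1000) < R

/-- MAP (uses STA2, CLQ, NUM): one colouring.

Proof.  `A ≥` the one of NUM and `A ≥ 10`; `k ≥ 1`.  STA2 with `s1 = 640 Q ^ 2 + 2`, `W = U`: `W'`, `L = Q ^ 2`, `N0 = log |W'| ≥ θ k / 1024 ≥ k / Q`,
`|pal c W'| ≤ (2 / θ) N0 ≤ Q N0`.  The size condition of STA2: `8192 (3 log (2 k) + 8 log s + 8) ≤ θ k` as in `Pool/Agent/Helper58_EGF/MAI2.lean`.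
NUM, CLQ with `P = Q N0`. -/
def MapStmt : Prop := ∃ A : ℕ, ∀ (θ : ℝ) (Q : ℕ), 0 < θ → θ ≤ 1 → 1024 / θ ≤ Q →
  ∀ (k : ℕ), (Q : ℝ) ^ A ≤ k → Real.log (2 * k) ≤ Q →
  ∀ (V : Type) [DecidableEq V] (c : V → V → Fin k) (U : Finset V),
  (∀ x y, c x y = c y x) → No4 c U → θ * k ≤ Real.log U.card → False

/-- FNP (uses MAP, RD3; as FIN2, `Pool/Agent/Helper23_EGF/FIN2.lean`): THE THEOREM: `log F(p, k) ≤ k ^ (1 - e)` for all
`p ≥ 4`, `k ≥ k₀ (p)`.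

Proof.  As FIN2 with `e = 1 / (2 A + 2)`, `θ = k ^ (-e) / 2`, `Q = ⌈1024 / θ⌉ ≤ 2049 k ^ e`, `Q ^ A ≤ 2049 ^ A √k ≤ k` for large `k`; RD3 instead of RED: the
property for `q = 4` gives `No4`. -/
def FnpStmt : Prop := ∃ e : ℝ, 0 < e ∧ ∀ p : ℕ, 4 ≤ p → ∃ k₀ : ℕ, ∀ k : ℕ, k₀ ≤ k → ∀ n : ℕ,
  Real.exp ((k : ℝ) ^ (1 - e)) ≤ n → Forces p k n

end Pool.Agent.EGF
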